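import Mathlib
import Pool.Agent.Work.MP_44129c_co.X1.Defs
import Pool.Agent.Work.MP_44129c_co.G.PDefs
import Pool.Agent.Work.MP_44129c_co.N.PLift

/-!
# MP_44129c_co/X2, Defs (FIXED, do not change): `m = 3 s + 2`, there is one exact star

Folder X2 (helper24).  Setting `X1.St c s I` (`m = 3 s + 2`, `4 s + 2` vertices, all classes have at most `2 s + 1 + I` elements,
`I (I + 1) ≤ s`, `s = 5` or `s ≥ 8`).  Input: every pair `u v` with `DD c u v ⊥ ≥ 2 s + 2` has an integer lift (`PLift`).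
Output (X2/Main): for some unit `g`, some `β` and some vertex `u` the star of `u` in `g c - β` has only the colours `0` and `1`.

Overview.  (1) Pair: a pair with `DD ≥ 2 s + 2` has a frame `Fr`: all colours at `u` are `θ + a z g`, with a few small `a z` (budgets `P` for
positive, `Q` for negative values, `ex` for values `≠ 0, 1, -1`).  (2) Near: if `P ≤ I` or `Q ≤ I` then the star of `u` is a lift with small
excess, so exact (X1/ExSl).  (3) Uniq: if `P, Q ≥ I + 1` for all frames, every `u` has at most one `v` with `DD ≥ 2 s + 2`.  (4) Count: so some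
vertex `p` has `∑_{classes} |class|² ≥ 8 s² + 2 s - 1 - 2 I`.  (5) Part: `p` has two classes with together `4 s + 1` or `4 s` elements.
(6) Unit: the difference of their two colours is a unit.  (7) Out: `p` is exact, or one leaf has another colour: then it is exact as well
(X1/ExSl) or a far root (FR/Main).
-/

set_option autoImplicit false

namespace ZS44129
namespace X2

open Finset E N X1

variable {V : Type} [Fintype V] [DecidableEq V] {m : ℕ}

/-- the frame of the pair `u v`, seen from `u`. -/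
structure Fr (c : V → V → ZMod m) (s I : ℕ) (u v : V) (g : (ZMod m)ˣ) (θ : ZMod m) (ζ : ℤ)
    (a : V → ℤ) (P Q ex : ℤ) : Prop where
  ne : u ≠ v
  col : ∀ z ∈ XX u v, c u z = θ + (a z : ZMod m) * (g : ZMod m)
  cv : c u v = θ + (ζ : ZMod m) * (g : ZMod m)
  lo : 1 + Q ≤ ζ
  hi : ζ + P + 1 ≤ m
  sQ : ∑ z ∈ XX u v, max (- a z) 0 ≤ Q
  sP : ∑ z ∈ XX u v, max (a z) 0 ≤ P
  one : ∀ z ∈ XX u v, 2 * |a z| ≤ ex + 3
  sex : ∑ z ∈ XX u v, max (|a z| - 1) 0 ≤ ex
  na : 2 * s ≤ ((XX u v).filter (fun z => a z ≠ 0)).card + 1 + I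
  cnt : (G.DD c u v ⊥ : ℤ) + ((XX u v).filter (fun z => a z ≠ 0)).card + (2 * s - 1 - I) + ex ≤
    2 * (P + Q)
  dd : 2 * s + 2 ≤ G.DD c u v ⊥

/-- numerical consequences. -/
theorem fr_facts {c : V → V → ZMod m} {s I : ℕ} (h : St c s I) {u v : V} {g : (ZMod m)ˣ}
    {θ : ZMod m} {ζ : ℤ} {a : V → ℤ} {P Q ex : ℤ} (F : Fr c s I u v g θ ζ a P Q ex) :
    0 ≤ ex ∧ 0 ≤ P ∧ 0 ≤ Q ∧ ex ≤ 2 * I ∧ G.DD c u v ⊥ ≤ 2 * s + 2 + 2 * I ∧
      (((XX u v).filter (fun z => a z ≠ 0)).card : ℤ) + ex + 1 ≤ 2 * s + I ∧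
      6 * s + ex ≤ 2 * (P + Q) + 2 * I ∧ P + Q ≤ 3 * s := by
  have h1 : 0 ≤ ∑ z ∈ XX u v, max (|a z| - 1) 0 := sum_nonneg fun z _ => le_max_right _ _
  have h2 : 0 ≤ ∑ z ∈ XX u v, max (a z) 0 := sum_nonneg fun z _ => le_max_right _ _
  have h3 : 0 ≤ ∑ z ∈ XX u v, max (- a z) 0 := sum_nonneg fun z _ => le_max_right _ _
  have h4 := F.sex
  have h5 := F.sP
  have h6 := F.sQ
  have h7 := F.lo
  have h8 := F.hi
  have h9 := F.na
  have h10 := F.cnt
  have h11 := F.dd
  have h12 : (m : ℤ) = 3 * s + 2 := by exact_mod_cast h.m3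
  refine ⟨by omega, by omega, by omega, by omega, by omega, by omega, by omega, by omega⟩

/-- `s ≥ 3 I + 2`. -/
theorem three_I {c : V → V → ZMod m} {s I : ℕ} (h : St c s I) : 3 * I + 2 ≤ s := by
  have h1 := h.hI
  have h2 := h.s5
  rcases Nat.lt_or_ge I 3 with h3 | h3
  · interval_cases I <;> omega
  · nlinarith

/-- reflection of a frame. -/
theorem fr_refl [NeZero m] {c : V → V → ZMod m} {s I : ℕ} {u v : V} {g : (ZMod m)ˣ}
    {θ : ZMod m} {ζ : ℤ} {a : V → ℤ} {P Q ex : ℤ} (F : Fr c s I u v g θ ζ a P Q ex) :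
    Fr c s I u v (-g) θ (m - ζ) (fun z => - a z) Q P ex := by
  have hf : (XX u v).filter (fun z => - a z ≠ 0) = (XX u v).filter (fun z => a z ≠ 0) :=
    filter_congr fun z _ => by rw [ne_eq, ne_eq, neg_eq_zero]
  refine ⟨F.ne, ?_, ?_, ?_, ?_, ?_, ?_, ?_, ?_, ?_, ?_, F.dd⟩
  · intro z hz
    rw [F.col z hz]
    push_cast
    ring
  · rw [F.cv]
    push_cast
    rw [ZMod.natCast_self]
    ring
  · have := F.hi
    omega
  · have := F.lo
    omega
  · simpa using F.sP
  · simpa using F.sQ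
  · intro z hz
    rw [abs_neg]
    exact F.one z hz
  · simpa using F.sex
  · rw [hf]
    exact F.na
  · rw [hf]
    have := F.cnt
    omega

/-- the affine images of the setting. -/
theorem st_affine {c : V → V → ZMod m} {s I : ℕ} (h : St c s I) (g : (ZMod m)ˣ) (β : ZMod m) :
    St (fun x y => (g : ZMod m) * c x y - β) s I := by
  refine ⟨fun x w => by rw [h.sym x w], zsf_affine c h.zsf g β, h.card, h.m3, h.s5, h.hI, ?_⟩
  intro x a
  refine le_trans (card_le_card ?_) (h.cl x (((g⁻¹ : (ZMod m)ˣ) : ZMod m) * (a + β)))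
  intro y hy
  unfold cla at hy ⊢
  rw [mem_filter] at hy ⊢
  refine ⟨hy.1, ?_⟩
  have h1 : (g : ZMod m) * c x y = a + β := by
    rw [← hy.2]
    ring
  rw [← h1, ← mul_assoc, ← Units.val_mul, inv_mul_cancel, Units.val_one, one_mul]

end X2
end ZS44129
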