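import Mathlib
import Pool.Agent.Work.MP_44129c_co.X2.Defs
import Pool.Agent.Work.MP_44129c_co.O1.Sum

/-!
# MP_44129c_co/X2, Count (size S-M): some vertex has large classes

`n = |V| - 1 = 4 s + 1`.  `Qp p = ∑_{z ≠ p} |cla c p (c p z)|` (the sum of the squares of the class sizes at `p`).
PROOF of `sum_all`.  Sum `O1.sum_dd` over all `u`; `∑_u ∑_{z ≠ u} |cla c z (c z u)| = ∑_z ∑_{u ≠ z} |cla c z (c z u)| = ∑_z Qp z` (exchange the sums).
PROOF of `exists_big`.  For every `u`: at most one `v ≠ u` has `DD ≥ 2 s + 2`, and there `DD ≤ 2 s + 2 + 2 I`; so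
`∑_{v ≠ u} DD c u v ⊥ ≤ n (2 s + 1) + 1 + 2 I`.  If `Qp p + 1 + 2 I < 8 s² + 2 s` for all `p`: by `sum_all`
`(n + 1) n² = ∑_u ∑_v DD + ∑_p Qp p < (n + 1) (n (2 s + 1) + 1 + 2 I + 8 s² + 2 s - 1 - 2 I) = (n + 1) (n (2 s + 1) + 2 s n) = (n + 1) n²`
(`8 s² + 2 s = 2 s (4 s + 1)`).  Contradiction.
-/

set_option autoImplicit false

namespace ZS44129
namespace X2

open Finset E N X1

variable {V : Type} [Fintype V] [DecidableEq V] {m : ℕ}

theorem sum_all (c : V → V → ZMod m) (hsym : ∀ x y, c x y = c y x) :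
    ∑ u : V, ∑ v ∈ univ.erase u, G.DD c u v ⊥ +
      ∑ p : V, ∑ z ∈ univ.erase p, (cla c p (c p z)).card =
      Fintype.card V * ((Fintype.card V - 1) * (Fintype.card V - 1)) := by
  have h1 : ∑ p : V, ∑ z ∈ univ.erase p, (cla c p (c p z)).card =
      ∑ u : V, ∑ z ∈ univ.erase u, (cla c z (c z u)).card := by
    refine Finset.sum_comm' ?_
    intro x y
    simp only [Finset.mem_erase, Finset.mem_univ, and_true, true_and]
    exact ⟨fun h => h.symm, fun h => h.symm⟩
  rw [h1, ← Finset.sum_add_distrib,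
    Finset.sum_congr rfl (fun u _ => O1.sum_dd c hsym u), Finset.sum_const, Finset.card_univ,
    smul_eq_mul]

theorem exists_big {c : V → V → ZMod m} {s I : ℕ} (h : St c s I)
    (hb : ∀ u v, v ≠ u → G.DD c u v ⊥ ≤ 2 * s + 2 + 2 * I)
    (hu : ∀ u v v', v ≠ u → v' ≠ u → 2 * s + 2 ≤ G.DD c u v ⊥ → 2 * s + 2 ≤ G.DD c u v' ⊥ →
      v = v') :
    ∃ p, 8 * s * s + 2 * s ≤ (∑ z ∈ univ.erase p, (cla c p (c p z)).card) + 1 + 2 * I := by
  by_contra hcon
  push Not at hcon
  have hV : Fintype.card V = 4 * s + 2 := by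
    rw [h.card, h.m3]
    ring
  have hc : ∀ u : V, (univ.erase u).card = 4 * s + 1 := by
    intro u
    rw [card_erase_of_mem (mem_univ u), card_univ, hV]
    rfl
  have h1 : ∀ u : V, ∑ v ∈ univ.erase u, G.DD c u v ⊥ ≤
      (4 * s + 1) * (2 * s + 1) + 1 + 2 * I := by
    intro u
    by_cases he : ∃ v, v ≠ u ∧ 2 * s + 2 ≤ G.DD c u v ⊥
    · obtain ⟨v, hv, hD⟩ := he
      have hmem : v ∈ univ.erase u := mem_erase.2 ⟨hv, mem_univ v⟩
      rw [← Finset.add_sum_erase _ _ hmem]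
      have h2 : ∑ x ∈ (univ.erase u).erase v, G.DD c u x ⊥ ≤
          ((univ.erase u).erase v).card * (2 * s + 1) := by
        rw [← smul_eq_mul]
        refine Finset.sum_le_card_nsmul _ _ _ fun x hx => ?_
        obtain ⟨hx1, hx2⟩ := mem_erase.1 hx
        by_contra hx3
        exact hx1 (hu u x v (mem_erase.1 hx2).1 hv (by omega) hD)
      have h3 : ((univ.erase u).erase v).card = 4 * s := by
        rw [card_erase_of_mem hmem, hc]
        rfl
      rw [h3] at h2
      have h4 := hb u v hv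
      nlinarith
    · push Not at he
      have h2 : ∑ x ∈ univ.erase u, G.DD c u x ⊥ ≤ (univ.erase u).card * (2 * s + 1) := by
        rw [← smul_eq_mul]
        refine Finset.sum_le_card_nsmul _ _ _ fun x hx => ?_
        have h3 := he x (mem_erase.1 hx).1
        omega
      rw [hc] at h2
      omega
  have h2 := sum_all c h.sym
  rw [hV] at h2
  have h3 : ∑ u : V, ∑ v ∈ univ.erase u, G.DD c u v ⊥ ≤
      (4 * s + 2) * ((4 * s + 1) * (2 * s + 1) + 1 + 2 * I) := by
    have h4 := Finset.sum_le_card_nsmul univ (fun u : V => ∑ v ∈ univ.erase u, G.DD c u v ⊥) _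
      fun u _ => h1 u
    rwa [card_univ, hV, smul_eq_mul] at h4
  have h4 : ∑ p : V, ((∑ z ∈ univ.erase p, (cla c p (c p z)).card) + 2 + 2 * I) ≤
      (4 * s + 2) * (8 * s * s + 2 * s) := by
    have h5 := Finset.sum_le_card_nsmul univ
      (fun p : V => (∑ z ∈ univ.erase p, (cla c p (c p z)).card) + 2 + 2 * I)
      (8 * s * s + 2 * s) fun p _ => by
        have h6 := hcon p
        show _ + 2 + 2 * I ≤ _
        omega
    rwa [card_univ, hV, smul_eq_mul] at h5
  rw [Finset.sum_add_distrib, Finset.sum_add_distrib, Finset.sum_const, Finset.sum_const,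
    card_univ, hV, smul_eq_mul, smul_eq_mul] at h4
  have h5 : 4 * s + 2 - 1 = 4 * s + 1 := by omega
  rw [h5] at h2
  nlinarith

end X2
end ZS44129
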