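import Mathlib
import Pool.Agent.Work.MP_44129c_co.X2.Count

/-!
# MP_44129c_co/X2, ECount (size M): some vertex has large classes, even `m`

`n = 4 s + 1`, `η = |T|`, `π` an involution without fixed points on `T`, so `η` is even (e.g. `Finset.sum_involution` in `ZMod 2`, or: remove pairs).
PROOF.  `D v = DD c u v ⊥`.  `s = 2 k`, `m = 2 M`, `M = 3 k + 1`, `2 s + 1 - M = k`.
* `u ∉ T`: `∑_{v ≠ u} D v ≤ n (2 s + 1) + 1 + 2 I` (as in Count).
* `u ∈ T`: `D (π u) ≤ |XX| = 4 s`; the `η - 2` others in `T`: `≤ M`; the `n + 1 - η` outside `T`: `≤ 2 s + 1`.  So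
  `∑_{v ≠ u} D v ≤ 4 s + (η - 2) M + (n + 1 - η) (2 s + 1) = n (2 s + 1) + (2 s - 1) - (η - 2) k`.
Suppose `Qp p + 1 + 2 I < 8 s² + 2 s` for all `p` (`Qp` as in Count).  By `sum_all`, with `N = n + 1 = 4 s + 2`:
`N n² < N n (2 s + 1) + (N - η) (1 + 2 I) + η (2 s - 1) - η (η - 2) k + N (8 s² + 2 s - 1 - 2 I) `; as `n² = n (2 s + 1) + 8 s² + 2 s`, and each `Qp p ≤ 8 s² + 2 s - 2 - 2 I`:
`N (2 + 2 I) ≤ (N - η) (1 + 2 I) + η (2 s - 1) - η (η - 2) k`, i.e. `4 s + 2 ≤ η (2 s - 2 - 2 I - (η - 2) k)`.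
`η = 0`: no.  `η = 2`: `2 (2 s - 2 - 2 I) < 4 s + 2`.  `η = 4`: `4 (2 s - 2 - 2 I - s) < 4 s + 2`.  `η ≥ 6`: `2 s - 2 - 2 I - (η - 2) k ≤ 2 s - 2 - 4 k < 0`.  Contradiction.
-/

set_option autoImplicit false

namespace ZS44129
namespace X2

open Finset E N X1

variable {V : Type} [Fintype V] [DecidableEq V] {m : ℕ}

private theorem ec_even (T : Finset V) (π : V → V)
    (hπ : ∀ u ∈ T, π u ∈ T ∧ π u ≠ u ∧ π (π u) = u) : 2 ∣ T.card := by
  have h1 : ∑ _u ∈ T, (1 : ZMod 2) = 0 := by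
    refine Finset.sum_involution (fun u _ => π u) (fun u _ => ?_) (fun u hu _ => (hπ u hu).2.1)
      (fun u hu => (hπ u hu).1) (fun u hu => (hπ u hu).2.2)
    decide
  rw [Finset.sum_const, nsmul_eq_mul, mul_one] at h1
  exact (ZMod.natCast_eq_zero_iff _ _).1 h1

private theorem ec_dd (c : V → V → ZMod m) {u v : V} (huv : u ≠ v) :
    G.DD c u v ⊥ + 2 ≤ Fintype.card V := by
  classical
  rw [← G.card_XX huv]
  unfold G.DD G.Dn
  exact Nat.add_le_add_right (Finset.card_filter_le _ _) 2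

private theorem ec_sum (A : Finset V) (f : V → ℕ) (b : ℕ) (h : ∀ v ∈ A, f v ≤ b) :
    (∑ v ∈ A, (f v : ℤ)) ≤ (A.card : ℤ) * b := by
  have h1 := Finset.sum_le_card_nsmul A (fun v => (f v : ℤ)) (b : ℤ)
    (fun v hv => by exact_mod_cast h v hv)
  rwa [nsmul_eq_mul] at h1

private theorem ec_out (f : V → ℕ) {s I : ℕ} (hV : Fintype.card V = 4 * s + 2) {u : V}
    (hb : ∀ v, v ≠ u → f v ≤ 2 * s + 2 + 2 * I)
    (hu : ∀ v v', v ≠ u → v' ≠ u → 2 * s + 2 ≤ f v → 2 * s + 2 ≤ f v' → v = v') :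
    (∑ v ∈ univ.erase u, (f v : ℤ)) ≤ (4 * s + 1) * (2 * s + 1) + 1 + 2 * I := by
  have hE : ((univ.erase u).card : ℤ) = 4 * s + 1 := by
    have h1 := card_erase_add_one (mem_univ u)
    rw [card_univ, hV] at h1
    have h2 : (univ.erase u).card = 4 * s + 1 := by omega
    exact_mod_cast h2
  by_cases hex : ∃ v, v ≠ u ∧ 2 * s + 2 ≤ f v
  · obtain ⟨v, hv1, hv2⟩ := hex
    have hvm : v ∈ univ.erase u := mem_erase.2 ⟨hv1, mem_univ v⟩
    rw [← sum_erase_add _ _ hvm]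
    have h1 := ec_sum ((univ.erase u).erase v) f (2 * s + 1) (fun w hw => by
      obtain ⟨h2, h3⟩ := mem_erase.1 hw
      have h4 := (mem_erase.1 h3).1
      by_contra h5
      exact h2 (hu w v h4 hv1 (by omega) hv2))
    have h2 := card_erase_add_one hvm
    have h3 : (((univ.erase u).erase v).card : ℤ) + 1 = 4 * s + 1 := by
      rw [← hE]
      exact_mod_cast h2
    have h4 : (((univ.erase u).erase v).card : ℤ) = 4 * s := by linarith
    rw [h4] at h1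
    have h5 : (f v : ℤ) ≤ 2 * s + 2 + 2 * I := by exact_mod_cast hb v hv1
    push_cast at h1
    linarith
  · push Not at hex
    have h1 := ec_sum (univ.erase u) f (2 * s + 1) (fun w hw => by
      have := hex w (mem_erase.1 hw).1
      omega)
    rw [hE] at h1
    push_cast at h1
    have h2 : (0 : ℤ) ≤ I := Int.natCast_nonneg I
    linarith

private theorem ec_in (f : V → ℕ) {s M : ℕ} (hV : Fintype.card V = 4 * s + 2) (T : Finset V) {u w : V}
    (huT : u ∈ T) (hwT : w ∈ T) (hwu : w ≠ u) (h4 : f w ≤ 4 * s)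
    (hh : ∀ v, v ≠ u → v ≠ w → f v ≤ 2 * s + 1) (hhh : ∀ v ∈ T, v ≠ u → v ≠ w → f v ≤ M) :
    (∑ v ∈ univ.erase u, (f v : ℤ)) ≤
      4 * s + ((T.card : ℤ) - 2) * M + (4 * s + 2 - T.card) * (2 * s + 1) := by
  have hsub : T.erase u ⊆ univ.erase u := erase_subset_erase _ (subset_univ T)
  have hwm : w ∈ T.erase u := mem_erase.2 ⟨hwu, hwT⟩
  rw [← sum_sdiff hsub, ← sum_erase_add _ _ hwm]
  have c1 := card_erase_add_one huT
  have c2 := card_erase_add_one hwm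
  have c3 : (((T.erase u).erase w).card : ℤ) = (T.card : ℤ) - 2 := by omega
  have c4 : ((univ.erase u \ T.erase u).card : ℤ) = 4 * s + 2 - T.card := by
    have h1 := card_sdiff_add_card_eq_card hsub
    have h2 := card_erase_add_one (mem_univ u)
    rw [card_univ, hV] at h2
    omega
  have h1 := ec_sum ((T.erase u).erase w) f M (fun v hv => by
    obtain ⟨h2, h3⟩ := mem_erase.1 hv
    obtain ⟨h5, h6⟩ := mem_erase.1 h3
    exact hhh v h6 h5 h2)
  have h2 := ec_sum (univ.erase u \ T.erase u) f (2 * s + 1) (fun v hv => by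
    obtain ⟨h3, h5⟩ := mem_sdiff.1 hv
    have h6 := (mem_erase.1 h3).1
    refine hh v h6 fun h7 => h5 ?_
    rw [h7]
    exact hwm)
  rw [c3] at h1
  rw [c4] at h2
  push_cast at h2
  have h5 : (f w : ℤ) ≤ 4 * s := by exact_mod_cast h4
  linarith

theorem exists_bigE {c : V → V → ZMod m} {s I : ℕ} (h : St c s I) (hs : 2 ∣ s) (T : Finset V)
    (π : V → V) (hπ : ∀ u ∈ T, π u ∈ T ∧ π u ≠ u ∧ π (π u) = u)
    (hb : ∀ u, u ∉ T → ∀ v, v ≠ u → G.DD c u v ⊥ ≤ 2 * s + 2 + 2 * I)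
    (hu : ∀ u, u ∉ T → ∀ v v', v ≠ u → v' ≠ u → 2 * s + 2 ≤ G.DD c u v ⊥ →
      2 * s + 2 ≤ G.DD c u v' ⊥ → v = v')
    (hh : ∀ u ∈ T, ∀ v, v ≠ u → v ≠ π u → G.DD c u v ⊥ ≤ 2 * s + 1)
    (hhh : ∀ u ∈ T, ∀ v ∈ T, v ≠ u → v ≠ π u → 2 * G.DD c u v ⊥ ≤ m) :
    ∃ p, 8 * s * s + 2 * s ≤ (∑ z ∈ univ.erase p, (cla c p (c p z)).card) + 1 + 2 * I := by
  by_contra hcon
  push Not at hcon
  have hm3 := h.m3
  have hV : Fintype.card V = 4 * s + 2 := by
    rw [h.card]; omega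
  obtain ⟨k, hk⟩ := hs
  have hm : m = 2 * (3 * k + 1) := by omega
  have hη := ec_even T π hπ
  have hsum := sum_all c h.sym
  rw [hV] at hsum
  have hn : 4 * s + 2 - 1 = 4 * s + 1 := by omega
  rw [hn] at hsum
  -- the classes
  have hQ : (∑ p : V, ((∑ z ∈ univ.erase p, (cla c p (c p z)).card : ℕ) : ℤ)) ≤
      (4 * s + 2) * (8 * s * s + 2 * s - 2 - 2 * I) := by
    have h1 := Finset.sum_le_card_nsmul univ
      (fun p => ((∑ z ∈ univ.erase p, (cla c p (c p z)).card : ℕ) : ℤ))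
      (8 * s * s + 2 * s - 2 - 2 * I) (fun p _ => by
        have h2 := hcon p
        have h3 : ((∑ z ∈ univ.erase p, (cla c p (c p z)).card : ℕ) : ℤ) + 1 + 2 * I + 1 ≤
            8 * s * s + 2 * s := by exact_mod_cast h2
        linarith)
    rw [card_univ, hV, nsmul_eq_mul] at h1
    push_cast at h1 ⊢
    exact h1
  -- the sums over the pairs
  have hout : ∀ u ∈ univ \ T, (∑ v ∈ univ.erase u, (G.DD c u v ⊥ : ℤ)) ≤
      (4 * s + 1) * (2 * s + 1) + 1 + 2 * I := by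
    intro u hu'
    have huT := (mem_sdiff.1 hu').2
    exact ec_out (fun v => G.DD c u v ⊥) hV (hb u huT) (hu u huT)
  have hin : ∀ u ∈ T, (∑ v ∈ univ.erase u, (G.DD c u v ⊥ : ℤ)) ≤
      4 * s + ((T.card : ℤ) - 2) * (3 * k + 1 : ℕ) + (4 * s + 2 - T.card) * (2 * s + 1) := by
    intro u huT
    obtain ⟨h1, h2, h3⟩ := hπ u huT
    refine ec_in (fun v => G.DD c u v ⊥) hV T huT h1 h2 ?_ (hh u huT) ?_
    · have h4 := ec_dd c (u := u) (v := π u) h2.symm
      omega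
    · intro v hvT hvu hvp
      have h4 := hhh u huT v hvT hvu hvp
      show G.DD c u v ⊥ ≤ 3 * k + 1
      omega
  have hs1 := Finset.sum_le_card_nsmul (univ \ T) _ _ hout
  have hs2 := Finset.sum_le_card_nsmul T _ _ hin
  have hsp := Finset.sum_sdiff (f := fun u => ∑ v ∈ univ.erase u, (G.DD c u v ⊥ : ℤ))
    (subset_univ T)
  have hTc : ((univ \ T).card : ℤ) = 4 * s + 2 - T.card := by
    have h1 := card_sdiff_add_card_eq_card (subset_univ T)
    rw [card_univ, hV] at h1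
    omega
  have hTle : T.card ≤ 4 * s + 2 := by
    have h1 := card_le_univ T
    rwa [hV] at h1
  rw [nsmul_eq_mul, hTc] at hs1
  rw [nsmul_eq_mul] at hs2
  have hsum' : (∑ u : V, ∑ v ∈ univ.erase u, (G.DD c u v ⊥ : ℤ)) +
      (∑ p : V, ((∑ z ∈ univ.erase p, (cla c p (c p z)).card : ℕ) : ℤ)) =
      (4 * s + 2) * ((4 * s + 1) * (4 * s + 1)) := by
    have h1 := congrArg (fun x : ℕ => (x : ℤ)) hsum
    push_cast at h1 ⊢
    exact h1
  have hkz : (s : ℤ) = 2 * k := by exact_mod_cast hk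
  obtain ⟨e, he⟩ := hη
  have hez : (T.card : ℤ) = 2 * e := by exact_mod_cast he
  generalize (∑ p : V, ((∑ z ∈ univ.erase p, (cla c p (c p z)).card : ℕ) : ℤ)) = X at *
  generalize (∑ u : V, ∑ v ∈ univ.erase u, (G.DD c u v ⊥ : ℤ)) = Y at *
  generalize (∑ u ∈ univ \ T, ∑ v ∈ univ.erase u, (G.DD c u v ⊥ : ℤ)) = Y1 at *
  generalize (∑ u ∈ T, ∑ v ∈ univ.erase u, (G.DD c u v ⊥ : ℤ)) = Y2 at *
  rw [hez] at hs1 hs2
  push_cast at hs2
  have hkey : (4 * s + 2 : ℤ) ≤ 2 * e * (2 * s - 2 - 2 * I) - 2 * e * (2 * e - 2) * k := by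
    rw [hkz] at *
    nlinarith
  have hI0 : (0 : ℤ) ≤ I := Int.natCast_nonneg I
  have hk4 : (1 : ℤ) ≤ k := by
    have := h.s5
    have : 1 ≤ k := by omega
    exact_mod_cast this
  rw [hkz] at hkey
  rcases Nat.lt_or_ge e 3 with h3 | h3
  · have heq : e = 0 ∨ e = 1 ∨ e = 2 := by omega
    rcases heq with h4 | h4 | h4
    · rw [h4] at hkey
      push_cast at hkey
      linarith
    · rw [h4] at hkey
      push_cast at hkey
      linarith
    · rw [h4] at hkey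
      push_cast at hkey
      linarith
  · have h4 : (3 : ℤ) ≤ e := by exact_mod_cast h3
    have h5 : 0 ≤ (e : ℤ) * ((2 * e - 2) * k - 4 * k) := by
      refine mul_nonneg (by linarith) ?_
      have : 0 ≤ (2 * (e : ℤ) - 6) * k := mul_nonneg (by linarith) (by linarith)
      linarith
    have h6 : 0 ≤ (e : ℤ) * I := mul_nonneg (by linarith) hI0
    nlinarith

end X2
end ZS44129
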