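import Mathlib
import Pool.Agent.Work.MP_44129c_co.X2.Defs
import Pool.Agent.Work.MP_44129c_co.G.CDefs
import Pool.Agent.Work.MP_44129c_co.G.Partner

/-!
# MP_44129c_co/X2, EDefs (FIXED, do not change): even `m`

`StE c s I K`: `St c s I` and `|K| = 2` (so `m`, `s` are even, `s ≥ 8`), all `K`-classes have at most `2 s + 1 + I` elements.
`Hvy c u w`: `w` is the heavy partner of `u` (index 2): all `c u z`, `c w z` (`z ≠ u, w`) are in one coset of the subgroup of index 2 and
`c u w` is not.  At most one partner (`hvy_uniq`), symmetric (`hvy_symm`).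
`par`: `(k : ZMod m) * g ∈ P` with `2 |P| = m`, `g` a unit, implies `2 ∣ k`.
-/

set_option autoImplicit false

namespace ZS44129
namespace X2

open Finset E N X1

variable {V : Type} [Fintype V] [DecidableEq V] {m : ℕ}

/-- the setting for even `m`. -/
structure StE (c : V → V → ZMod m) (s I : ℕ) (K : AddSubgroup (ZMod m)) : Prop extends
    St c s I where
  k2 : Nat.card K = 2
  cK : ∀ x a, (G.cls c x K a).card ≤ 2 * s + 1 + I

/-- heavy partners of index 2. -/
def Hvy (c : V → V → ZMod m) (u w : V) : Prop :=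
  ∃ (P : AddSubgroup (ZMod m)) (r : ZMod m), G.Hv c 2 u w P r ∧ 2 * Nat.card P = m

theorem s_even [NeZero m] {c : V → V → ZMod m} {s I : ℕ} {K : AddSubgroup (ZMod m)}
    (h : StE c s I K) : ∃ k, s = 2 * k ∧ m = 2 * (3 * k + 1) ∧ 4 ≤ k := by
  have h1 : 2 ∣ m := by
    have h2 := AddSubgroup.card_addSubgroup_dvd_card K
    rwa [Nat.card_zmod, h.k2] at h2
  have h2 := h.m3
  have h3 := h.s5
  exact ⟨s / 2, by omega, by omega, by omega⟩

theorem hvy_ne [NeZero m] {c : V → V → ZMod m} {u w : V} (h : Hvy c u w) : u ≠ w := by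
  obtain ⟨P, r, h1, -⟩ := h
  exact h1.1

theorem hvy_uniq [NeZero m] {c : V → V → ZMod m} (hV : 5 ≤ Fintype.card V) {u w w' : V}
    (h : Hvy c u w) (h' : Hvy c u w') : w = w' := by
  obtain ⟨P, r, h1, h2⟩ := h
  obtain ⟨P', r', h1', h2'⟩ := h'
  exact G.partner2 c hV h1 h2 h1' h2'

theorem hvy_symm [NeZero m] {c : V → V → ZMod m} (hsym : ∀ x y, c x y = c y x) {u w : V}
    (h : Hvy c u w) : Hvy c w u := by
  classical
  obtain ⟨P, r, h1, h2⟩ := h
  have h3 := G.hv2 c h1 h2
  have h0 : G.Out c w u P r = 0 := by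
    unfold G.Out G.np
    rw [Finset.card_eq_zero, Finset.filter_eq_empty_iff]
    intro z hz
    rw [not_not]
    have h4 := h3 z (G.XX_comm w u ▸ hz)
    intro o ho
    rw [mem_insert, mem_singleton] at ho
    rcases ho with rfl | rfl
    · exact h4.2
    · exact h4.1
  refine ⟨P, r, ⟨h1.1.symm, h1.2.1, ?_, ?_⟩, h2⟩
  · rw [hsym w u]
    exact h1.2.2.1
  · rw [h0]
    omega

/-- parity. -/
theorem par [NeZero m] {P : AddSubgroup (ZMod m)} (h2 : 2 * Nat.card P = m) (g : (ZMod m)ˣ)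
    {k : ℤ} (hk : (k : ZMod m) * (g : ZMod m) ∈ P) : 2 ∣ k := by
  have hm : 0 < m := Nat.pos_of_ne_zero (NeZero.ne m)
  rw [G.mem_iff, nsmul_eq_mul, ← mul_assoc] at hk
  have h3 : ((Nat.card P : ZMod m)) * (k : ZMod m) = 0 := (Units.mul_left_eq_zero g).1 hk
  have h4 : (((Nat.card P : ℤ) * k : ℤ) : ZMod m) = 0 := by
    push_cast
    exact h3
  rw [ZMod.intCast_zmod_eq_zero_iff_dvd] at h4
  have h5 : ((m : ℕ) : ℤ) = Nat.card P * 2 := by
    have : ((2 * Nat.card P : ℕ) : ℤ) = (m : ℤ) := congrArg _ h2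
    push_cast at this
    linarith
  rw [h5] at h4
  exact Int.dvd_of_mul_dvd_mul_left (by
    have : 0 < Nat.card P := Nat.card_pos
    omega) h4

end X2
end ZS44129
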