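import Mathlib
import Pool.Agent.Work.MP_44129c_co.X2.EDefs
import Pool.Agent.Work.MP_44129c_co.G.TightW

/-!
# MP_44129c_co/X2, EHH (size M): two heavy vertices which are not partners have no lift

`v, v'` partners, `w, w'` partners, `w ≠ v, v'`.  Suppose `(v, w)` has a lift for `c' = g c - β` and `m < 2 DD c v w ⊥`.
PROOF.  `P`, `r` (for `v`), `P'`, `r'` (for `w`): `2 |P| = m = 2 |P'|`, so `P = P'` (`G.eq_of_card`).  `c v z - r ∈ P` for `z ≠ v, v'`; `c w z - r' ∈ P` for `z ≠ w, w'`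
(`G.hv2`).  `w ≠ v'` and `v ≠ w'` (`v = w'` would give that `w` is the partner of `v`: `hvy_symm`, `hvy_uniq`), so `c v w - r`, `c w v - r' ∈ P`: `r - r' ∈ P`.  So for
`z ∈ X = XX v w`, `z ≠ v', w'`: `g (c v z - c w z) = al z - ga z` (in `ZMod m`), `c v z - c w z ∈ P`, so `al z - ga z` is even (`par` with the unit `1`, `g • P ⊆ P`).
`D = #{z ∈ X : al z ≠ ga z} ≥ DD c v w ⊥` (end of O1/GpDD), `2 D > m`, so `2 D ≥ m + 2` (`m` even).  Take `S₀ ⊆ {al ≠ ga}` with `2 |S₀| = m + 2` and `S₀ ⊆ S ⊆ X` with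
`|S| = m - 1` (`m + 2 ≤ 2 (m - 1)`, `m - 1 ≤ |X| = 4 s`).  The two double stars with the leaves of `S` on the larger (smaller) side: `∑_S |al - ga| ≤ m - 2`
(`hP.gap` twice; `c34_max`, `c34_min` in N/C34: copy).  But `∑_S |al - ga| ≥ ∑_{S₀} |al - ga| ≥ 2 (|S₀| - 2) + 2 = m`
(every summand is `≥ 1`, and `≥ 2` for `z ≠ v', w'`).  Contradiction.
-/

set_option autoImplicit false

namespace ZS44129
namespace X2

open Finset E N X1

variable {V : Type} [Fintype V] [DecidableEq V] {m : ℕ}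

private theorem eh_sides {c : V → V → ZMod m} {u x : V} {z0 : ℤ} {al ga : V → ℤ}
    (h : PLift c u x z0 al ga) {S : Finset V} (hS : S ⊆ XX u x) (hc : S.card + 1 = m)
    (p : V → Prop) [DecidablePred p] :
    1 ≤ z0 + ∑ w ∈ S, (if p w then al w else ga w) ∧
      z0 + ∑ w ∈ S, (if p w then al w else ga w) ≤ m - 1 := by
  have h1 := h.gap (S.filter p) (S.filter fun w => ¬ p w) ((filter_subset _ _).trans hS)
    ((filter_subset _ _).trans hS) (disjoint_filter_filter_not _ _ _)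
    (by rw [card_filter_add_card_filter_not]; exact hc)
  rw [Finset.sum_ite]
  rw [add_assoc] at h1
  exact h1

private theorem eh_max {c : V → V → ZMod m} {u x : V} {z0 : ℤ} {al ga : V → ℤ}
    (h : PLift c u x z0 al ga) {S : Finset V} (hS : S ⊆ XX u x) (hc : S.card + 1 = m) :
    z0 + ∑ w ∈ S, max (al w) (ga w) ≤ m - 1 := by
  have h1 := (eh_sides h hS hc (fun w => ga w ≤ al w)).2
  have h2 : ∀ w ∈ S, (if ga w ≤ al w then al w else ga w) = max (al w) (ga w) := by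
    intro w _
    split_ifs with h3
    · exact (max_eq_left h3).symm
    · exact (max_eq_right (le_of_not_ge h3)).symm
  rwa [sum_congr rfl h2] at h1

private theorem eh_min {c : V → V → ZMod m} {u x : V} {z0 : ℤ} {al ga : V → ℤ}
    (h : PLift c u x z0 al ga) {S : Finset V} (hS : S ⊆ XX u x) (hc : S.card + 1 = m) :
    1 ≤ z0 + ∑ w ∈ S, min (al w) (ga w) := by
  have h1 := (eh_sides h hS hc (fun w => al w ≤ ga w)).1
  have h2 : ∀ w ∈ S, (if al w ≤ ga w then al w else ga w) = min (al w) (ga w) := by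
    intro w _
    split_ifs with h3
    · exact (min_eq_left h3).symm
    · exact (min_eq_right (le_of_not_ge h3)).symm
  rwa [sum_congr rfl h2] at h1

/-- own switches are counted by the lift. -/
private theorem eh_dd {c : V → V → ZMod m} {u v : V} (g : (ZMod m)ˣ) (β : ZMod m) {z0 : ℤ}
    {al ga : V → ℤ} (hP : PLift (fun x y => (g : ZMod m) * c x y - β) u v z0 al ga) :
    G.DD c u v ⊥ ≤ ((XX u v).filter (fun w => al w ≠ ga w)).card := by
  have hgg : ((g⁻¹ : (ZMod m)ˣ) : ZMod m) * (g : ZMod m) = 1 := by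
    rw [← Units.val_mul, inv_mul_cancel, Units.val_one]
  unfold G.DD G.Dn
  apply card_le_card
  intro w hw
  replace hw : w ∈ G.XX u v ∧ c u w - c v w ∉ (⊥ : AddSubgroup (ZMod m)) := by
    classical
    exact mem_filter.1 hw
  rw [mem_filter]
  refine ⟨hw.1, fun h5 => hw.2 ?_⟩
  rw [AddSubgroup.mem_bot]
  have hwX := mem_XX.1 hw.1
  have h6 := hP.hu w hwX.1 hwX.2
  have h7 := hP.hx w hwX.1 hwX.2
  rw [h5, h7] at h6
  have h8 : (g : ZMod m) * c v w = (g : ZMod m) * c u w := by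
    have h9 : (g : ZMod m) * c v w - β = (g : ZMod m) * c u w - β := h6
    exact sub_left_injective h9
  have h10 : ((g⁻¹ : (ZMod m)ˣ) : ZMod m) * ((g : ZMod m) * c v w) =
      ((g⁻¹ : (ZMod m)ˣ) : ZMod m) * ((g : ZMod m) * c u w) := by rw [h8]
  rw [← mul_assoc, ← mul_assoc, hgg, one_mul, one_mul] at h10
  rw [h10, sub_self]

theorem no_hh [NeZero m] {c : V → V → ZMod m} {s I : ℕ} {K : AddSubgroup (ZMod m)}
    (h : StE c s I K) {v v' w w' : V} (hv : Hvy c v v') (hw : Hvy c w w') (h1 : w ≠ v)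
    (h2 : w ≠ v') (g : (ZMod m)ˣ) (β : ZMod m) {z0 : ℤ} {al ga : V → ℤ}
    (hP : PLift (fun x y => (g : ZMod m) * c x y - β) v w z0 al ga)
    (hD : m < 2 * G.DD c v w ⊥) : False := by
  have hSt : St c s I := h.toSt
  obtain ⟨k, hk1, hk2, hk4⟩ := s_even h
  have hV : 5 ≤ Fintype.card V := by
    rw [hSt.card]
    omega
  have hvw' : v ≠ w' := by
    rintro rfl
    exact h2 (hvy_uniq hV (hvy_symm hSt.sym hw) hv)
  obtain ⟨P, r, hv1, hv2⟩ := hv
  obtain ⟨P', r', hw1, hw2⟩ := hw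
  have hPP : P = P' := G.eq_of_card P P' (by omega)
  subst hPP
  have e1 : ∀ z, z ≠ v → z ≠ v' → c v z - r ∈ P :=
    fun z hz hz' => (G.hv2 c hv1 hv2 z (G.mem_XX.2 ⟨hz, hz'⟩)).1
  have e2 : ∀ z, z ≠ w → z ≠ w' → c w z - r' ∈ P :=
    fun z hz hz' => (G.hv2 c hw1 hw2 z (G.mem_XX.2 ⟨hz, hz'⟩)).1
  have e3 : r - r' ∈ P := by
    have h5 := e1 w h1 h2
    have h6 := e2 v h1.symm hvw'
    rw [hSt.sym w v] at h6
    have h7 := P.sub_mem h6 h5
    have h8 : c v w - r' - (c v w - r) = r - r' := by abel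
    rwa [h8] at h7
  have hgg : (g : ZMod m) * ((g⁻¹ : (ZMod m)ˣ) : ZMod m) = 1 := by
    rw [← Units.val_mul, mul_inv_cancel, Units.val_one]
  have heven : ∀ z, z ≠ v → z ≠ w → z ≠ v' → z ≠ w' → 2 ∣ al z - ga z := by
    intro z hz1 hz2 hz3 hz4
    refine par hv2 g⁻¹ ?_
    have h5 : (((al z - ga z : ℤ)) : ZMod m) * ((g⁻¹ : (ZMod m)ˣ) : ZMod m) =
        (c v z - r) - (c w z - r') + (r - r') := by
      push_cast
      rw [hP.hu z hz1 hz2, hP.hx z hz1 hz2]
      calc ((g : ZMod m) * c v z - β - ((g : ZMod m) * c w z - β)) * ((g⁻¹ : (ZMod m)ˣ) : ZMod m) =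
          ((g : ZMod m) * ((g⁻¹ : (ZMod m)ˣ) : ZMod m)) * (c v z - c w z) := by ring
        _ = (c v z - r) - (c w z - r') + (r - r') := by
          rw [hgg]
          ring
    rw [h5]
    exact P.add_mem (P.sub_mem (e1 z hz1 hz3) (e2 z hz2 hz4)) e3
  have hX : (XX v w).card + 2 = m + s := by
    rw [← hSt.card]
    exact card_XX hP.ne
  have hD2 := eh_dd g β hP
  obtain ⟨S0, hS0, hS0c⟩ := exists_subset_card_eq
    (s := (XX v w).filter (fun z => al z ≠ ga z)) (n := 3 * k + 2) (by omega)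
  obtain ⟨S, hS0S, hSX, hSc⟩ := exists_subsuperset_card_eq (hS0.trans (filter_subset _ _))
    (n := m - 1) (by omega) (by omega)
  have hmx := eh_max hP hSX (by omega)
  have hmn := eh_min hP hSX (by omega)
  have f1 : ∑ z ∈ S, |al z - ga z| = ∑ z ∈ S, max (al z) (ga z) - ∑ z ∈ S, min (al z) (ga z) := by
    rw [← sum_sub_distrib]
    refine sum_congr rfl fun z _ => ?_
    rw [max_sub_min_eq_abs, abs_sub_comm]
  have f2 : ∑ z ∈ S0, |al z - ga z| ≤ ∑ z ∈ S, |al z - ga z| :=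
    sum_le_sum_of_subset_of_nonneg hS0S fun z _ _ => abs_nonneg _
  have f3 : ∑ z ∈ S0, (2 - (if z = v' then 1 else 0) - (if z = w' then 1 else 0) : ℤ) ≤
      ∑ z ∈ S0, |al z - ga z| := by
    refine sum_le_sum fun z hz => ?_
    obtain ⟨hzX, hzne⟩ := mem_filter.1 (hS0 hz)
    obtain ⟨hz1, hz2⟩ := mem_XX.1 hzX
    have hpos : 1 ≤ |al z - ga z| := Int.one_le_abs (sub_ne_zero.2 hzne)
    by_cases h5 : z = v'
    · rw [if_pos h5]
      split_ifs <;> omega
    · by_cases h6 : z = w'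
      · rw [if_neg h5, if_pos h6]
        omega
      · rw [if_neg h5, if_neg h6]
        obtain ⟨d, hd⟩ := heven z hz1 hz2 h5 h6
        rw [hd] at hpos ⊢
        rcases abs_cases (2 * d) with ⟨h7, _⟩ | ⟨h7, _⟩ <;> rw [h7] at hpos ⊢ <;> omega
  rw [sum_sub_distrib, sum_sub_distrib, sum_const, hS0c, sum_ite_eq', sum_ite_eq', nsmul_eq_mul]
    at f3
  have f4 : (if v' ∈ S0 then (1 : ℤ) else 0) ≤ 1 := by split_ifs <;> omega
  have f5 : (if w' ∈ S0 then (1 : ℤ) else 0) ≤ 1 := by split_ifs <;> omega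
  have hmz : (m : ℤ) = 2 * (3 * k + 1) := by exact_mod_cast hk2
  push_cast at f3
  linarith

end X2
end ZS44129
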