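import Mathlib
import Pool.Agent.Work.MP_44129c_co.X2.EDefs
import Pool.Agent.Work.MP_44129c_co.N.C34
import Pool.Agent.Work.MP_44129c_co.G.TightW

/-!
# MP_44129c_co/X2, EMix (size M): no lift with two colours of difference `m / 2`

`p`, `v`; `x, x'` two further vertices with `c p x - c p x' ∈ K`, `c p x ≠ c p x'` (`|K| = 2`, so the difference is `m / 2`).  Suppose `(p, v)` has a lift for
`c' = g c - β` and `m < 2 DD c p v K`.
PROOF.  (1) `m ≤ 2 |al x - al x'|`: `(al x - al x' : ZMod m) = g (c p x - c p x')` is in `K` and not `0`; `2 (al x - al x') = 0` in `ZMod m` (`G.mem_iff`, `|K| = 2`), so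
`m ∣ 2 (al x - al x')`, and `al x ≠ al x'`.
(2) `X = XX p v`, `|X| = 4 s`, `D = #{al ≠ ga} ≥ DD c p v ⊥ ≥ DD c p v K` (`G.dd_anti`; end of O1/GpDD), `2 D ≥ m + 1`, so `2 D ≥ m + 2 = 3 s + 4` (`m` even, `s_even`).
`c3` (N/C34) applies: `m < 2 s + D`.
* First alternative, `θ`: `q w = max (max (al w) (ga w) - θ) 0 + max (θ - min (al w) (ga w)) 0`, `∑_X q + 2 ≤ m`.
  `2 q w ≥ [al w ≠ ga w] + [al w ≠ θ] + [ga w ≠ θ]` for every `w` (`c3d_q` in O1/C3D: copy) and `2 (q x + q x') ≥ 2 |al x - al x'| ≥ m`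
  (`q w ≥ |al w - θ|`).  `#{al ≠ θ} ≥ 4 s - (2 s + 1 + I)` (`c3d_cnt`, `st_affine`), the same for `ga`.  Sum over `X`, with `x, x'` separately:
  `2 (m - 2) ≥ m + (D - 2) + 2 (2 s - 1 - I - 2)`, i.e. `D + s ≤ 6 + 2 I`: contradiction (`2 D ≥ 3 s + 4`, `3 I + 2 ≤ s`, `s ≥ 8`).
* Second alternative, `θ`: `∑_X cost + s + 1 ≤ m`; `cost ≥ 0`, `cost w ≥ 1` if `al w ≠ ga w` (`c3d_cost`), `cost x + cost x' ≥ |al x - al x'| - 1`
  (say `al x > al x'`: `cost x ≥ al x - θ`, `cost x' ≥ θ - 1 - al x'`).  So `2 (m - s - 1) ≥ m - 2 + 2 (D - 2) ≥ m - 2 + m - 2`: `s ≤ 1`, a contradiction.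
-/

set_option autoImplicit false

namespace ZS44129
namespace X2

open Finset E N X1

variable {V : Type} [Fintype V] [DecidableEq V] {m : ℕ}

private theorem em_cost (θ a b : ℤ) : (if a ≠ b then 1 else 0) ≤ cost θ a b := by
  unfold cost
  split_ifs <;> omega

private theorem em_cost2 (θ a b a' b' : ℤ) : |a - a'| ≤ cost θ a b + cost θ a' b' + 1 := by
  unfold cost
  rw [abs_le]
  constructor <;> split_ifs <;> omega

private theorem em_q (θ a b : ℤ) : (if a ≠ b then 1 else 0) + (if a ≠ θ then 1 else 0) +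
    (if b ≠ θ then 1 else 0) ≤ 2 * (max (max a b - θ) 0 + max (θ - min a b) 0) := by
  split_ifs <;> omega

private theorem em_q2 (θ a b a' b' : ℤ) : |a - a'| ≤
    (max (max a b - θ) 0 + max (θ - min a b) 0) + (max (max a' b' - θ) 0 + max (θ - min a' b') 0) := by
  rw [abs_le]
  constructor <;> omega

private theorem em_cnt {c : V → V → ZMod m} {u x v : V} (hv : v = u ∨ v = x) {al : V → ℤ}
    (hal : ∀ w, w ≠ u → w ≠ x → (al w : ZMod m) = c v w) (θ : ℤ) {s d : ℕ}
    (hX : (XX u x).card + 2 = m + s) (hd : ∀ a, (cla c v a).card ≤ d) :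
    m + s ≤ ((XX u x).filter (fun w => al w ≠ θ)).card + d + 2 := by
  have h1 := card_filter_add_card_filter_not (s := XX u x) (fun w => al w = θ)
  have h2 : ((XX u x).filter (fun w => al w = θ)).card ≤ d := by
    refine le_trans (card_le_card ?_) (hd (θ : ZMod m))
    intro w hw
    obtain ⟨h3, h4⟩ := mem_filter.1 hw
    obtain ⟨h5, h6⟩ := mem_XX.1 h3
    unfold cla
    rw [mem_filter, mem_erase, ← hal w h5 h6, h4]
    refine ⟨⟨?_, mem_univ w⟩, rfl⟩
    rcases hv with rfl | rfl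
    · exact h5
    · exact h6
  simp only [ne_eq] at *
  omega

/-- own switches are counted by the lift. -/
private theorem em_dd {c : V → V → ZMod m} {u v : V} (g : (ZMod m)ˣ) (β : ZMod m) {z0 : ℤ}
    {al ga : V → ℤ} (hP : PLift (fun x y => (g : ZMod m) * c x y - β) u v z0 al ga) :
    G.DD c u v ⊥ ≤ ((XX u v).filter (fun w => al w ≠ ga w)).card := by
  have hgg : ((g⁻¹ : (ZMod m)ˣ) : ZMod m) * (g : ZMod m) = 1 := by
    rw [← Units.val_mul, inv_mul_cancel, Units.val_one]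
  unfold G.DD G.Dn
  apply card_le_card
  intro w hw
  replace hw : w ∈ G.XX u v ∧ c u w - c v w ∉ (⊥ : AddSubgroup (ZMod m)) := by
    classical
    exact mem_filter.1 hw
  rw [mem_filter]
  refine ⟨hw.1, fun h5 => hw.2 ?_⟩
  rw [AddSubgroup.mem_bot]
  have hwX := mem_XX.1 hw.1
  have h6 := hP.hu w hwX.1 hwX.2
  have h7 := hP.hx w hwX.1 hwX.2
  rw [h5, h7] at h6
  have h8 : (g : ZMod m) * c v w = (g : ZMod m) * c u w := by
    have h9 : (g : ZMod m) * c v w - β = (g : ZMod m) * c u w - β := h6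
    exact sub_left_injective h9
  have h10 : ((g⁻¹ : (ZMod m)ˣ) : ZMod m) * ((g : ZMod m) * c v w) =
      ((g⁻¹ : (ZMod m)ˣ) : ZMod m) * ((g : ZMod m) * c u w) := by rw [h8]
  rw [← mul_assoc, ← mul_assoc, hgg, one_mul, one_mul] at h10
  rw [h10, sub_self]

theorem no_mix [NeZero m] {c : V → V → ZMod m} {s I : ℕ} {K : AddSubgroup (ZMod m)}
    (h : StE c s I K) {p v x x' : V} (hx : x ≠ p) (hx' : x' ≠ p) (hxv : x ≠ v) (hxv' : x' ≠ v)
    (hK : c p x - c p x' ∈ K) (hne : c p x ≠ c p x') (g : (ZMod m)ˣ) (β : ZMod m) {z0 : ℤ}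
    {al ga : V → ℤ} (hP : PLift (fun x y => (g : ZMod m) * c x y - β) p v z0 al ga)
    (hD : m < 2 * G.DD c p v K) : False := by
  have hSt : St c s I := h.toSt
  obtain ⟨k, hk1, hk2, hk4⟩ := s_even h
  have h3I := three_I hSt
  have hgg : ((g⁻¹ : (ZMod m)ˣ) : ZMod m) * (g : ZMod m) = 1 := by
    rw [← Units.val_mul, inv_mul_cancel, Units.val_one]
  have hX : (XX p v).card + 2 = m + s := by
    rw [← hSt.card]
    exact card_XX hP.ne
  have hxx : x ≠ x' := fun h0 => hne (by rw [h0])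
  -- (1)
  have hdiff : (((al x - al x' : ℤ)) : ZMod m) = (g : ZMod m) * (c p x - c p x') := by
    push_cast
    rw [hP.hu x hx hxv, hP.hu x' hx' hxv']
    ring
  have h2 : (((2 * (al x - al x') : ℤ)) : ZMod m) = 0 := by
    rw [G.mem_iff, h.k2, nsmul_eq_mul] at hK
    rw [Int.cast_mul, hdiff]
    have e : ((2 : ℤ) : ZMod m) * ((g : ZMod m) * (c p x - c p x')) =
        (g : ZMod m) * (((2 : ℕ) : ZMod m) * (c p x - c p x')) := by
      push_cast
      ring
    rw [e, hK, mul_zero]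
  rw [ZMod.intCast_zmod_eq_zero_iff_dvd] at h2
  have hal : al x - al x' ≠ 0 := by
    intro h0
    rw [h0, Int.cast_zero] at hdiff
    have h4 : ((g⁻¹ : (ZMod m)ˣ) : ZMod m) * ((g : ZMod m) * (c p x - c p x')) = 0 := by
      rw [← hdiff, mul_zero]
    rw [← mul_assoc, hgg, one_mul, sub_eq_zero] at h4
    exact hne h4
  have habs : (m : ℤ) ≤ 2 * |al x - al x'| := by
    have h5 := Int.le_of_dvd (abs_pos.2 (mul_ne_zero two_ne_zero hal)) ((dvd_abs _ _).2 h2)
    rwa [abs_mul, abs_two] at h5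
  -- (2)
  have hD1 := G.dd_anti c p v (bot_le (a := K))
  have hD2 := em_dd g β hP
  have hDs : (((XX p v).filter (fun w => al w ≠ ga w)).card : ℤ) =
      ∑ w ∈ XX p v, (if al w ≠ ga w then 1 else 0) := by
    rw [card_filter]
    push_cast
    rfl
  have hxX : x ∈ XX p v := mem_XX.2 ⟨hx, hxv⟩
  have hxX' : x' ∈ XX p v := mem_XX.2 ⟨hx', hxv'⟩
  have hpair : ({x, x'} : Finset V) ⊆ XX p v := by
    intro y hy
    rw [mem_insert, mem_singleton] at hy
    rcases hy with rfl | rfl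
    · exact hxX
    · exact hxX'
  set D := ((XX p v).filter (fun w => al w ≠ ga w)).card with hDdef
  have hDk : 3 * k + 2 ≤ D := by omega
  have hc3 := c3 hP (s := s) hSt.card (by omega) (by omega) (by omega)
  have hmz : (m : ℤ) = 2 * (3 * k + 1) := by exact_mod_cast hk2
  have hsz : (s : ℤ) = 2 * k := by exact_mod_cast hk1
  have hDz : (3 * k + 2 : ℤ) ≤ D := by exact_mod_cast hDk
  rcases hc3 with ⟨θ, hq, -, -⟩ | ⟨θ, hq, -, -⟩
  · have hSt' := st_affine hSt g β
    have e1 := em_cnt (Or.inl rfl) hP.hu θ hX (hSt'.cl p)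
    have e2 := em_cnt (Or.inr rfl) hP.hx θ hX (hSt'.cl v)
    have e3 : (((XX p v).filter (fun w => al w ≠ θ)).card : ℤ) =
        ∑ w ∈ XX p v, (if al w ≠ θ then 1 else 0) := by
      rw [card_filter]
      push_cast
      rfl
    have e4 : (((XX p v).filter (fun w => ga w ≠ θ)).card : ℤ) =
        ∑ w ∈ XX p v, (if ga w ≠ θ then 1 else 0) := by
      rw [card_filter]
      push_cast
      rfl
    have e5 := sum_le_sum_of_subset_of_nonneg (s := {x, x'}) (t := XX p v)
      (f := fun w => 2 * (max (max (al w) (ga w) - θ) 0 + max (θ - min (al w) (ga w)) 0) -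
        ((if al w ≠ ga w then 1 else 0) + (if al w ≠ θ then 1 else 0) +
          (if ga w ≠ θ then 1 else 0))) hpair (fun w _ _ => by
        have := em_q θ (al w) (ga w)
        linarith)
    rw [sum_pair hxx, sum_sub_distrib, sum_add_distrib, sum_add_distrib, ← mul_sum, ← hDs, ← e3,
      ← e4] at e5
    have e6 := em_q2 θ (al x) (ga x) (al x') (ga x')
    have e7 : ∀ w : V, ((if al w ≠ ga w then 1 else 0) + (if al w ≠ θ then 1 else 0) +
        (if ga w ≠ θ then 1 else 0) : ℤ) ≤ 3 := by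
      intro w
      split_ifs <;> omega
    have e8 := e7 x
    have e9 := e7 x'
    zify at e1 e2 h3I
    linarith
  · have e5 := sum_le_sum_of_subset_of_nonneg (s := {x, x'}) (t := XX p v)
      (f := fun w => cost θ (al w) (ga w) - (if al w ≠ ga w then 1 else 0)) hpair
      (fun w _ _ => by
        have := em_cost θ (al w) (ga w)
        linarith)
    rw [sum_pair hxx, sum_sub_distrib, ← hDs] at e5
    have e6 := em_cost2 θ (al x) (ga x) (al x') (ga x')
    have e7 : ∀ w : V, ((if al w ≠ ga w then 1 else 0) : ℤ) ≤ 1 := by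
      intro w
      split_ifs <;> omega
    have e8 := e7 x
    have e9 := e7 x'
    have hk4' : (4 : ℤ) ≤ k := by exact_mod_cast hk4
    linarith

end X2
end ZS44129
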