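import Mathlib
import Pool.Agent.Work.MP_44129c_co.X2.EDefs

/-!
# MP_44129c_co/X2, ENoFr (size M): a heavy vertex has no frame (except for its partner)

`u'` = the partner of `u`, `F : Fr … u v …`, `v ≠ u'`.
PROOF.  `Hvy c u u'`: `P`, `r`, `2 |P| = m`, `c u z - r ∈ P` for all `z ≠ u, u'` (`G.hv2`).  `Y = (XX u v).erase u'`.  For `z, z' ∈ Y`:
`(a z - a z') g = c u z - c u z' ∈ P`, so `a z - a z'` is even (`par`).  `fr_facts`: `#{z ∈ XX u v : a z = 0} = 4 s - #{a ≠ 0} ≥ 2 s + 1 - I + ex ≥ 2`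
(`|XX u v| = 4 s`: `G.card_XX`, `h.card`, `h.m3`), so some `z ∈ Y` has `a z = 0`, and all `a z`, `z ∈ Y`, are even.  At least `(2 s - 1 - I) - 1` elements of `Y`
(`na`) have `a z ≠ 0`, so `|a z| ≥ 2`, so `2 s - 2 - I ≤ ∑ max (|a z| - 1) 0 ≤ ex ≤ 2 I`.  But `3 I + 2 ≤ s` (`three_I`).  Contradiction.
-/

set_option autoImplicit false

namespace ZS44129
namespace X2

open Finset E N X1

variable {V : Type} [Fintype V] [DecidableEq V] {m : ℕ}

theorem no_fr [NeZero m] {c : V → V → ZMod m} {s I : ℕ} (h : St c s I) {u u' v : V}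
    (hH : Hvy c u u') (hv : v ≠ u') {g : (ZMod m)ˣ} {θ : ZMod m} {ζ : ℤ} {a : V → ℤ}
    {P Q ex : ℤ} (F : Fr c s I u v g θ ζ a P Q ex) : False := by
  obtain ⟨f1, f2, f3, f4, f5, f6, f7, f8⟩ := fr_facts h F
  have h3I := three_I h
  have hs5 := h.s5
  have hm3 := h.m3
  have hX : (XX u v).card + 2 = m + s := by
    rw [card_XX F.ne, h.card]
  have hna := F.na
  obtain ⟨P0, r, hHv, hP0⟩ := hH
  have hv2 := G.hv2 c hHv hP0
  -- the zeros
  have hsplit := Finset.card_filter_add_card_filter_not (s := XX u v) (fun z => a z ≠ 0)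
  have hz2 : 2 ≤ ((XX u v).filter (fun z => ¬ a z ≠ 0)).card := by
    by_contra hcon
    have h1 : ((XX u v).filter (fun z => ¬ a z ≠ 0)).card ≤ 1 := by omega
    have h2 : ((((XX u v).filter (fun z => a z ≠ 0)).card : ℕ) : ℤ) +
        (((XX u v).filter (fun z => ¬ a z ≠ 0)).card : ℕ) = ((XX u v).card : ℕ) := by
      exact_mod_cast hsplit
    have h3 : (((XX u v).card : ℕ) : ℤ) + 2 = m + s := by exact_mod_cast hX
    omega
  have hne : 0 < (((XX u v).filter (fun z => ¬ a z ≠ 0)).erase u').card := by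
    have h1 := Finset.pred_card_le_card_erase (s := (XX u v).filter (fun z => ¬ a z ≠ 0)) (a := u')
    omega
  obtain ⟨z0, hz0⟩ := Finset.card_pos.1 hne
  obtain ⟨hz0u, hz0f⟩ := Finset.mem_erase.1 hz0
  obtain ⟨hz0X, hz0a⟩ := Finset.mem_filter.1 hz0f
  rw [not_not] at hz0a
  have hpar : ∀ z ∈ XX u v, z ≠ u' → (2 : ℤ) ∣ a z := by
    intro z hz hzu
    apply par hP0 g
    have h1 := (hv2 z (mem_XX.2 ⟨(mem_XX.1 hz).1, hzu⟩)).1
    have h2 := (hv2 z0 (mem_XX.2 ⟨(mem_XX.1 hz0X).1, hz0u⟩)).1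
    have h3 := P0.sub_mem h1 h2
    have h4 : (a z : ZMod m) * (g : ZMod m) = c u z - r - (c u z0 - r) := by
      rw [F.col z hz, F.col z0 hz0X, hz0a]
      push_cast
      ring
    rw [h4]
    exact h3
  have hsum : (((((XX u v).filter (fun z => a z ≠ 0)).erase u').card : ℕ) : ℤ) ≤
      ∑ z ∈ XX u v, max (|a z| - 1) 0 := by
    have h1 := Finset.card_nsmul_le_sum (((XX u v).filter (fun z => a z ≠ 0)).erase u')
      (fun z => max (|a z| - 1) 0) 1 (fun z hz => by
        obtain ⟨h2, h3⟩ := Finset.mem_erase.1 hz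
        obtain ⟨h4, h5⟩ := Finset.mem_filter.1 h3
        obtain ⟨k, hk⟩ := hpar z h4 h2
        refine le_max_of_le_left ?_
        have h6 : k ≠ 0 := by
          rintro rfl
          exact h5 (by rw [hk, mul_zero])
        have h7 : 1 ≤ |k| := Int.one_le_abs h6
        rw [hk, abs_mul]
        norm_num
        linarith)
    have h2 := Finset.sum_le_sum_of_subset_of_nonneg
      (Finset.erase_subset u' ((XX u v).filter (fun z => a z ≠ 0)) |>.trans
        (Finset.filter_subset _ _)) (fun z _ _ => le_max_right (|a z| - 1) 0)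
    rw [nsmul_eq_mul, mul_one] at h1
    exact h1.trans h2
  have hsex := F.sex
  have hc := Finset.pred_card_le_card_erase (s := (XX u v).filter (fun z => a z ≠ 0)) (a := u')
  omega

end X2
end ZS44129
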