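import Mathlib
import Pool.Agent.Work.MP_44129c_co.X2.EDefs

/-!
# MP_44129c_co/X2, ESum (size S-M): the sum of all `DD c u v K` over `v`

PROOF.  As `O1.sum_dd` (O1/Sum; there `K = ⊥`): exchange the sums: `∑_{v ≠ u} #{z ≠ u, v : c u z - c v z ∉ K} = ∑_{z ≠ u} #{v ≠ u, z : c u z - c v z ∉ K}`,
and for `z ≠ u` the number of `v ≠ u, z` with `c z v - c z u ∉ K` is `n - |cls c z K (c z u)|` (`n = |V| - 1` vertices `v ≠ z`; those with
`c z v - c z u ∈ K` are the class, which contains `u`).
-/

set_option autoImplicit false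

namespace ZS44129
namespace X2

open Finset E N X1

variable {V : Type} [Fintype V] [DecidableEq V] {m : ℕ}

open Classical in
private theorem es_dd_eq (c : V → V → ZMod m) (K : AddSubgroup (ZMod m)) (u v : V) :
    G.DD c u v K = ∑ z ∈ (univ.erase u).erase v, (if c u z - c v z ∈ K then 0 else 1) := by
  unfold G.DD G.Dn G.XX
  rw [Finset.card_filter]
  refine Finset.sum_congr rfl fun z _ => ?_
  by_cases h : c u z - c v z ∈ K
  · rw [if_pos h, if_neg (not_not.2 h)]
  · rw [if_neg h, if_pos h]

open Classical in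
private theorem es_cls_eq (c : V → V → ZMod m) (hsym : ∀ x y, c x y = c y x)
    (K : AddSubgroup (ZMod m)) {u z : V} (hz : z ≠ u) :
    ∑ v ∈ (univ.erase u).erase z, (if c u z - c v z ∈ K then 0 else 1) +
      (G.cls c z K (c z u)).card = Fintype.card V - 1 := by
  have h1 : G.cls c z K (c z u) =
      insert u (((univ.erase u).erase z).filter (fun v => c u z - c v z ∈ K)) := by
    ext v
    rw [G.mem_cls, Finset.mem_insert, Finset.mem_filter, Finset.mem_erase, Finset.mem_erase]
    constructor
    · rintro ⟨a, b⟩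
      by_cases h : v = u
      · exact Or.inl h
      · refine Or.inr ⟨⟨a, h, Finset.mem_univ _⟩, ?_⟩
        rw [hsym u z, hsym v z, ← neg_sub]
        exact K.neg_mem b
    · rintro (a | ⟨⟨a, -, -⟩, b⟩)
      · rw [a, sub_self]
        exact ⟨hz.symm, K.zero_mem⟩
      · refine ⟨a, ?_⟩
        rw [hsym z v, hsym z u, ← neg_sub]
        exact K.neg_mem b
  have h2 : u ∉ ((univ.erase u).erase z).filter (fun v => c u z - c v z ∈ K) := by
    intro h
    exact Finset.notMem_erase u _ (Finset.mem_of_mem_erase (Finset.mem_filter.1 h).1)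
  have h3 : ∑ v ∈ (univ.erase u).erase z, (if c u z - c v z ∈ K then 0 else 1) =
      (((univ.erase u).erase z).filter (fun v => ¬ c u z - c v z ∈ K)).card := by
    rw [Finset.card_filter]
    refine Finset.sum_congr rfl fun v _ => ?_
    by_cases h : c u z - c v z ∈ K
    · rw [if_pos h, if_neg (not_not.2 h)]
    · rw [if_neg h, if_pos h]
  have h4 := Finset.card_filter_add_card_filter_not (s := (univ.erase u).erase z)
    (fun v => c u z - c v z ∈ K)
  have h5 : ((univ.erase u).erase z).card + 1 = Fintype.card V - 1 := by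
    rw [Finset.card_erase_add_one (Finset.mem_erase.2 ⟨hz, Finset.mem_univ _⟩),
      Finset.card_erase_of_mem (Finset.mem_univ _), Finset.card_univ]
  rw [h1, Finset.card_insert_of_notMem h2, h3]
  omega

theorem sum_ddK (c : V → V → ZMod m) (hsym : ∀ x y, c x y = c y x) (K : AddSubgroup (ZMod m))
    (u : V) :
    ∑ v ∈ univ.erase u, G.DD c u v K + ∑ z ∈ univ.erase u, (G.cls c z K (c z u)).card =
      (Fintype.card V - 1) * (Fintype.card V - 1) := by
  classical
  have h1 : ∑ v ∈ univ.erase u, G.DD c u v K =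
      ∑ z ∈ univ.erase u, ∑ v ∈ (univ.erase u).erase z, (if c u z - c v z ∈ K then 0 else 1) := by
    rw [Finset.sum_congr rfl (fun v _ => es_dd_eq c K u v)]
    refine Finset.sum_comm' ?_
    intro v z
    simp only [Finset.mem_erase, Finset.mem_univ, and_true]
    constructor
    · rintro ⟨a, b, d⟩
      exact ⟨⟨fun e => b e.symm, a⟩, d⟩
    · rintro ⟨⟨a, b⟩, d⟩
      exact ⟨b, fun e => a e.symm, d⟩
  rw [h1, ← Finset.sum_add_distrib,
    Finset.sum_congr rfl (fun z hz => es_cls_eq c hsym K (Finset.mem_erase.1 hz).1), Finset.sum_const,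
    Finset.card_erase_of_mem (Finset.mem_univ _), Finset.card_univ, smul_eq_mul]

end X2
end ZS44129
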