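import Mathlib
import Pool.Agent.Work.MP_44129c_co.X2.EDefs
import Pool.Agent.Work.MP_44129c_co.G.LemQ
import Pool.Agent.Work.MP_44129c_co.G.Pair
import Pool.Agent.Work.MP_44129c_co.G.TightW
import Pool.Agent.Work.MP_44129c_co.O1.GpDD

/-!
# MP_44129c_co/X2, EWide (size M): even `m`: a wide pair is good or heavy of index 2

`m = 3 s + 2`, `s` even, `s ≥ 8` (`s_even`); `3 ∤ m`; `m ≠ 20` (`s ≠ 6`), `m ≠ 16`.
PROOF (see O1/Wide for the odd case).  `Wd c 2 u v`: `m < 2 DD K ≤ 2 DD ⊥` (`G.dd_anti`); a subgroup `L ≠ ⊥` with `|L| ≤ 2` has order `2`, so `L = K`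
(`G.eq_of_card`), and `(DD K + 1) 2 ≥ m`.  `hj` of `G.pair_thmP` (`κ = 2`): `|L| ≥ 3`, `|L| ∣ m`, `3 ∤ m`, so `|L| ≥ 4` and `4 s ≥ 3 s + 2`.
So `GP c u v`, or `Hv c 2 u v P r` with `h = |P| ≥ 3`, `m = h j`, `Out + 2 ≤ j`, and `s + 1 ≤ h + Out` (`G.lemQ`), so `s + 3 ≤ h + j`, and
`(h - 3) (j - 3) = m - 3 (h + j) + 9 ≤ 2`.  `h, j ≠ 3` (`3 ∤ m`), `h ≥ 4`, `j ≥ 2`.  If `j ≥ 4`: `(h, j)` is `(4, 4)`, `(4, 5)` or `(5, 4)`: `m = 16` or `20`:
contradiction.  So `j = 2`: `2 |P| = m`.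
`plift_or`: `O1.gp_lift`.
-/

set_option autoImplicit false

namespace ZS44129
namespace X2

open Finset E N X1

variable {V : Type} [Fintype V] [DecidableEq V] {m : ℕ}

theorem wideE [NeZero m] {c : V → V → ZMod m} {s I : ℕ} {K : AddSubgroup (ZMod m)}
    (h : StE c s I K) {u v : V} (huv : u ≠ v) (hD : m < 2 * G.DD c u v K) :
    G.GP c u v ∨ Hvy c u v := by
  obtain ⟨k, hk1, hk2, hk3⟩ := s_even h
  have hm3 := h.m3
  have hanti : G.DD c u v K ≤ G.DD c u v ⊥ := G.dd_anti c u v bot_le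
  have hdv : ∀ L : AddSubgroup (ZMod m), Nat.card L ∣ m := by
    intro L
    have h1 := AddSubgroup.card_addSubgroup_dvd_card L
    rwa [Nat.card_zmod] at h1
  have hW : G.Wd c 2 u v := by
    refine ⟨huv, by omega, fun L hL hc => ?_⟩
    have h1 : 1 < Nat.card L := (AddSubgroup.one_lt_card_iff_ne_bot L).2 hL
    have h2 : Nat.card L = 2 := by omega
    have h3 : L = K := G.eq_of_card L K (by rw [h2, h.k2])
    rw [h2, h3]
    omega
  have hj : ∀ L : AddSubgroup (ZMod m), 2 < Nat.card L → m ≤ s * Nat.card L := by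
    intro L hL
    have hdvd := hdv L
    rcases Nat.lt_or_ge (Nat.card L) 4 with h4 | h4
    · have h6 : Nat.card L = 3 := by omega
      rw [h6] at hdvd
      omega
    · calc m ≤ s * 4 := by omega
        _ ≤ s * Nat.card L := Nat.mul_le_mul_left s h4
  rcases G.pair_thmP c h.zsf (Or.inl rfl) h.card hj hW with h1 | ⟨P, r, hP⟩
  · exact Or.inl h1
  · right
    have hq := G.lemQ c h.sym h.zsf h.card (by omega) hP
    have hPP := hP
    obtain ⟨-, hP2, -, hP4⟩ := hPP
    obtain ⟨j, hjm⟩ := hdv P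
    have hpos : 0 < Nat.card P := by omega
    have h7 : G.Out c u v P r + 2 ≤ j := by
      have h8 : Nat.card P * (G.Out c u v P r + 2) ≤ Nat.card P * j := by
        rw [← hjm, mul_comm]
        exact hP4
      exact Nat.le_of_mul_le_mul_left h8 hpos
    rcases Nat.lt_or_ge j 3 with hj3 | hj3
    · have hj2 : j = 2 := by omega
      refine ⟨P, r, hP, ?_⟩
      rw [hj2] at hjm
      omega
    · exfalso
      obtain ⟨a, ha⟩ := Nat.exists_eq_add_of_le (show 3 ≤ Nat.card P by omega)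
      obtain ⟨b, hb⟩ := Nat.exists_eq_add_of_le hj3
      have hmab : m = 9 + 3 * a + 3 * b + a * b := by
        rw [hjm, ha, hb]
        ring
      have hsab : s ≤ 3 + a + b := by omega
      have hab : a * b ≤ 2 := by omega
      have ha1 : 1 ≤ a := by
        rcases Nat.eq_zero_or_pos a with h0 | h0
        · rw [h0, zero_mul] at hmab
          omega
        · exact h0
      have hb1 : 1 ≤ b := by
        rcases Nat.eq_zero_or_pos b with h0 | h0
        · rw [h0, mul_zero] at hmab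
          omega
        · exact h0
      have ha2 : a ≤ a * b := Nat.le_mul_of_pos_right a hb1
      have hb2 : b ≤ a * b := Nat.le_mul_of_pos_left b ha1
      omega

theorem plift_or [NeZero m] {c : V → V → ZMod m} {s I : ℕ} {K : AddSubgroup (ZMod m)}
    (h : StE c s I K) {u v : V} (huv : u ≠ v) (hD : m < 2 * G.DD c u v K) :
    (∃ (g : (ZMod m)ˣ) (β : ZMod m) (z0 : ℤ) (al ga : V → ℤ),
        PLift (fun x y => (g : ZMod m) * c x y - β) u v z0 al ga) ∨ Hvy c u v := by
  rcases wideE h huv hD with h1 | h1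
  · have h2 := h.s5
    exact Or.inl (O1.gp_lift h.zsf (by omega) h.card h1)
  · exact Or.inr h1

end X2
end ZS44129
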