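import Mathlib
import Pool.Agent.Work.MP_44129c_co.X2.Defs
import Pool.Agent.Work.MP_44129c_co.N.C34

/-!
# MP_44129c_co/X2, Pair (size M): a pair with `DD ≥ 2 s + 2` has a frame

`X = XX u v`, `|X| = 4 s` (`G.card_XX`), `m = 3 s + 2`.  `M z = max (al z) (ga z)`, `μ z = min (al z) (ga z)`,
`f z = max (M z - θ) 0`, `e z = max (θ - μ z) 0`.
PROOF.  `D' := #{z ∈ X : al z ≠ ga z} ≥ DD c u v ⊥` (`c u z ≠ c v z` implies `g c u z - β ≠ g c v z - β`; see the end of O1/GpDD).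
`c3` (N/C34; `m < 2 s + D'`): its second alternative is impossible, as `cost θ a b ≥ 1` if `a ≠ b` and `cost ≥ 0` (see `c3d_cost`
in O1/C3D: copy) and `D' ≥ 2 s + 2 > m - s - 1 = 2 s + 1`.  So there is `θ : ℤ` with `∑_X (f + e) + 2 ≤ m`, `#{θ ≤ M} ≥ m - 1`,
`#{μ ≤ θ} ≥ m - 1`.
Put `P = ∑_X f`, `Q = ∑_X e`, `ζ = z0 + (m - 1) θ`, `a z = al z - θ`, unit `g⁻¹`, `θ' = g⁻¹ (β + θ)` (the `θ` of the frame).
* `hi`: `#{M > θ} ≤ P ≤ m - 2` (each contributes `≥ 1`), so there is `S` with `{M > θ} ⊆ S ⊆ {M ≥ θ}`, `|S| = m - 1`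
  (`exists_subsuperset_card_eq`); the double star with the leaves of `S` on the larger side has the sum
  `z0 + ∑_S M = z0 + (m - 1) θ + P ≤ m - 1` (`gap` with `A = S.filter (ga ≤ al)`, `B` = the rest; see `c34_sides`, `c34_max`: copy).
* `lo`: in the same way with `μ`: `z0 + (m - 1) θ - Q ≥ 1`.
* `col`, `cv`: `g c u z - β = al z`, so `c u z = g⁻¹ (β + θ) + (al z - θ) g⁻¹`;
  `c u v = g⁻¹ (β + z0) = g⁻¹ (β + θ) + (z0 - θ) g⁻¹` and `ζ = z0 - θ + m θ`, `(m : ZMod m) = 0`.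
* `sP`: `max (a z) 0 ≤ f z`;  `sQ`: `max (- a z) 0 ≤ e z`.
* For every `z` put `ez = 2 (f z + e z) - [al z ≠ ga z] - [al z ≠ θ] - [ga z ≠ θ] ≥ 0` (`c3d_q`), `ex = ∑_X ez`.  For every `z`:
  `2 |a z| ≤ ez + 3` and `max (|a z| - 1) 0 ≤ ez` (case distinctions; `split_ifs <;> omega` should do).  This gives `one`, `sex`.
* `na`: `#{z ∈ X : al z = θ} ≤ |cla (g c - β) u θ| ≤ 2 s + 1 + I` (`st_affine`; see `c3d_cnt` in O1/C3D), so
  `#{a z ≠ 0} ≥ 4 s - (2 s + 1 + I)`.  In the same way `#{ga z ≠ θ} ≥ 2 s - 1 - I`.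
* `cnt`: `2 (P + Q) = ex + D' + #{al ≠ θ} + #{ga ≠ θ}`.
-/

set_option autoImplicit false

namespace ZS44129
namespace X2

open Finset E N X1

variable {V : Type} [Fintype V] [DecidableEq V] {m : ℕ}

private theorem p_sides {c : V → V → ZMod m} {u x : V} {z0 : ℤ} {al ga : V → ℤ}
    (h : PLift c u x z0 al ga) {S : Finset V} (hS : S ⊆ XX u x) (hc : S.card + 1 = m)
    (p : V → Prop) [DecidablePred p] :
    1 ≤ z0 + ∑ w ∈ S, (if p w then al w else ga w) ∧
      z0 + ∑ w ∈ S, (if p w then al w else ga w) ≤ m - 1 := by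
  have h1 := h.gap (S.filter p) (S.filter fun w => ¬ p w) ((filter_subset _ _).trans hS)
    ((filter_subset _ _).trans hS) (disjoint_filter_filter_not _ _ _)
    (by rw [card_filter_add_card_filter_not]; exact hc)
  rw [Finset.sum_ite]
  rw [add_assoc] at h1
  exact h1

private theorem p_max {c : V → V → ZMod m} {u x : V} {z0 : ℤ} {al ga : V → ℤ}
    (h : PLift c u x z0 al ga) {S : Finset V} (hS : S ⊆ XX u x) (hc : S.card + 1 = m) :
    z0 + ∑ w ∈ S, max (al w) (ga w) ≤ m - 1 := by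
  have h1 := (p_sides h hS hc (fun w => ga w ≤ al w)).2
  have h2 : ∀ w ∈ S, (if ga w ≤ al w then al w else ga w) = max (al w) (ga w) := by
    intro w _
    split_ifs with h3
    · exact (max_eq_left h3).symm
    · exact (max_eq_right (le_of_not_ge h3)).symm
  rwa [sum_congr rfl h2] at h1

private theorem p_min {c : V → V → ZMod m} {u x : V} {z0 : ℤ} {al ga : V → ℤ}
    (h : PLift c u x z0 al ga) {S : Finset V} (hS : S ⊆ XX u x) (hc : S.card + 1 = m) :
    1 ≤ z0 + ∑ w ∈ S, min (al w) (ga w) := by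
  have h1 := (p_sides h hS hc (fun w => al w ≤ ga w)).1
  have h2 : ∀ w ∈ S, (if al w ≤ ga w then al w else ga w) = min (al w) (ga w) := by
    intro w _
    split_ifs with h3
    · exact (min_eq_left h3).symm
    · exact (min_eq_right (le_of_not_ge h3)).symm
  rwa [sum_congr rfl h2] at h1

private theorem p_cost (θ a b : ℤ) : (if a ≠ b then 1 else 0) ≤ cost θ a b := by
  unfold cost
  split_ifs <;> omega

/-- the excess of one position. -/
private def ez (θ a b : ℤ) : ℤ :=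
  2 * (max (max a b - θ) 0 + max (θ - min a b) 0) - (if a ≠ b then 1 else 0) -
    (if a ≠ θ then 1 else 0) - (if b ≠ θ then 1 else 0)

private theorem ez_nonneg (θ a b : ℤ) : 0 ≤ ez θ a b := by
  unfold ez
  split_ifs <;> omega

private theorem ez_one (θ a b : ℤ) : 2 * |a - θ| ≤ ez θ a b + 3 := by
  unfold ez
  rcases abs_cases (a - θ) with ⟨h, _⟩ | ⟨h, _⟩ <;> rw [h] <;> split_ifs <;> omega

private theorem ez_two (θ a b : ℤ) : max (|a - θ| - 1) 0 ≤ ez θ a b := by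
  unfold ez
  rcases abs_cases (a - θ) with ⟨h, _⟩ | ⟨h, _⟩ <;> rw [h] <;> split_ifs <;> omega

private theorem p_cnt {c : V → V → ZMod m} {u x v : V} (hv : v = u ∨ v = x) {al : V → ℤ}
    (hal : ∀ w, w ≠ u → w ≠ x → (al w : ZMod m) = c v w) (θ : ℤ) {s d : ℕ}
    (hX : (XX u x).card + 2 = m + s) (hd : ∀ a, (cla c v a).card ≤ d) :
    m + s ≤ ((XX u x).filter (fun w => al w ≠ θ)).card + d + 2 := by
  have h1 := card_filter_add_card_filter_not (s := XX u x) (fun w => al w = θ)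
  have h2 : ((XX u x).filter (fun w => al w = θ)).card ≤ d := by
    refine le_trans (card_le_card ?_) (hd (θ : ZMod m))
    intro w hw
    obtain ⟨h3, h4⟩ := mem_filter.1 hw
    obtain ⟨h5, h6⟩ := mem_XX.1 h3
    unfold cla
    rw [mem_filter, mem_erase, ← hal w h5 h6, h4]
    refine ⟨⟨?_, mem_univ _⟩, rfl⟩
    rcases hv with rfl | rfl
    · exact h5
    · exact h6
  simp only [ne_eq] at *
  omega

/-- a set of `k` positions which contains all positions with `M > θ` and only positions with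
`M ≥ θ`. -/
private theorem p_set (X : Finset V) (M : V → ℤ) (θ : ℤ) {k : ℕ}
    (h1 : k ≤ (X.filter fun w => θ ≤ M w).card) (h2 : ∑ w ∈ X, max (M w - θ) 0 ≤ k) :
    ∃ S ⊆ X, S.card = k ∧ ∑ w ∈ S, M w = k * θ + ∑ w ∈ X, max (M w - θ) 0 := by
  have hsub : (X.filter fun w => θ + 1 ≤ M w) ⊆ X.filter fun w => θ ≤ M w := by
    intro w hw
    obtain ⟨h1, h2⟩ := mem_filter.1 hw
    exact mem_filter.2 ⟨h1, by linarith⟩
  have h3 : (((X.filter fun w => θ + 1 ≤ M w).card : ℕ) : ℤ) ≤ ∑ w ∈ X, max (M w - θ) 0 := by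
    rw [card_filter]
    push_cast
    refine sum_le_sum fun w _ => ?_
    split_ifs <;> omega
  obtain ⟨S, hS1, hS2, hSc⟩ := exists_subsuperset_card_eq hsub (n := k)
    (by exact_mod_cast h3.trans h2) h1
  refine ⟨S, hS2.trans (filter_subset _ _), hSc, ?_⟩
  have h4 : ∑ w ∈ X, max (M w - θ) 0 = ∑ w ∈ S, max (M w - θ) 0 := by
    refine (sum_subset (hS2.trans (filter_subset _ _)) fun w hw hw2 => ?_).symm
    have h5 : ¬ θ + 1 ≤ M w := fun h6 => hw2 (hS1 (mem_filter.2 ⟨hw, h6⟩))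
    exact max_eq_right (by omega)
  have h5 : ∑ w ∈ S, max (M w - θ) 0 = ∑ w ∈ S, (M w - θ) := by
    refine sum_congr rfl fun w hw => max_eq_left ?_
    have h6 := (mem_filter.1 (hS2 hw)).2
    linarith
  rw [h4, h5, sum_sub_distrib, sum_const, hSc, nsmul_eq_mul]
  ring

theorem fr_of_plift [NeZero m] {c : V → V → ZMod m} {s I : ℕ} (h : St c s I) {u v : V}
    (g : (ZMod m)ˣ) (β : ZMod m) {z0 : ℤ} {al ga : V → ℤ}
    (hP : PLift (fun x y => (g : ZMod m) * c x y - β) u v z0 al ga)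
    (hD : 2 * s + 2 ≤ G.DD c u v ⊥) :
    ∃ (g' : (ZMod m)ˣ) (θ : ZMod m) (ζ : ℤ) (a : V → ℤ) (P Q ex : ℤ),
      Fr c s I u v g' θ ζ a P Q ex := by
  have hm3 := h.m3
  have hs5 := h.s5
  have hX : (XX u v).card + 2 = m + s := by
    rw [← h.card]
    exact card_XX hP.ne
  have hgg : ((g⁻¹ : (ZMod m)ˣ) : ZMod m) * (g : ZMod m) = 1 := by
    rw [← Units.val_mul, inv_mul_cancel, Units.val_one]
  have hst := st_affine h g β
  -- the number of positions with different values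
  have h4 : G.DD c u v ⊥ ≤ ((XX u v).filter (fun w => al w ≠ ga w)).card := by
    unfold G.DD G.Dn
    apply card_le_card
    intro w hw
    replace hw : w ∈ G.XX u v ∧ c u w - c v w ∉ (⊥ : AddSubgroup (ZMod m)) := by
      classical
      exact mem_filter.1 hw
    rw [mem_filter]
    refine ⟨hw.1, fun h5 => hw.2 ?_⟩
    rw [AddSubgroup.mem_bot]
    have hwX := mem_XX.1 hw.1
    have h6 := hP.hu w hwX.1 hwX.2
    have h7 := hP.hx w hwX.1 hwX.2
    rw [h5, h7] at h6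
    have h8 : (g : ZMod m) * c v w = (g : ZMod m) * c u w := by
      have h9 : (g : ZMod m) * c v w - β = (g : ZMod m) * c u w - β := h6
      exact sub_left_injective h9
    have h10 : ((g⁻¹ : (ZMod m)ˣ) : ZMod m) * ((g : ZMod m) * c v w) =
        ((g⁻¹ : (ZMod m)ˣ) : ZMod m) * ((g : ZMod m) * c u w) := by rw [h8]
    rw [← mul_assoc, ← mul_assoc, hgg, one_mul, one_mul] at h10
    rw [h10, sub_self]
  have hDs : (((XX u v).filter (fun w => al w ≠ ga w)).card : ℤ) =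
      ∑ w ∈ XX u v, (if al w ≠ ga w then 1 else 0) := by
    rw [card_filter]
    push_cast
    rfl
  rcases c3 hP h.card (by omega) (by omega) (by omega) with ⟨θ, hq, t1, t2⟩ | ⟨θ, hq, -, -⟩
  swap
  · exfalso
    have e5 : ∑ w ∈ XX u v, (if al w ≠ ga w then 1 else 0) ≤
        ∑ w ∈ XX u v, cost θ (al w) (ga w) :=
      sum_le_sum fun w _ => p_cost θ (al w) (ga w)
    rw [← hDs] at e5
    omega
  obtain ⟨P, hPe⟩ : ∃ P : ℤ, P = ∑ w ∈ XX u v, max (max (al w) (ga w) - θ) 0 := ⟨_, rfl⟩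
  obtain ⟨Q, hQe⟩ : ∃ Q : ℤ, Q = ∑ w ∈ XX u v, max (θ - min (al w) (ga w)) 0 := ⟨_, rfl⟩
  rw [sum_add_distrib, ← hPe, ← hQe] at hq
  have hP0 : 0 ≤ P := by
    rw [hPe]
    exact sum_nonneg fun w _ => le_max_right _ _
  have hQ0 : 0 ≤ Q := by
    rw [hQe]
    exact sum_nonneg fun w _ => le_max_right _ _
  have hk : ((m - 1 : ℕ) : ℤ) = m - 1 := by omega
  have hhi : z0 + ((m : ℤ) - 1) * θ + P + 1 ≤ m := by
    obtain ⟨S, hS, hSc, hSs⟩ := p_set (XX u v) (fun w => max (al w) (ga w)) θ (k := m - 1)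
      (by omega) (by rw [← hPe]; omega)
    have h5 := p_max hP hS (by omega)
    rw [hSs, ← hPe, hk] at h5
    linarith
  have hlo : 1 + Q ≤ z0 + ((m : ℤ) - 1) * θ := by
    have f1 : ((XX u v).filter fun w => -θ ≤ - min (al w) (ga w)) =
        (XX u v).filter fun w => min (al w) (ga w) ≤ θ :=
      filter_congr fun w _ => by constructor <;> intro h1 <;> omega
    have e1 : ∑ w ∈ XX u v, max (- min (al w) (ga w) - -θ) 0 =
        ∑ w ∈ XX u v, max (θ - min (al w) (ga w)) 0 :=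
      sum_congr rfl fun w _ => by
        rw [show - min (al w) (ga w) - -θ = θ - min (al w) (ga w) by ring]
    obtain ⟨S, hS, hSc, hSs⟩ := p_set (XX u v) (fun w => - min (al w) (ga w)) (-θ) (k := m - 1)
      (by rw [f1]; omega) (by rw [e1, ← hQe]; omega)
    have h5 := p_min hP hS (by omega)
    rw [e1, ← hQe, sum_neg_distrib, hk] at hSs
    linarith
  have e1 := p_cnt (c := fun x y => (g : ZMod m) * c x y - β) (Or.inl rfl) hP.hu θ hX
    (hst.cl u)
  have e2 := p_cnt (c := fun x y => (g : ZMod m) * c x y - β) (Or.inr rfl) hP.hx θ hX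
    (hst.cl v)
  have e3 : (((XX u v).filter (fun w => al w ≠ θ)).card : ℤ) =
      ∑ w ∈ XX u v, (if al w ≠ θ then 1 else 0) := by
    rw [card_filter]
    push_cast
    rfl
  have e4 : (((XX u v).filter (fun w => ga w ≠ θ)).card : ℤ) =
      ∑ w ∈ XX u v, (if ga w ≠ θ then 1 else 0) := by
    rw [card_filter]
    push_cast
    rfl
  have hex : ∑ w ∈ XX u v, ez θ (al w) (ga w) = 2 * (P + Q) -
      (((XX u v).filter (fun w => al w ≠ ga w)).card : ℤ) -
      (((XX u v).filter (fun w => al w ≠ θ)).card : ℤ) -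
      (((XX u v).filter (fun w => ga w ≠ θ)).card : ℤ) := by
    unfold ez
    rw [sum_sub_distrib, sum_sub_distrib, sum_sub_distrib, ← mul_sum, sum_add_distrib, ← hPe,
      ← hQe, ← hDs, ← e3, ← e4]
  have hf : (XX u v).filter (fun z => al z - θ ≠ 0) = (XX u v).filter (fun z => al z ≠ θ) :=
    filter_congr fun z _ => by rw [ne_eq, ne_eq, sub_eq_zero]
  refine ⟨g⁻¹, ((g⁻¹ : (ZMod m)ˣ) : ZMod m) * (β + θ), z0 + ((m : ℤ) - 1) * θ,
    fun z => al z - θ, P, Q, ∑ w ∈ XX u v, ez θ (al w) (ga w), hP.ne, ?_, ?_, hlo, hhi, ?_, ?_,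
    ?_, ?_, ?_, ?_, hD⟩
  · intro z hz
    obtain ⟨h5, h6⟩ := mem_XX.1 hz
    have h7 : (al z : ZMod m) = (g : ZMod m) * c u z - β := hP.hu z h5 h6
    push_cast
    rw [h7]
    linear_combination (- c u z) * hgg
  · have h7 : (z0 : ZMod m) = (g : ZMod m) * c u v - β := hP.h0
    push_cast
    rw [h7, ZMod.natCast_self]
    linear_combination (- c u v) * hgg
  · rw [hQe]
    exact sum_le_sum fun z _ => by omega
  · rw [hPe]
    exact sum_le_sum fun z _ => by omega
  · intro z hz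
    have h5 := single_le_sum (f := fun w => ez θ (al w) (ga w))
      (fun w _ => ez_nonneg θ (al w) (ga w)) hz
    have h6 := ez_one θ (al z) (ga z)
    linarith
  · exact sum_le_sum fun z _ => ez_two θ (al z) (ga z)
  · rw [hf]
    omega
  · rw [hf, hex]
    omega

end X2
end ZS44129
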