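import Mathlib
import Pool.Agent.Work.MP_44129c_co.X2.EWide
import Pool.Agent.Work.MP_44129c_co.X2.ENoFr
import Pool.Agent.Work.MP_44129c_co.X2.EMix
import Pool.Agent.Work.MP_44129c_co.X2.ESum
import Pool.Agent.Work.MP_44129c_co.X2.Pair

/-!
# MP_44129c_co/X2, EMono (size M): every `K`-class at every vertex has only one colour

`n = |V| - 1 = 4 s + 1`, `m = 3 s + 2`, `s` even, `s ≥ 8`.
PROOF.  Suppose `x, x' ≠ p`, `c p x - c p x' ∈ K`, `c p x ≠ c p x'`.  Bounds for `d v = DD c p v K`, `v ≠ p`: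
* `v ≠ x, x'`, not `Hvy c p v`: `2 d v ≤ m` (otherwise `plift_or` gives a lift, contradiction to `no_mix`).
* `v ∈ {x, x'}`, not `Hvy c p v`: `d v ≤ 2 s + 2 + 2 I` (if `d v ≥ 2 s + 2`: `plift_or`, `fr_of_plift` [`DD ⊥ ≥ DD K`, `G.dd_anti`], `fr_facts`);
  if `p` has a heavy partner, `d v ≤ 2 s + 1` (otherwise a frame, contradiction to `no_fr`).
* `Hvy c p v`: `d v ≤ |XX p v| = 4 s`; at most one such `v` (`hvy_uniq`).
Also `2 d v ≤ m ≤ 4 s + 2` is weaker than all these bounds, so with `M = m`: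
 (a) `p` has no heavy partner: `2 ∑ d v ≤ (n - 2) m + 4 (2 s + 2 + 2 I)`;
 (b) `p` has the heavy partner `p'`: `2 ∑ d v ≤ (n - 3) m + 8 s + 4 (2 s + 1)` (also if `p' ∈ {x, x'}`, as `m ≤ 2 (2 s + 1)`).
`sum_ddK` and `h.cK`: `∑ d v ≥ n² - n (2 s + 1 + I) = n (2 s - I)`.
(a) `2 (4 s + 1) (2 s - I) ≤ (4 s - 1) (3 s + 2) + 8 s + 8 + 8 I`, i.e. `4 s² ≤ 9 s + 8 s I + 10 I + 6`;
(b) `2 (4 s + 1) (2 s - I) ≤ (4 s - 2) (3 s + 2) + 16 s + 4`, i.e. `4 s² ≤ 14 s + 8 s I + 2 I`.
Both are false for `s ≥ 8`, `I (I + 1) ≤ s`, `3 I + 2 ≤ s`: for `I ≤ 2` check `I = 0, 1, 2` (`s ≥ 8`); for `I ≥ 3`: `s ≥ 12` and `4 I ≤ s`, so the right sides are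
`≤ 2 s² + 12 s + 6` and `≤ 2 s² + 15 s`.
(Bounding the sum: `∑_v d v ≤ ∑_v (m / 2) + …`: write `b v = m / 2` plus extras for `x`, `x'`, `p'` and use `sum_le_sum`, `sum_ite_eq`.)
-/

set_option autoImplicit false

namespace ZS44129
namespace X2

open Finset E N X1

variable {V : Type} [Fintype V] [DecidableEq V] {m : ℕ}

private theorem mono_sum {p x x' p' : V} (hx : x ≠ p) (hx' : x' ≠ p) (hp' : p' ≠ p) (d : V → ℤ)
    (M E F : ℤ) (h : ∀ v, v ≠ p → d v ≤ M + (if v = x then E else 0) + (if v = x' then E else 0) +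
      (if v = p' then F else 0)) :
    ∑ v ∈ univ.erase p, d v ≤ ((univ.erase p).card : ℤ) * M + 2 * E + F := by
  refine (sum_le_sum fun v hv => h v (ne_of_mem_erase hv)).trans ?_
  rw [sum_add_distrib, sum_add_distrib, sum_add_distrib, sum_ite_eq', sum_ite_eq', sum_ite_eq',
    if_pos (mem_erase.2 ⟨hx, mem_univ x⟩), if_pos (mem_erase.2 ⟨hx', mem_univ x'⟩),
    if_pos (mem_erase.2 ⟨hp', mem_univ p'⟩), sum_const, nsmul_eq_mul]
  linarith

private theorem mono_numA {s I : ℤ} (hs : 8 ≤ s) (hI0 : 0 ≤ I) (hI : I * (I + 1) ≤ s)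
    (h : 2 * ((4 * s + 1) * (2 * s - I)) ≤ (4 * s - 1) * (3 * s + 2) + 8 * s + 8 + 8 * I) : False := by
  rcases lt_or_ge I 3 with h3 | h3
  · interval_cases I <;> nlinarith
  · have h4 : 4 * I ≤ s := by nlinarith
    nlinarith

private theorem mono_numB {s I : ℤ} (hs : 8 ≤ s) (hI0 : 0 ≤ I) (hI : I * (I + 1) ≤ s)
    (h : 2 * ((4 * s + 1) * (2 * s - I)) ≤ (4 * s - 2) * (3 * s + 2) + 16 * s + 4) : False := by
  rcases lt_or_ge I 3 with h3 | h3
  · interval_cases I <;> nlinarith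
  · have h4 : 4 * I ≤ s := by nlinarith
    nlinarith

theorem mono [NeZero m] {c : V → V → ZMod m} {s I : ℕ} {K : AddSubgroup (ZMod m)}
    (h : StE c s I K) {p x x' : V} (hx : x ≠ p) (hx' : x' ≠ p) (hK : c p x - c p x' ∈ K) :
    c p x = c p x' := by
  by_contra hne
  obtain ⟨k, hk1, hk2, hk3⟩ := s_even h
  have hm3 := h.m3
  have hcard := h.card
  have hn : (univ.erase p).card = 4 * s + 1 := by
    rw [card_erase_of_mem (mem_univ p), card_univ]
    omega
  -- all
  have hall : ∀ v, v ≠ p → G.DD c p v K ≤ 4 * s := by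
    intro v hv
    have h1 := G.card_XX (u := p) (v := v) hv.symm
    have h2 : G.DD c p v K ≤ (G.XX p v).card := by
      classical
      unfold G.DD G.Dn
      exact card_le_card (filter_subset _ _)
    omega
  -- (A)
  have hA : ∀ v, v ≠ p → x ≠ v → x' ≠ v → ¬ Hvy c p v → 2 * G.DD c p v K ≤ m := by
    intro v hv hxv hxv' hH
    by_contra hcon
    rcases plift_or h hv.symm (not_le.1 hcon) with ⟨g, β, z0, al, ga, hP⟩ | h1
    · exact no_mix h hx hx' hxv hxv' hK hne g β hP (not_le.1 hcon)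
    · exact hH h1
  have hfr : ∀ v, v ≠ p → ¬ Hvy c p v → 2 * s + 2 ≤ G.DD c p v K →
      ∃ (g' : (ZMod m)ˣ) (θ : ZMod m) (ζ : ℤ) (a : V → ℤ) (P Q ex : ℤ),
        Fr c s I p v g' θ ζ a P Q ex := by
    intro v hv hH hd
    rcases plift_or h hv.symm (show m < 2 * G.DD c p v K by omega) with ⟨g, β, z0, al, ga, hP⟩ | h1
    · exact fr_of_plift h.toSt g β hP (hd.trans (G.dd_anti c p v bot_le))
    · exact absurd h1 hH
  -- (B)
  have hB : ∀ v, v ≠ p → ¬ Hvy c p v → G.DD c p v K ≤ 2 * s + 2 + 2 * I := by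
    intro v hv hH
    by_contra hcon
    obtain ⟨g', θ, ζ, a, P, Q, ex, F⟩ := hfr v hv hH (by omega)
    have h1 := (fr_facts h.toSt F).2.2.2.2.1
    have h2 : G.DD c p v K ≤ G.DD c p v ⊥ := G.dd_anti c p v bot_le
    omega
  -- the sum from below
  have hsum := sum_ddK c h.sym K p
  have hcl : ∑ z ∈ univ.erase p, (G.cls c z K (c z p)).card ≤ (4 * s + 1) * (2 * s + 1 + I) := by
    refine (sum_le_card_nsmul _ _ _ fun z _ => h.cK z (c z p)).trans ?_
    rw [hn, smul_eq_mul]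
  have hV1 : Fintype.card V - 1 = 4 * s + 1 := by omega
  rw [hV1] at hsum
  have hlow : (4 * (s : ℤ) + 1) * (2 * s - I) ≤ ∑ v ∈ univ.erase p, (G.DD c p v K : ℤ) := by
    have h1 : ((∑ v ∈ univ.erase p, G.DD c p v K : ℕ) : ℤ) +
        ((∑ z ∈ univ.erase p, (G.cls c z K (c z p)).card : ℕ) : ℤ) =
        (((4 * s + 1) * (4 * s + 1) : ℕ) : ℤ) := by exact_mod_cast hsum
    have h2 : ((∑ z ∈ univ.erase p, (G.cls c z K (c z p)).card : ℕ) : ℤ) ≤
        (((4 * s + 1) * (2 * s + 1 + I) : ℕ) : ℤ) := by exact_mod_cast hcl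
    rw [Nat.cast_sum] at h1
    push_cast at h1 h2
    linarith
  have hs8 : (8 : ℤ) ≤ s := by omega
  have hIz : (I : ℤ) * (I + 1) ≤ s := by
    have := h.hI
    exact_mod_cast this
  have hmz : (m : ℤ) = 3 * s + 2 := by exact_mod_cast hm3
  have hnz : (((univ.erase p : Finset V).card : ℕ) : ℤ) = 4 * s + 1 := by exact_mod_cast hn
  by_cases hH : ∃ p', Hvy c p p'
  · -- (b)
    obtain ⟨p', hp'⟩ := hH
    have hp'p : p' ≠ p := (hvy_ne hp').symm
    have hB2 : ∀ v, v ≠ p → v ≠ p' → G.DD c p v K ≤ 2 * s + 1 := by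
      intro v hv hvp
      by_contra hcon
      have hH : ¬ Hvy c p v := fun h1 => hvp (hvy_uniq (by omega) h1 hp')
      obtain ⟨g', θ, ζ, a, P, Q, ex, F⟩ := hfr v hv hH (by omega)
      exact no_fr h.toSt hp' hvp F
    have hA2 : ∀ v, v ≠ p → x ≠ v → x' ≠ v → v ≠ p' → 2 * G.DD c p v K ≤ m := by
      intro v hv h1 h2 hvp
      exact hA v hv h1 h2 fun h3 => hvp (hvy_uniq (by omega) h3 hp')
    have h1 := mono_sum hx hx' hp'p (fun v => 2 * (G.DD c p v K : ℤ)) m (2 * (2 * s + 1) - m)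
      (8 * s - m) (by
        intro v hv
        show 2 * (G.DD c p v K : ℤ) ≤ _
        have e1 := hall v hv
        by_cases h2 : v = p'
        · rw [if_pos h2]
          split_ifs <;> omega
        · rw [if_neg h2]
          have e2 := hB2 v hv h2
          by_cases h3 : v = x
          · rw [if_pos h3]
            split_ifs <;> omega
          · rw [if_neg h3]
            by_cases h4 : v = x'
            · rw [if_pos h4]
              omega
            · rw [if_neg h4]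
              have e3 := hA2 v hv (fun h5 => h3 h5.symm) (fun h5 => h4 h5.symm) h2
              omega)
    rw [← mul_sum, hnz, hmz] at h1
    exact mono_numB hs8 (by positivity) hIz (by linarith)
  · -- (a)
    have hH' : ∀ v, ¬ Hvy c p v := fun v hv => hH ⟨v, hv⟩
    have h1 := mono_sum hx hx' hx (fun v => 2 * (G.DD c p v K : ℤ)) m (2 * (2 * s + 2 + 2 * I) - m)
      0 (by
        intro v hv
        show 2 * (G.DD c p v K : ℤ) ≤ _
        have e2 := hB v hv (hH' v)
        by_cases h3 : v = x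
        · rw [if_pos h3, if_pos h3]
          split_ifs <;> omega
        · rw [if_neg h3, if_neg h3]
          by_cases h4 : v = x'
          · rw [if_pos h4]
            omega
          · rw [if_neg h4]
            have e3 := hA v hv (fun h5 => h3 h5.symm) (fun h5 => h4 h5.symm) (hH' v)
            omega)
    rw [← mul_sum, hnz, hmz] at h1
    exact mono_numA hs8 (by positivity) hIz (by linarith)

end X2
end ZS44129
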