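import Mathlib
import Pool.Agent.Work.MP_44129c_co.X2.Defs
import Pool.Agent.Work.MP_44129c_co.X1.ExSl

/-!
# MP_44129c_co/X2, Near (size M): a frame with `Q ≤ I` gives an exact star

`X = XX u v`, `|X| = 4 s`, `univ.erase u = insert v X`, `m = 3 s + 2`, `3 I + 2 ≤ s` (`three_I`), `fr_facts`.
PROOF of `ex_of_frQ`.  Put `g' = g⁻¹`, `β = g⁻¹ θ`, `c' = g' c - β` (`St c' s I`: `st_affine`), `t z = a z` for `z ∈ X`, `t v = ζ`
(and anything at `u`).  `(t z : ZMod m) = c' u z` by `col`, `cv`.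
`SL c' u t`: let `A ⊆ univ.erase u`, `|A| = m`.
* `v ∈ A`: `∑_A t = ζ + ∑_{A - v} a`, and `- Q ≤ ∑_{A - v} a ≤ P` (`sQ`, `sP`: `∑_B a ≥ - ∑_X max (- a) 0`).  So it is in
  `[ζ - Q, ζ + P] ⊆ [1, m - 1]` (`lo`, `hi`).
* `v ∉ A`: `A ⊆ X` leaves out `4 s - m = s - 2` elements of `X`.  Above: `∑_A a ≤ P ≤ m - 1 - ζ ≤ m - 2`.  Below: `X` has
  `≥ #{a ≠ 0} - #{a < 0} ≥ (2 s - 1 - I) - Q` elements with `a ≥ 1` (`#{a < 0} ≤ ∑ max (- a) 0 ≤ Q`), so `A` has at least
  `(2 s - 1 - I) - Q - (s - 2)`, and `∑_A a ≥ #{z ∈ A : a z ≥ 1} - Q ≥ s + 1 - I - 2 Q ≥ 1` (`Q ≤ I`, `3 I ≤ s`).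
Excess: `exL u t ≤ ∑_X max (- a) 0 ≤ Q ≤ I ≤ s - 2` (`ζ ≥ 1`: `v` is high).
`exH u t ≤ ∑_X max (|a| - 1) 0 + (ζ - 1) ≤ ex + ζ - 1`; `ζ ≤ m - 1 - P = 3 s + 1 - P` and `2 (P + Q) ≥ 6 s + ex - 2 I` (`fr_facts`), so
`2 exH ≤ 2 ex + 2 (3 s - P) ≤ 2 ex + 6 s - (6 s + ex - 2 I - 2 Q) = ex + 2 I + 2 Q ≤ 2 I + 2 I + 2 I`: `exH ≤ 3 I ≤ s - 2`.
`ex_of_sl` (X1/ExSl).
`ex_of_fr`: if `P ≤ I` use `fr_refl`.
-/

set_option autoImplicit false

namespace ZS44129
namespace X2

open Finset E N X1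

variable {V : Type} [Fintype V] [DecidableEq V] {m : ℕ}

private theorem nr_mem {u v z : V} : z ∈ XX u v ↔ z ≠ u ∧ z ≠ v := by
  unfold XX
  rw [mem_erase, mem_erase]
  exact ⟨fun h => ⟨h.2.1, h.1⟩, fun h => ⟨h.2, h.1, mem_univ z⟩⟩

private theorem nr_card {u v : V} (h : u ≠ v) : (XX u v).card + 2 = Fintype.card V := by
  have h1 := card_erase_add_one (mem_univ u)
  have h2 := card_erase_add_one (mem_erase.2 ⟨h.symm, mem_univ v⟩)
  rw [card_univ] at h1
  unfold XX
  omega

private theorem nr_up {X B : Finset V} (hB : B ⊆ X) (a : V → ℤ) {P : ℤ}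
    (hP : ∑ z ∈ X, max (a z) 0 ≤ P) : ∑ z ∈ B, a z ≤ P := by
  have h1 : ∑ z ∈ B, a z ≤ ∑ z ∈ B, max (a z) 0 := sum_le_sum fun z _ => le_max_left _ _
  have h2 : ∑ z ∈ B, max (a z) 0 ≤ ∑ z ∈ X, max (a z) 0 :=
    sum_le_sum_of_subset_of_nonneg hB fun z _ _ => le_max_right _ _
  linarith

private theorem nr_lo {X B : Finset V} (hB : B ⊆ X) (a : V → ℤ) {Q : ℤ}
    (hQ : ∑ z ∈ X, max (- a z) 0 ≤ Q) : - Q ≤ ∑ z ∈ B, a z := by
  have h1 := nr_up hB (fun z => - a z) hQ
  rw [sum_neg_distrib] at h1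
  linarith

theorem ex_of_frQ [NeZero m] {c : V → V → ZMod m} {s I : ℕ} (h : St c s I) {u v : V}
    {g : (ZMod m)ˣ} {θ : ZMod m} {ζ : ℤ} {a : V → ℤ} {P Q ex : ℤ}
    (F : Fr c s I u v g θ ζ a P Q ex) (hQ : Q ≤ I) :
    ∃ (g' : (ZMod m)ˣ) (β : ZMod m), Ex (fun x y => (g' : ZMod m) * c x y - β) u := by
  have hs5 := h.s5
  have hm3 := h.m3
  have h3I := three_I h
  obtain ⟨f1, f2, f3, f4, f5, f6, f7, f8⟩ := fr_facts h F
  have hne := F.ne
  have hlo := F.lo
  have hhi := F.hi
  have hcard := nr_card hne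
  rw [h.card] at hcard
  have hXc : (XX u v).card = 4 * s := by omega
  have hmz : (m : ℤ) = 3 * s + 2 := by exact_mod_cast hm3
  refine ⟨g⁻¹, ((g⁻¹ : (ZMod m)ˣ) : ZMod m) * θ, ?_⟩
  have hgg : ((g⁻¹ : (ZMod m)ˣ) : ZMod m) * (g : ZMod m) = 1 := by
    rw [← Units.val_mul, inv_mul_cancel, Units.val_one]
  have h' := st_affine h g⁻¹ (((g⁻¹ : (ZMod m)ˣ) : ZMod m) * θ)
  obtain ⟨t, ht⟩ : ∃ t : V → ℤ, t = fun z => if z = v then ζ else a z := ⟨_, rfl⟩
  have htv : t v = ζ := by rw [ht]; exact if_pos rfl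
  have hta : ∀ z, z ≠ v → t z = a z := fun z hz => by rw [ht]; exact if_neg hz
  have hSL : SL (fun x y => ((g⁻¹ : (ZMod m)ˣ) : ZMod m) * c x y -
      ((g⁻¹ : (ZMod m)ˣ) : ZMod m) * θ) u t := by
    refine ⟨fun z hz => ?_, fun A hA hAc => ?_⟩
    · by_cases hzv : z = v
      · rw [hzv, htv]
        show (ζ : ZMod m) = _
        rw [F.cv]
        linear_combination (-(ζ : ZMod m)) * hgg
      · rw [hta z hzv, F.col z (nr_mem.2 ⟨hz, hzv⟩)]
        linear_combination (-(a z : ZMod m)) * hgg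
    · by_cases hv : v ∈ A
      · have e1 : ∑ w ∈ A, t w = ∑ w ∈ A.erase v, a w + ζ := by
          rw [← sum_erase_add _ _ hv, htv]
          congr 1
          exact sum_congr rfl fun z hz => hta z (mem_erase.1 hz).1
        have hsub : A.erase v ⊆ XX u v := by
          intro z hz
          obtain ⟨h1, h2⟩ := mem_erase.1 hz
          exact nr_mem.2 ⟨(mem_erase.1 (hA h2)).1, h1⟩
        have e2 := nr_up hsub a F.sP
        have e3 := nr_lo hsub a F.sQ
        rw [e1]
        constructor <;> linarith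
      · have e1 : ∑ w ∈ A, t w = ∑ w ∈ A, a w :=
          sum_congr rfl fun z hz => hta z fun he => hv (he ▸ hz)
        have hsub : A ⊆ XX u v := by
          intro z hz
          exact nr_mem.2 ⟨(mem_erase.1 (hA hz)).1, fun he => hv (he ▸ hz)⟩
        have e2 := nr_up hsub a F.sP
        rw [e1]
        refine ⟨?_, by linarith⟩
        -- number of positive values
        have c1 : ((A.filter (fun z => 1 ≤ a z)).card : ℤ) ≤ ∑ z ∈ A, a z + Q := by
          have d1 : ((A.filter (fun z => 1 ≤ a z)).card : ℤ) ≤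
              ∑ z ∈ A.filter (fun z => 1 ≤ a z), a z := by
            have := card_nsmul_le_sum (A.filter (fun z => 1 ≤ a z)) a 1
              (fun z hz => (mem_filter.1 hz).2)
            simpa using this
          have d2 : - Q ≤ ∑ z ∈ A.filter (fun z => ¬ 1 ≤ a z), a z :=
            nr_lo ((filter_subset _ _).trans hsub) a F.sQ
          have d3 := sum_filter_add_sum_filter_not A (fun z => 1 ≤ a z) a
          linarith
        have c2 : (((XX u v).filter (fun z => a z < 0)).card : ℤ) ≤ Q := by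
          have d1 : (((XX u v).filter (fun z => a z < 0)).card : ℤ) ≤
              ∑ z ∈ (XX u v).filter (fun z => a z < 0), (- a z) := by
            have := card_nsmul_le_sum ((XX u v).filter (fun z => a z < 0)) (fun z => - a z) 1
              (fun z hz => by
                have := (mem_filter.1 hz).2
                omega)
            simpa using this
          exact d1.trans (nr_up (filter_subset _ _) (fun z => - a z) F.sQ)
        have c3 : ((XX u v).filter (fun z => a z ≠ 0)).card ≤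
            ((XX u v).filter (fun z => a z < 0)).card + (A.filter (fun z => 1 ≤ a z)).card +
              (XX u v \ A).card := by
          have d1 : (XX u v).filter (fun z => a z ≠ 0) ⊆
              (((XX u v).filter (fun z => a z < 0)) ∪ (A.filter (fun z => 1 ≤ a z))) ∪
                (XX u v \ A) := by
            intro z hz
            obtain ⟨h1, h2⟩ := mem_filter.1 hz
            rw [mem_union, mem_union, mem_filter, mem_filter, mem_sdiff]
            by_cases h3 : z ∈ A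
            · rcases lt_or_gt_of_ne h2 with h4 | h4
              · exact Or.inl (Or.inl ⟨h1, h4⟩)
              · exact Or.inl (Or.inr ⟨h3, h4⟩)
            · exact Or.inr ⟨h1, h3⟩
          refine (card_le_card d1).trans ((card_union_le _ _).trans ?_)
          exact Nat.add_le_add_right (card_union_le _ _) _
        have c4 : (XX u v \ A).card = 4 * s - m := by
          rw [card_sdiff_of_subset hsub, hXc, hAc]
        have c5 := F.na
        have c6 : (((XX u v).filter (fun z => a z ≠ 0)).card : ℤ) ≤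
            (((XX u v).filter (fun z => a z < 0)).card : ℤ) +
              ((A.filter (fun z => 1 ≤ a z)).card : ℤ) + ((XX u v \ A).card : ℤ) := by
          exact_mod_cast c3
        have c7 : ((XX u v \ A).card : ℤ) = s - 2 := by omega
        have c8 : 2 * (s : ℤ) ≤ (((XX u v).filter (fun z => a z ≠ 0)).card : ℤ) + 1 + I := by
          exact_mod_cast c5
        have c9 : 3 * (I : ℤ) + 2 ≤ s := by exact_mod_cast h3I
        linarith
  have c9 : 3 * (I : ℤ) + 2 ≤ s := by exact_mod_cast h3I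
  refine ex_of_sl h' hSL ?_ ?_
  · have e1 : exL u t ≤ Q := by
      unfold exL
      have hsub : LL u t ⊆ XX u v := by
        intro z hz
        unfold LL at hz
        obtain ⟨h1, h2⟩ := mem_filter.1 hz
        refine nr_mem.2 ⟨(mem_erase.1 h1).1, fun he => ?_⟩
        rw [he, htv] at h2
        linarith
      have e2 : ∑ w ∈ LL u t, (- t w) = ∑ w ∈ LL u t, (- a w) :=
        sum_congr rfl fun z hz => by rw [hta z (nr_mem.1 (hsub hz)).2]
      rw [e2]
      exact nr_up hsub (fun z => - a z) F.sQ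
    linarith
  · have e1 : exH u t ≤ ex + (ζ - 1) := by
      unfold exH
      have hv : v ∈ HH u t := by
        unfold HH
        refine mem_filter.2 ⟨mem_erase.2 ⟨hne.symm, mem_univ v⟩, ?_⟩
        rw [htv]
        linarith
      rw [← sum_erase_add _ _ hv, htv]
      have e2 : ∑ w ∈ (HH u t).erase v, (t w - 1) ≤ ex := by
        have e3 : ∑ w ∈ (HH u t).erase v, (t w - 1) ≤
            ∑ w ∈ (HH u t).erase v, max (|a w| - 1) 0 := by
          refine sum_le_sum fun w hw => ?_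
          rw [hta w (mem_erase.1 hw).1]
          exact le_trans (sub_le_sub_right (le_abs_self _) 1) (le_max_left _ _)
        have e4 : (HH u t).erase v ⊆ XX u v := by
          intro z hz
          obtain ⟨h1, h2⟩ := mem_erase.1 hz
          unfold HH at h2
          exact nr_mem.2 ⟨(mem_erase.1 (mem_filter.1 h2).1).1, h1⟩
        have e5 : ∑ w ∈ (HH u t).erase v, max (|a w| - 1) 0 ≤
            ∑ w ∈ XX u v, max (|a w| - 1) 0 :=
          sum_le_sum_of_subset_of_nonneg e4 fun z _ _ => le_max_right _ _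
        exact e3.trans (e5.trans F.sex)
      linarith
    linarith

theorem ex_of_fr [NeZero m] {c : V → V → ZMod m} {s I : ℕ} (h : St c s I) {u v : V}
    {g : (ZMod m)ˣ} {θ : ZMod m} {ζ : ℤ} {a : V → ℤ} {P Q ex : ℤ}
    (F : Fr c s I u v g θ ζ a P Q ex) (hQ : P ≤ I ∨ Q ≤ I) :
    ∃ (g' : (ZMod m)ˣ) (β : ZMod m), Ex (fun x y => (g' : ZMod m) * c x y - β) u := by
  rcases hQ with h1 | h1
  · exact ex_of_frQ h (fr_refl F) h1
  · exact ex_of_frQ h F h1

end X2
end ZS44129
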