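import Mathlib
import Pool.Agent.Work.MP_44129c_co.X2.Defs

/-!
# MP_44129c_co/X2, Part (size M): two classes are almost everything

`n = |univ.erase p| = 4 s + 1`; `κ z = |cla c p (c p z)|` for `z ≠ p`; `3 I + 2 ≤ s` (`three_I`), `I (I + 1) ≤ s`.
`A = cla c p a` = a largest class (it occurs: `a = c p z0`, `exists_max_image`), `f = |A| ≤ 2 s + 1 + I`; `R = univ.erase p \ A`, `|R| = n - f > 0`;
`B = cla c p b` = a largest class among those of the elements of `R`, `f' = |B| ≤ f`, `b ≠ a`; `k = n - f - f'` = the number of remaining elements.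
Upper bounds for `q = ∑_{z ≠ p} κ z` (all `κ z ≤ f`; `κ z ≤ f'` on `R`; `κ z ≤ min (f', k)` on the `k` remaining elements):
  `q ≤ f² + f' (n - f)` and `q ≤ f² + f'² + k²`.
PROOF that `k = 0`, or `k = 1` and `f ≥ 2 s + 2` (assuming `q ≥ 8 s² + 2 s - 1 - 2 I`).
* `f ≤ 2 s - 1`: `q ≤ f n ≤ (2 s - 1) (4 s + 1) = 8 s² - 2 s - 1`, too small as `4 s > 2 I`.
* `f = 2 s`: `q ≤ 4 s² + f' (2 s + 1)`, `f' ≤ 2 s`.  `f' ≤ 2 s - 1`: `q ≤ 4 s² + 4 s² - 1`; `f' = 2 s`: `k = 1`, `q ≤ 8 s² + 1`.  Both too small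
  (`2 s > 2 I + 2`).
* `f = 2 s + 1 + j`, `0 ≤ j ≤ I`, `n - f = 2 s - j = f' + k`.
  - `k = 1`, `j = 0`: `q ≤ (2 s + 1)² + (2 s - 1)² + 1 = 8 s² + 3`, too small (`2 s > 4 + 2 I`).
  - `2 ≤ k ≤ f'`: `f'² + k² ≤ (2 s - j - 2)² + 4` (`f'² + k² = (f' + k)² - 2 f' k`, `f' k ≥ 2 (f' + k - 2)` as `(f' - 2) (k - 2) ≥ 0`), so
    `q ≤ (2 s + 1 + j)² + (2 s - j - 2)² + 4 = 8 s² - 4 s + 2 j² + 6 j + 9`; too small: `2 j² + 6 j + 10 + 2 I ≤ 2 I (I + 1) + 6 I + 10 ≤ 2 s + 2 (s - 2) + 10 < 6 s`.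
  - `k > f'`: `2 f' < 2 s - j`, `q ≤ f² + f' (2 s - j)`, `2 q ≤ 2 (2 s + 1 + j)² + (2 s - j)²`; too small: `2 (8 s² + 2 s - 1 - 2 I) - 2 (2 s + 1 + j)² - (2 s - j)²
    = 4 s² - 4 s - 4 s j - 3 j² - 4 j - 4 - 4 I > 0` (`j ≤ I`, `3 I + 2 ≤ s`: `4 s j ≤ (4 / 3) s (s - 2)`, `3 j² ≤ 3 s`, ...).
  (`nlinarith` may need the products `j * (I - j) ≥ 0`, `I * (I + 1) ≤ s`, `s * (s - 3 I - 2) ≥ 0`.)
-/

set_option autoImplicit false

namespace ZS44129
namespace X2

open Finset E N X1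

variable {V : Type} [Fintype V] [DecidableEq V] {m : ℕ}

private theorem part_num {s I f g k q : ℤ} (hI0 : 0 ≤ I) (h3 : 3 * I + 2 ≤ s)
    (hI : I * (I + 1) ≤ s) (hs : 5 ≤ s) (hf : f ≤ 2 * s + 1 + I) (hgf : g ≤ f) (hk0 : 0 ≤ k)
    (hg0 : 0 ≤ g) (hsum : f + g + k = 4 * s + 1) (hq : 8 * s * s + 2 * s ≤ q + 1 + 2 * I)
    (h1 : q ≤ f * f + (g + k) * g) (h2 : q ≤ f * f + (g * g + k * k)) :
    k = 0 ∨ (k = 1 ∧ 2 * s + 2 ≤ f) := by
  by_contra hcon
  push Not at hcon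
  obtain ⟨hk, hk2⟩ := hcon
  have hk1 : 1 ≤ k := by omega
  have hkf : k = 4 * s + 1 - f - g := by linarith
  rcases lt_trichotomy f (2 * s) with hf1 | hf1 | hf1
  · have e1 : (g + k) * g ≤ (g + k) * f := mul_le_mul_of_nonneg_left hgf (by linarith)
    have e2 : f * f + (g + k) * f = f * (4 * s + 1) := by rw [← hsum]; ring
    have e3 : f * (4 * s + 1) ≤ (2 * s - 1) * (4 * s + 1) :=
      mul_le_mul_of_nonneg_right (by linarith) (by linarith)
    nlinarith
  · subst hf1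
    rcases lt_or_ge g (2 * s) with hg1 | hg1
    · have e1 : (g + k) * g ≤ (2 * s + 1) * (2 * s - 1) := by
        have e0 : g + k = 2 * s + 1 := by linarith
        rw [e0]
        exact mul_le_mul_of_nonneg_left (by linarith) (by linarith)
      nlinarith
    · have e1 : g = 2 * s := by linarith
      have e2 : k = 1 := by linarith
      subst e1 e2
      nlinarith
  · obtain ⟨j, hj⟩ : ∃ j : ℤ, j = f - (2 * s + 1) := ⟨_, rfl⟩
    have hj0 : 0 ≤ j := by omega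
    have hjI : j ≤ I := by linarith
    have hfj : f = 2 * s + 1 + j := by linarith
    have hgk : g + k = 2 * s - j := by linarith
    have hjj : j * j ≤ I * I := mul_self_le_mul_self hj0 hjI
    rcases eq_or_lt_of_le hk1 with hk3 | hk3
    · have hj1 : j = 0 := by
        have := hk2 hk3.symm
        omega
      subst hj1
      have e1 : f = 2 * s + 1 := by linarith
      have e2 : g = 2 * s - 1 := by linarith
      rw [e1, e2, ← hk3] at h2
      nlinarith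
    · rcases le_or_gt k g with hkg | hkg
      · have e1 : 0 ≤ (g - 2) * (k - 2) := mul_nonneg (by linarith) (by linarith)
        have e2 : g * g + k * k = (g + k) * (g + k) - 2 * (g * k) := by ring
        have e3 : g * k ≥ 2 * (g + k) - 4 := by nlinarith
        rw [e2, hgk, hfj] at h2
        rw [hgk] at e3
        nlinarith
      · have e1 : (g + k) * (2 * g) ≤ (2 * s - j) * (2 * s - j) := by
          rw [hgk]
          exact mul_le_mul_of_nonneg_left (by linarith) (by linarith)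
        have e2 : j * s ≤ I * s := mul_le_mul_of_nonneg_right hjI (by linarith)
        have e3 : (3 * I + 2) * s ≤ s * s := mul_le_mul_of_nonneg_right h3 (by linarith)
        rw [hfj] at h1
        nlinarith

private theorem part_cla (c : V → V → ZMod m) (p : V) (a : ZMod m) {z : V} :
    z ∈ cla c p a ↔ z ≠ p ∧ c p z = a := by
  unfold cla
  rw [mem_filter, mem_erase]
  exact ⟨fun h => ⟨h.1.1, h.2⟩, fun h => ⟨⟨h.1, mem_univ z⟩, h.2⟩⟩

theorem two_classes {c : V → V → ZMod m} {s I : ℕ} (h : St c s I) {p : V}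
    (hp : 8 * s * s + 2 * s ≤ (∑ z ∈ univ.erase p, (cla c p (c p z)).card) + 1 + 2 * I) :
    ∃ a b : ZMod m, a ≠ b ∧ (cla c p b).card ≤ (cla c p a).card ∧
      ((cla c p a).card + (cla c p b).card = 4 * s + 1 ∨
        ((cla c p a).card + (cla c p b).card = 4 * s ∧ 2 * s + 2 ≤ (cla c p a).card)) := by
  have h3I := three_I h
  have hs5 := h.s5
  have hII := h.hI
  have hcard := h.card
  have hm3 := h.m3
  obtain ⟨E, hE⟩ : ∃ E : Finset V, E = univ.erase p := ⟨_, rfl⟩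
  have hEc : E.card = 4 * s + 1 := by
    rw [hE, card_erase_of_mem (mem_univ p), card_univ, hcard]
    omega
  have hEm : ∀ z, z ∈ E ↔ z ≠ p := by
    intro z
    rw [hE, mem_erase]
    exact ⟨fun h1 => h1.1, fun h1 => ⟨h1, mem_univ z⟩⟩
  rw [← hE] at hp
  have hEne : E.Nonempty := card_pos.1 (by omega)
  obtain ⟨z0, hz0, hmax0⟩ := exists_max_image E (fun z => (cla c p (c p z)).card) hEne
  obtain ⟨A, hA⟩ : ∃ A : Finset V, A = cla c p (c p z0) := ⟨_, rfl⟩
  have hAle : A.card ≤ 2 * s + 1 + I := by rw [hA]; exact h.cl p _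
  have hAE : A ⊆ E := by
    intro z hz
    rw [hA, part_cla] at hz
    exact (hEm z).2 hz.1
  obtain ⟨R, hR⟩ : ∃ R : Finset V, R = E \ A := ⟨_, rfl⟩
  have hRc : R.card + A.card = 4 * s + 1 := by
    rw [hR, card_sdiff_add_card_eq_card hAE, hEc]
  have hRne : R.Nonempty := card_pos.1 (by omega)
  obtain ⟨z1, hz1, hmax1⟩ := exists_max_image R (fun z => (cla c p (c p z)).card) hRne
  have hRm : ∀ z, z ∈ R ↔ z ≠ p ∧ c p z ≠ c p z0 := by
    intro z
    rw [hR, mem_sdiff, hEm, hA, part_cla]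
    exact ⟨fun h1 => ⟨h1.1, fun h2 => h1.2 ⟨h1.1, h2⟩⟩, fun h1 => ⟨h1.1, fun h2 => h1.2 h2.2⟩⟩
  obtain ⟨B, hB⟩ : ∃ B : Finset V, B = cla c p (c p z1) := ⟨_, rfl⟩
  have hBR : B ⊆ R := by
    intro z hz
    rw [hB, part_cla] at hz
    refine (hRm z).2 ⟨hz.1, ?_⟩
    rw [hz.2]
    exact ((hRm z1).1 hz1).2
  obtain ⟨T, hT⟩ : ∃ T : Finset V, T = R \ B := ⟨_, rfl⟩
  have hTc : T.card + B.card = R.card := by
    rw [hT, card_sdiff_add_card_eq_card hBR]
  have hTm : ∀ z, z ∈ T ↔ z ≠ p ∧ c p z ≠ c p z0 ∧ c p z ≠ c p z1 := by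
    intro z
    rw [hT, mem_sdiff, hRm, hB, part_cla]
    exact ⟨fun h1 => ⟨h1.1.1, h1.1.2, fun h2 => h1.2 ⟨h1.1.1, h2⟩⟩,
      fun h1 => ⟨⟨h1.1, h1.2.1⟩, fun h2 => h1.2.2 h2.2⟩⟩
  have hBA : B.card ≤ A.card := by
    rw [hA, hB]
    exact hmax0 z1 ((hEm z1).2 ((hRm z1).1 hz1).1)
  have hsA : ∑ z ∈ A, (cla c p (c p z)).card = A.card * A.card := by
    rw [← smul_eq_mul, ← sum_const]
    refine sum_congr rfl fun z hz => ?_
    rw [hA, part_cla] at hz
    rw [hz.2, hA]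
  have hsB : ∑ z ∈ B, (cla c p (c p z)).card = B.card * B.card := by
    rw [← smul_eq_mul, ← sum_const]
    refine sum_congr rfl fun z hz => ?_
    rw [hB, part_cla] at hz
    rw [hz.2, hB]
  have hsR : ∑ z ∈ R, (cla c p (c p z)).card ≤ R.card * B.card := by
    rw [← smul_eq_mul, ← sum_const]
    refine sum_le_sum fun z hz => ?_
    rw [hB]
    exact hmax1 z hz
  have hsT : ∑ z ∈ T, (cla c p (c p z)).card ≤ T.card * T.card := by
    rw [← smul_eq_mul, ← sum_const]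
    refine sum_le_sum fun z hz => card_le_card fun x hx => ?_
    rw [part_cla] at hx
    rw [hTm] at hz ⊢
    rw [hx.2]
    exact ⟨hx.1, hz.2⟩
  have hsE : ∑ z ∈ R, (cla c p (c p z)).card + ∑ z ∈ A, (cla c p (c p z)).card =
      ∑ z ∈ E, (cla c p (c p z)).card := by
    rw [hR, sum_sdiff hAE]
  have hsRT : ∑ z ∈ T, (cla c p (c p z)).card + ∑ z ∈ B, (cla c p (c p z)).card =
      ∑ z ∈ R, (cla c p (c p z)).card := by
    rw [hT, sum_sdiff hBR]
  obtain ⟨q, hq⟩ : ∃ q : ℕ, q = ∑ z ∈ E, (cla c p (c p z)).card := ⟨_, rfl⟩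
  rw [← hq] at hp hsE
  have hq1 : q ≤ A.card * A.card + (B.card + T.card) * B.card := by
    rw [add_comm B.card T.card, hTc]
    omega
  have hq2 : q ≤ A.card * A.card + (B.card * B.card + T.card * T.card) := by
    omega
  have hnum := part_num (s := (s : ℤ)) (I := I) (f := A.card) (g := B.card) (k := T.card)
    (q := q) (by omega) (by omega) (by exact_mod_cast hII) (by omega) (by omega) (by omega)
    (by omega) (by omega) (by omega) (by exact_mod_cast hp) (by exact_mod_cast hq1)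
    (by exact_mod_cast hq2)
  refine ⟨c p z0, c p z1, ((hRm z1).1 hz1).2.symm, ?_, ?_⟩
  · rw [← hA, ← hB]
    exact hBA
  · rw [← hA, ← hB]
    rcases hnum with h1 | ⟨h1, h2⟩
    · left
      omega
    · right
      constructor <;> omega

end X2
end ZS44129
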