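import Mathlib
import Pool.Agent.Work.MP_44129c_co.X2.Defs
import Pool.Agent.Work.MP_44129c_co.X1.ExSl
import Pool.Agent.Work.MP_44129c_co.FR.Main
import Pool.Agent.Work.MP_44129c_co.G.Pair

/-!
# MP_44129c_co/X2, Out (size M): one leaf with another colour

`m = 3 s + 2`, `univ.erase p` = zeros `∪` ones `∪ {y0}` (`4 s + 1` elements): `2 s + 1 + j` zeros, `2 s - 1 - j` ones, `1 ≤ j ≤ I`; so
`j (j + 1) ≤ s`, `3 j + 2 ≤ s` (`three_I`).  Claim: `Ex c p`, i.e. `c p y0` is `0` or `1` as well.
PROOF.  Let `x = (c p y0).val` (so `0 ≤ x ≤ m - 1`), and suppose `x ≥ 2`.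
(1) For `s - j ≤ i ≤ 2 s - 1 - j`: the star of `p` with the `m` leaves `y0`, `i` ones, `m - 1 - i` zeros (`≤ 2 s + 1 + j`) has the sum `x + i`; so
`x + i ≠ m` (`G.zsf_star`).  Hence `x ≤ s + 2 + j` or `x ≥ 2 s + 3 + j` (`m - i` runs through `[s + 3 + j, 2 s + 2 + j]`).
(2) Values: `t w = 0` for the zeros, `t w = 1` for the ones, `t y0 = x'` where `x' = x` if `x ≤ s + 2 + j`, and `x' = x - m` if `x ≥ 2 s + 3 + j`.
`SL c p t`: a set `A` of `m` leaves with `y0` has the sum `x' + i` with `i` = number of ones in `A`, `s - j ≤ i ≤ 2 s - 1 - j`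
(`m - 1 - i ≤ 2 s + 1 + j`): if `x' = x`: `1 ≤ x' + i ≤ s + 2 + j + 2 s - 1 - j = m - 1`; if `x' = x - m ∈ [- s + 1 + j, - 1]`: `1 ≤ x' + i ≤ m - 1`.
A set `A` without `y0`: `i ≥ m - (2 s + 1 + j) = s + 1 - j ≥ 1`, `i ≤ 2 s - 1 - j ≤ m - 1`.
(3) `x ≥ 2 s + 3 + j`: `exL p t = m - x ≤ s - 1 - j ≤ s - 2`, `exH p t = 0`: `Ex c p` by `ex_of_sl`.
`x ≤ s - 1`: `exL = 0`, `exH = x - 1 ≤ s - 2`: `Ex c p` by `ex_of_sl`.
`s ≤ x ≤ s + 2 + j`: `FR.Far c s p y0 t`: `HH p t` = ones `∪ {y0}`, `2 s - j` elements; `NG p t = ∅`; `exL = 0`, `xH p y0 t = 0`, `bb y0 t = x - 1`.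
`e1`: `2 s - j + 1 ≤ 2 s`; `ex`: `s + 1 ≤ 2 s - j`; `big`: `s ≤ x`; `m1`, `m2`, `s4`, `card`: clear.  `ii s p t = 2 s - 1 - (2 s - j) - 0 = j - 1`.
`FR.no_far`: `hs5`, `hm1` clear, `hs6` (`s5`), `h5`: `m = 17` is `s = 5`, `j (j + 1) ≤ 5`, so `j = 1`, `ii = 0`; `hone`:
`j (j - 1 + 2) - s (1) ≤ s - 1 - (j - 1) - 0 - 0`, i.e. `j² + 2 j ≤ 2 s`: true.  So `False`.
-/

set_option autoImplicit false

namespace ZS44129
namespace X2

open Finset E N X1

variable {V : Type} [Fintype V] [DecidableEq V] {m : ℕ}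

private theorem out_nhit [NeZero m] {c : V → V → ZMod m} {s I : ℕ} (h : St c s I) {p y0 : V}
    (hy : y0 ≠ p) {j : ℕ}
    (h1 : (((univ.erase p).erase y0).filter (fun z => c p z = 1)).card + j + 1 = 2 * s)
    (h0 : (((univ.erase p).erase y0).filter (fun z => c p z = 0)).card = 2 * s + 1 + j)
    {i : ℕ} (hi1 : s ≤ i + j) (hi2 : i + j + 1 ≤ 2 * s) :
    (c p y0).val + i ≠ m := by
  classical
  intro hx
  have hm3 := h.m3
  have hs5 := h.s5
  obtain ⟨B, hB, hBc⟩ := exists_subset_card_eq
    (s := ((univ.erase p).erase y0).filter (fun z => c p z = 1)) (n := i) (by omega)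
  obtain ⟨A, hA, hAc⟩ := exists_subset_card_eq
    (s := ((univ.erase p).erase y0).filter (fun z => c p z = 0)) (n := m - 1 - i) (by omega)
  have hAv : ∀ x ∈ A, x ≠ y0 ∧ x ≠ p ∧ c p x = 0 := fun x hx => by
    have := hA hx
    rw [mem_filter, mem_erase, mem_erase] at this
    exact ⟨this.1.1, this.1.2.1, this.2⟩
  have hBv : ∀ x ∈ B, x ≠ y0 ∧ x ≠ p ∧ c p x = 1 := fun x hx => by
    have := hB hx
    rw [mem_filter, mem_erase, mem_erase] at this
    exact ⟨this.1.1, this.1.2.1, this.2⟩
  have hm1 : 1 < m := by omega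
  haveI : Fact (1 < m) := ⟨hm1⟩
  have hdis : Disjoint A B := by
    rw [disjoint_left]
    intro x hx hx'
    have e1 := (hAv x hx).2.2
    have e2 := (hBv x hx').2.2
    rw [e1] at e2
    exact zero_ne_one e2
  have hy0 : y0 ∉ A ∪ B := by
    rw [mem_union]
    rintro (h2 | h2)
    · exact (hAv y0 h2).1 rfl
    · exact (hBv y0 h2).1 rfl
  refine G.zsf_star c h.zsf (by omega) p ⟨insert y0 (A ∪ B), ?_, ?_, c p,
    fun x _ => mem_singleton_self _, ?_⟩
  · intro x hx
    rw [mem_insert, mem_union] at hx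
    rcases hx with rfl | hx | hx
    · exact mem_erase.2 ⟨hy, mem_univ _⟩
    · exact mem_erase.2 ⟨(hAv x hx).2.1, mem_univ _⟩
    · exact mem_erase.2 ⟨(hBv x hx).2.1, mem_univ _⟩
  · rw [card_insert_of_notMem hy0, card_union_of_disjoint hdis, hAc, hBc]
    omega
  · rw [sum_insert hy0, sum_union hdis, sum_congr rfl fun x hx => (hAv x hx).2.2,
      sum_congr rfl fun x hx => (hBv x hx).2.2, sum_const_zero, sum_const, hBc, zero_add,
      nsmul_eq_mul, mul_one]
    have h2 : (((c p y0).val : ℕ) : ZMod m) + (i : ZMod m) = 0 := by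
      rw [← Nat.cast_add, hx, ZMod.natCast_self]
    rwa [ZMod.natCast_zmod_val] at h2

/-- the values of the star of `p`. -/
private def tv (c : V → V → ZMod m) (p y0 : V) (x' : ℤ) (w : V) : ℤ :=
  if w = y0 then x' else if c p w = 1 then 1 else 0

private theorem tv_sum (c : V → V → ZMod m) (p y0 : V) (x' : ℤ) (A : Finset V) :
    ∑ w ∈ A, tv c p y0 x' w = (if y0 ∈ A then x' else 0) +
      ((A.erase y0).filter (fun z => c p z = 1)).card := by
  classical
  have h1 : ∑ w ∈ A.erase y0, tv c p y0 x' w =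
      ((A.erase y0).filter (fun z => c p z = 1)).card := by
    rw [card_filter]
    push_cast
    refine sum_congr rfl fun w hw => ?_
    unfold tv
    rw [if_neg (mem_erase.1 hw).1]
  by_cases h : y0 ∈ A
  · rw [if_pos h, ← h1, ← add_sum_erase A _ h]
    congr 1
    unfold tv
    rw [if_pos rfl]
  · rw [if_neg h, zero_add, ← h1, erase_eq_of_notMem h]

private theorem tv_sl [NeZero m] {c : V → V → ZMod m} {s I : ℕ} (h : St c s I) {p y0 : V}
    (hy : y0 ≠ p) (hv : ∀ z, z ≠ p → z ≠ y0 → c p z = 0 ∨ c p z = 1) {j : ℕ} (hjs : j + 2 ≤ s)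
    (h1 : (((univ.erase p).erase y0).filter (fun z => c p z = 1)).card + j + 1 = 2 * s)
    (h0 : (((univ.erase p).erase y0).filter (fun z => c p z = 0)).card = 2 * s + 1 + j)
    {x' : ℤ} (hc : (x' : ZMod m) = c p y0) (hx1 : (j : ℤ) + 1 ≤ x' + s) (hx2 : x' ≤ s + 2 + j) :
    SL c p (tv c p y0 x') := by
  classical
  have hm3 := h.m3
  refine ⟨?_, ?_⟩
  · intro w hw
    unfold tv
    by_cases h2 : w = y0
    · rw [if_pos h2, h2, hc]
    · rw [if_neg h2]
      rcases hv w hw h2 with h3 | h3
      · split_ifs with h4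
        · rw [h4, Int.cast_one]
        · rw [h3, Int.cast_zero]
      · rw [if_pos h3, h3, Int.cast_one]
  · intro A hA hAc
    rw [tv_sum]
    have e1 : ((A.erase y0).filter (fun z => c p z = 1)).card ≤
        (((univ.erase p).erase y0).filter (fun z => c p z = 1)).card := by
      apply card_le_card
      apply filter_subset_filter
      exact erase_subset_erase _ hA
    have e2 : ((A.erase y0).filter (fun z => ¬ c p z = 1)).card ≤
        (((univ.erase p).erase y0).filter (fun z => c p z = 0)).card := by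
      apply card_le_card
      intro z hz
      rw [mem_filter, mem_erase] at hz
      have h3 := mem_erase.1 (hA hz.1.2)
      rw [mem_filter, mem_erase, mem_erase]
      refine ⟨⟨hz.1.1, h3.1, mem_univ _⟩, ?_⟩
      rcases hv z h3.1 hz.1.1 with h4 | h4
      · exact h4
      · exact absurd h4 hz.2
    have e3 := card_filter_add_card_filter_not (s := A.erase y0) (fun z => c p z = 1)
    by_cases h2 : y0 ∈ A
    · rw [if_pos h2]
      have e4 := card_erase_add_one h2
      constructor
      · omega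
      · omega
    · rw [if_neg h2]
      rw [erase_eq_of_notMem h2] at e1 e2 e3 ⊢
      constructor
      · omega
      · omega

theorem out_ex [NeZero m] {c : V → V → ZMod m} {s I : ℕ} (h : St c s I) {p y0 : V}
    (hy : y0 ≠ p) (hv : ∀ z, z ≠ p → z ≠ y0 → c p z = 0 ∨ c p z = 1) {j : ℕ} (hj : 1 ≤ j)
    (hjI : j ≤ I) (h1 : (((univ.erase p).erase y0).filter (fun z => c p z = 1)).card + j + 1 = 2 * s)
    (h0 : (((univ.erase p).erase y0).filter (fun z => c p z = 0)).card = 2 * s + 1 + j) :
    Ex c p := by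
  classical
  have hm3 := h.m3
  have hs5 := h.s5
  have h3I := three_I h
  have hII : j * (j + 1) ≤ s := le_trans (Nat.mul_le_mul hjI (by omega)) h.hI
  have hxm : (c p y0).val < m := ZMod.val_lt _
  have hcv : (((c p y0).val : ℕ) : ZMod m) = c p y0 := ZMod.natCast_zmod_val _
  rcases Nat.lt_or_ge (c p y0).val 2 with hx | hx
  · intro w hw
    by_cases h2 : w = y0
    · rw [h2, ← hcv]
      interval_cases (c p y0).val
      · left
        rw [Nat.cast_zero]
      · right
        rw [Nat.cast_one]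
    · exact hv w hw h2
  have hgap : (c p y0).val ≤ s + 2 + j ∨ 2 * s + 3 + j ≤ (c p y0).val := by
    by_contra hcon
    push Not at hcon
    exact out_nhit h hy h1 h0 (i := m - (c p y0).val) (by omega) (by omega) (by omega)
  rcases hgap with hg | hg
  · -- the positive values
    have hSL : SL c p (tv c p y0 ((c p y0).val : ℤ)) := by
      refine tv_sl h hy hv (by omega) h1 h0 ?_ (by omega) (by omega)
      rw [Int.cast_natCast, hcv]
    have hnn : ∀ w, 0 ≤ tv c p y0 ((c p y0).val : ℤ) w := by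
      intro w
      unfold tv
      split_ifs <;> omega
    have hL : exL p (tv c p y0 ((c p y0).val : ℤ)) = 0 := by
      unfold exL
      refine sum_eq_zero fun w hw => ?_
      have h2 := (mem_LL.1 hw).2
      have h3 := hnn w
      omega
    have hyH : y0 ∈ HH p (tv c p y0 ((c p y0).val : ℤ)) := by
      rw [mem_HH]
      refine ⟨hy, ?_⟩
      unfold tv
      rw [if_pos rfl]
      omega
    have hHH : (HH p (tv c p y0 ((c p y0).val : ℤ))).erase y0 =
        ((univ.erase p).erase y0).filter (fun z => c p z = 1) := by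
      ext z
      rw [mem_erase, mem_HH, mem_filter, mem_erase, mem_erase]
      constructor
      · rintro ⟨h2, h3, h4⟩
        refine ⟨⟨h2, h3, mem_univ _⟩, ?_⟩
        unfold tv at h4
        rw [if_neg h2] at h4
        by_contra h5
        rw [if_neg h5] at h4
        omega
      · rintro ⟨⟨h2, h3, -⟩, h4⟩
        refine ⟨h2, h3, ?_⟩
        unfold tv
        rw [if_neg h2, if_pos h4]
    have hone : ∀ w ∈ (HH p (tv c p y0 ((c p y0).val : ℤ))).erase y0,
        tv c p y0 ((c p y0).val : ℤ) w - 1 = 0 := by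
      intro w hw
      have h2 := (mem_erase.1 hw).1
      rw [hHH, mem_filter] at hw
      unfold tv
      rw [if_neg h2, if_pos hw.2]
      omega
    have hy0v : tv c p y0 ((c p y0).val : ℤ) y0 = ((c p y0).val : ℤ) := by
      unfold tv
      rw [if_pos rfl]
    have hH : exH p (tv c p y0 ((c p y0).val : ℤ)) = ((c p y0).val : ℤ) - 1 := by
      unfold exH
      rw [← add_sum_erase _ _ hyH, sum_eq_zero hone, add_zero, hy0v]
    rcases Nat.lt_or_ge (c p y0).val s with hxs | hxs
    · exact ex_of_sl h hSL (by omega) (by omega)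
    · exfalso
      have hHc : (HH p (tv c p y0 ((c p y0).val : ℤ))).card + j = 2 * s := by
        have h2 := card_erase_add_one hyH
        rw [hHH] at h2
        omega
      have hNG : FR.NG p (tv c p y0 ((c p y0).val : ℤ)) = ∅ := by
        unfold FR.NG
        rw [filter_eq_empty_iff]
        intro w _
        have := hnn w
        omega
      have hNGc : (FR.NG p (tv c p y0 ((c p y0).val : ℤ))).card = 0 := by
        rw [hNG, card_empty]
      have hxH : FR.xH p y0 (tv c p y0 ((c p y0).val : ℤ)) = 0 := by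
        unfold FR.xH FR.Hp
        exact sum_eq_zero hone
      have hbb : FR.bb y0 (tv c p y0 ((c p y0).val : ℤ)) = ((c p y0).val : ℤ) - 1 := by
        unfold FR.bb
        rw [hy0v]
      have hii : FR.ii s p (tv c p y0 ((c p y0).val : ℤ)) = j - 1 := by
        unfold FR.ii
        omega
      have hF : FR.Far c s p y0 (tv c p y0 ((c p y0).val : ℤ)) := by
        refine ⟨hSL, h.card, by omega, by omega, by omega, hyH, by omega, ?_, ?_⟩
        · rw [hL, hxH]
          omega
        · rw [hxH, hbb]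
          omega
      refine FR.no_far h.sym h.zsf hF (by omega) (by omega) (by omega) ?_ ?_
      · rintro ⟨h2, h3⟩
        have h4 : s = 5 := by omega
        rw [hii] at h3
        have h5 : j = 2 := by omega
        rw [h4, h5] at hII
        omega
      · rw [hii, hL, hxH]
        have h2 : (m : ℤ) = 3 * s + 2 := by exact_mod_cast hm3
        have h3 : (j : ℤ) * (j + 1) ≤ s := by exact_mod_cast hII
        have h4 : (j : ℤ) ≤ s := by omega
        rw [h2]
        nlinarith
  · -- the negative value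
    have hSL : SL c p (tv c p y0 (((c p y0).val : ℤ) - m)) := by
      refine tv_sl h hy hv (by omega) h1 h0 ?_ (by omega) (by omega)
      push_cast
      rw [hcv, ZMod.natCast_self, sub_zero]
    have hother : ∀ w, w ≠ y0 → 0 ≤ tv c p y0 (((c p y0).val : ℤ) - m) w ∧
        tv c p y0 (((c p y0).val : ℤ) - m) w ≤ 1 := by
      intro w hw
      unfold tv
      rw [if_neg hw]
      split_ifs <;> omega
    have hy0v : tv c p y0 (((c p y0).val : ℤ) - m) y0 = ((c p y0).val : ℤ) - m := by
      unfold tv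
      rw [if_pos rfl]
    have hyL : y0 ∈ LL p (tv c p y0 (((c p y0).val : ℤ) - m)) := by
      rw [mem_LL]
      refine ⟨hy, ?_⟩
      rw [hy0v]
      omega
    refine ex_of_sl h hSL ?_ ?_
    · have h2 : exL p (tv c p y0 (((c p y0).val : ℤ) - m)) = m - ((c p y0).val : ℤ) := by
        unfold exL
        rw [← add_sum_erase _ _ hyL, sum_eq_zero, add_zero, hy0v]
        · omega
        · intro w hw
          have h3 := mem_erase.1 hw
          have h4 := (hother w h3.1).1
          have h5 := (mem_LL.1 h3.2).2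
          omega
      rw [h2]
      omega
    · have h2 : exH p (tv c p y0 (((c p y0).val : ℤ) - m)) = 0 := by
        unfold exH
        refine sum_eq_zero fun w hw => ?_
        have h3 := (mem_HH.1 hw).2
        by_cases h4 : w = y0
        · rw [h4, hy0v] at h3
          omega
        · have h5 := (hother w h4).2
          omega
      rw [h2]
      omega

end X2
end ZS44129
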