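import Mathlib
import Pool.Agent.Work.MP_44129c_co.X2.Defs
import Pool.Agent.Work.MP_44129c_co.G.Pair

/-!
# MP_44129c_co/X2, Unit (size M): the difference of the two main colours is a unit

`A = cla c p a`, `B = cla c p b`, `f = |A| ≥ f' = |B|`, `f + f' ≥ 4 s`, `f ≤ 2 s + 1 + I`; so `f ≥ 2 s`, `f' ≥ 2 s - 1 - I`.  `d = b - a`.  `m = 3 s + 2`.
PROOF.  (1) For `i` with `m - f ≤ i ≤ f'` (and `i ≤ m`): `i • d ≠ 0`: take `i` elements of `B` and `m - i ≤ f` elements of `A`; the star of `p` with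
these `m` leaves has the sum `i b + (m - i) a = i d + m a = i d`, not `0` by `G.zsf_star` (`Att` with singletons; `i + (m - i) = m`).
(2) `r = addOrderOf d` divides `m` (`ZMod`: `addOrderOf_dvd_card` or `m • d = 0`), `r ≥ 2` (`d ≠ 0`).  `r • (k • d) = 0`: no multiple of `r` is in `[m - f, f']`.
`[m - f, f']` contains the `s - 1` consecutive integers `m - f, …, 4 s - f` (`4 s - f ≤ f'`).  If `r ≤ s - 1` one of them is a multiple of `r`
(e.g. `r * ((4 s - f) / r)`).  So `r ≥ s`.
(3) `m = r q`.  `q ≥ 4` gives `4 s ≤ m = 3 s + 2`, no.  `q = 3`: `3 ∣ 3 s + 2`, no.  `q = 2`: `s` is even, `s ≥ 8` (`s5`), `r = m / 2`, `2 r = 3 s + 2`;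
`m - f ≤ s + 2 ≤ r` and `r ≤ 2 s - 1 - I ≤ f'` (`3 s + 2 ≤ 4 s - 2 - 2 I` iff `s ≥ 2 I + 4`; from `3 I + 2 ≤ s`, `three_I`, and `s ≥ 8`): `r` itself is in
`[m - f, f']`, contradiction to (1).  So `q = 1`: `r = m`, and `d` is a unit (`ZMod.addOrderOf_coe`, or: `x ↦ x * d` is injective on `ZMod m`, as
`k d = 0` implies `m ∣ k`; e.g. `d` is not a zero divisor).
-/

set_option autoImplicit false

namespace ZS44129
namespace X2

open Finset E N X1

variable {V : Type} [Fintype V] [DecidableEq V] {m : ℕ}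

private theorem smul_ne {c : V → V → ZMod m} {s I : ℕ} [NeZero m] (h : St c s I) {p : V} {a b : ZMod m}
    (hab : a ≠ b) {i : ℕ} (him : i ≤ m) (hi1 : m ≤ i + (cla c p a).card)
    (hi2 : i ≤ (cla c p b).card) : i • (b - a) ≠ 0 := by
  classical
  intro h0
  obtain ⟨B, hB, hBc⟩ := exists_subset_card_eq hi2
  obtain ⟨A, hA, hAc⟩ := exists_subset_card_eq (s := cla c p a) (n := m - i) (by omega)
  have hAv : ∀ x ∈ A, x ≠ p ∧ c p x = a := fun x hx => by
    have := hA hx
    unfold cla at this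
    rw [mem_filter, mem_erase] at this
    exact ⟨this.1.1, this.2⟩
  have hBv : ∀ x ∈ B, x ≠ p ∧ c p x = b := fun x hx => by
    have := hB hx
    unfold cla at this
    rw [mem_filter, mem_erase] at this
    exact ⟨this.1.1, this.2⟩
  have hdis : Disjoint A B := by
    rw [disjoint_left]
    intro x hx hx'
    exact hab ((hAv x hx).2.symm.trans (hBv x hx').2)
  have hm : 1 ≤ m := Nat.one_le_iff_ne_zero.2 (NeZero.ne m)
  refine G.zsf_star c h.zsf hm p ⟨A ∪ B, ?_, ?_, c p, fun x _ => mem_singleton_self _, ?_⟩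
  · intro x hx
    rw [mem_union] at hx
    rcases hx with hx | hx
    · exact mem_erase.2 ⟨(hAv x hx).1, mem_univ _⟩
    · exact mem_erase.2 ⟨(hBv x hx).1, mem_univ _⟩
  · rw [card_union_of_disjoint hdis, hAc, hBc]
    omega
  · rw [sum_union hdis, sum_congr rfl fun x hx => (hAv x hx).2,
      sum_congr rfl fun x hx => (hBv x hx).2, sum_const, sum_const, hAc, hBc]
    have h1 : (m - i) • a + i • b = m • a + i • (b - a) := by
      have h2 : (m - i) • a + i • a = m • a := by
        rw [← add_smul]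
        congr 1
        omega
      rw [← h2, smul_sub]
      abel
    rw [h1, h0, add_zero, nsmul_eq_mul, ZMod.natCast_self, zero_mul]

theorem isUnit_sub [NeZero m] {c : V → V → ZMod m} {s I : ℕ} (h : St c s I) {p : V} {a b : ZMod m}
    (hab : a ≠ b) (h1 : (cla c p b).card ≤ (cla c p a).card)
    (h2 : 4 * s ≤ (cla c p a).card + (cla c p b).card) : IsUnit (b - a) := by
  classical
  have hm : 0 < m := Nat.pos_of_ne_zero (NeZero.ne m)
  have h3 := three_I h
  have h4 := h.cl p a
  have h5 := h.m3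
  have h6 := h.s5
  have hr1 : addOrderOf (b - a) ∣ m := by
    rw [addOrderOf_dvd_iff_nsmul_eq_zero, nsmul_eq_mul, ZMod.natCast_self, zero_mul]
  have hr0 : 0 < addOrderOf (b - a) := Nat.pos_of_dvd_of_pos hr1 hm
  have hno : ∀ k : ℕ, m ≤ addOrderOf (b - a) * k + (cla c p a).card →
      ¬ addOrderOf (b - a) * k ≤ (cla c p b).card := by
    intro k hk1 hk2
    refine smul_ne h hab (i := addOrderOf (b - a) * k) (by omega) hk1 hk2 ?_
    rw [mul_comm, mul_smul, addOrderOf_nsmul_eq_zero, smul_zero]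
  generalize hr : addOrderOf (b - a) = r at *
  generalize hf : (cla c p a).card = f at *
  generalize hf' : (cla c p b).card = f' at *
  have hrs : s ≤ r := by
    by_contra hcon
    push Not at hcon
    have e1 : r * ((4 * s - f) / r) ≤ 4 * s - f := Nat.mul_div_le _ _
    have e2 : 4 * s - f < r * ((4 * s - f) / r) + r := by
      have e3 := Nat.div_add_mod (4 * s - f) r
      have e4 := Nat.mod_lt (4 * s - f) hr0
      omega
    exact hno ((4 * s - f) / r) (by omega) (by omega)
  obtain ⟨q, hq⟩ := hr1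
  have hq4 : q < 4 := by
    by_contra hcon
    push Not at hcon
    have : r * 4 ≤ r * q := Nat.mul_le_mul_left r hcon
    omega
  have hrm : r = m := by
    interval_cases q
    · omega
    · omega
    · exfalso
      refine hno 1 (by omega) (by omega)
    · exfalso
      omega
  have h7 : b - a = (((b - a).val : ℕ) : ZMod m) := (ZMod.natCast_zmod_val _).symm
  rw [h7] at hr ⊢
  rw [ZMod.addOrderOf_coe _ hm.ne'] at hr
  rw [ZMod.isUnit_iff_coprime]
  rw [hrm] at hr
  have h8 : Nat.gcd m (b - a).val ∣ m := Nat.gcd_dvd_left _ _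
  have h9 : Nat.gcd m (b - a).val = 1 := by
    obtain ⟨t, ht⟩ := h8
    have hg0 : 0 < Nat.gcd m (b - a).val := Nat.gcd_pos_of_pos_left _ hm
    have h10 : m / Nat.gcd m (b - a).val = t := Nat.div_eq_of_eq_mul_right hg0 ht
    rw [h10] at hr
    rw [hr] at ht
    have h11 : 1 * m = Nat.gcd m (b - a).val * m := by rw [one_mul]; exact ht
    exact (Nat.eq_of_mul_eq_mul_right hm h11).symm
  rw [Nat.coprime_comm]
  exact h9

end X2
end ZS44129
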