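import Mathlib
import Pool.Agent.Work.MP_44129c_co.X2.Unit
import Pool.Agent.Work.MP_44129c_co.X2.Out

/-!
# MP_44129c_co/X2, Star (size M): a vertex with two main classes is exact

PROOF.  `d = b - a` is a unit (`isUnit_sub`): `d = (e : ZMod m)`, `g = e⁻¹`, `β = g a`; `c' x y = g c x y - β` has `c' p z = 0` on `A = cla c p a` and
`c' p z = g (b - a) = 1` on `B = cla c p b`.  `A`, `B` are disjoint subsets of `univ.erase p` (`4 s + 1` elements).
* `|A| + |B| = 4 s + 1`: `A ∪ B = univ.erase p`, so `Ex c' p`.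
* `|A| + |B| = 4 s`: `univ.erase p` = `A ∪ B ∪ {y0}`; `|A| = 2 s + 1 + j` with `1 ≤ j ≤ I` (`h.cl`), `|B| = 2 s - 1 - j`.  If `c' p y0` is `0` or `1`
  then `Ex c' p` (it would be in `A` or `B`; either way).  Otherwise the zeros (ones) of `c' p` in `(univ.erase p).erase y0` are exactly `A` (`B`):
  `out_ex` with `st_affine h g β`.
-/

set_option autoImplicit false

namespace ZS44129
namespace X2

open Finset E N X1

variable {V : Type} [Fintype V] [DecidableEq V] {m : ℕ}

private theorem mem_cla' {c : V → V → ZMod m} {u w : V} {a : ZMod m} :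
    w ∈ cla c u a ↔ w ≠ u ∧ c u w = a := by
  unfold cla
  rw [mem_filter, mem_erase]
  exact ⟨fun h => ⟨h.1.1, h.2⟩, fun h => ⟨⟨h.1, mem_univ w⟩, h.2⟩⟩

theorem ex_of_two [NeZero m] {c : V → V → ZMod m} {s I : ℕ} (h : St c s I) {p : V} {a b : ZMod m}
    (hab : a ≠ b) (h1 : (cla c p b).card ≤ (cla c p a).card)
    (h2 : (cla c p a).card + (cla c p b).card = 4 * s + 1 ∨
        ((cla c p a).card + (cla c p b).card = 4 * s ∧ 2 * s + 2 ≤ (cla c p a).card)) :
    ∃ (g : (ZMod m)ˣ) (β : ZMod m), Ex (fun x y => (g : ZMod m) * c x y - β) p := by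
  obtain ⟨e, he⟩ := isUnit_sub h hab h1 (by omega)
  have hm0 : m ≠ 1 := by have := h.m3; omega
  set g : (ZMod m)ˣ := e⁻¹ with hg
  have hge : (g : ZMod m) * (b - a) = 1 := by
    rw [← he, hg, ← Units.val_mul, inv_mul_cancel, Units.val_one]
  have hd : Disjoint (cla c p a) (cla c p b) := by
    rw [disjoint_left]
    intro x hx hx'
    exact hab ((mem_cla'.1 hx).2.symm.trans (mem_cla'.1 hx').2)
  have hsub : cla c p a ∪ cla c p b ⊆ univ.erase p := by
    intro x hx
    rcases mem_union.1 hx with hx | hx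
    · exact mem_erase.2 ⟨(mem_cla'.1 hx).1, mem_univ x⟩
    · exact mem_erase.2 ⟨(mem_cla'.1 hx).1, mem_univ x⟩
  have hcard : (univ.erase p).card = 4 * s + 1 := by
    have := card_erase_add_one (mem_univ p)
    rw [card_univ, h.card, h.m3] at this
    omega
  have hcu : (cla c p a ∪ cla c p b).card = (cla c p a).card + (cla c p b).card :=
    card_union_of_disjoint hd
  have ha0 : ∀ x, x ∈ cla c p a → (g : ZMod m) * c p x - g * a = 0 := by
    intro x hx
    rw [(mem_cla'.1 hx).2, sub_self]
  have hb1 : ∀ x, x ∈ cla c p b → (g : ZMod m) * c p x - g * a = 1 := by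
    intro x hx
    rw [(mem_cla'.1 hx).2, ← mul_sub, hge]
  refine ⟨g, g * a, ?_⟩
  rcases h2 with h2 | ⟨h2, h3⟩
  · have heq : cla c p a ∪ cla c p b = univ.erase p :=
      eq_of_subset_of_card_le hsub (by rw [hcard, hcu, h2])
    intro w hw
    have hw' : w ∈ cla c p a ∪ cla c p b := by
      rw [heq]
      exact mem_erase.2 ⟨hw, mem_univ w⟩
    rcases mem_union.1 hw' with hx | hx
    · exact Or.inl (ha0 w hx)
    · exact Or.inr (hb1 w hx)
  · have hsd : ((univ.erase p) \ (cla c p a ∪ cla c p b)).card = 1 := by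
      rw [card_sdiff_of_subset hsub, hcard, hcu, h2]
      omega
    obtain ⟨y0, hy0⟩ := card_eq_one.1 hsd
    have hym : y0 ∈ (univ.erase p) \ (cla c p a ∪ cla c p b) := by
      rw [hy0]
      exact mem_singleton_self y0
    have hyp : y0 ≠ p := (mem_erase.1 (mem_sdiff.1 hym).1).1
    have hyn := (mem_sdiff.1 hym).2
    have hall : ∀ z, z ≠ p → z ≠ y0 → z ∈ cla c p a ∨ z ∈ cla c p b := by
      intro z hz hzy
      by_contra hc
      have : z ∈ (univ.erase p) \ (cla c p a ∪ cla c p b) := by
        rw [mem_sdiff, mem_union]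
        exact ⟨mem_erase.2 ⟨hz, mem_univ z⟩, hc⟩
      rw [hy0, mem_singleton] at this
      exact hzy this
    have hone : (1 : ZMod m) ≠ 0 := by
      intro h10
      have h' : ((1 : ℕ) : ZMod m) = 0 := by exact_mod_cast h10
      rw [ZMod.natCast_eq_zero_iff] at h'
      exact hm0 (Nat.dvd_one.1 h')
    have hcl := h.cl p a
    have key := out_ex (st_affine h g (g * a)) (p := p) (y0 := y0) hyp
      (fun z hz hzy => (hall z hz hzy).imp (ha0 z) (hb1 z))
      (j := (cla c p a).card - (2 * s + 1)) (by omega) (by omega) ?_ ?_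
    · exact key
    · have : ((univ.erase p).erase y0).filter (fun z => (g : ZMod m) * c p z - g * a = 1) =
          cla c p b := by
        ext z
        rw [mem_filter, mem_erase, mem_erase]
        constructor
        · rintro ⟨⟨hzy, hzp, _⟩, hz1⟩
          rcases hall z hzp hzy with hz | hz
          · exact absurd ((ha0 z hz).symm.trans hz1) (Ne.symm hone)
          · exact hz
        · intro hz
          refine ⟨⟨?_, (mem_cla'.1 hz).1, mem_univ z⟩, hb1 z hz⟩
          rintro rfl
          exact hyn (mem_union_right _ hz)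
      rw [this]
      omega
    · have : ((univ.erase p).erase y0).filter (fun z => (g : ZMod m) * c p z - g * a = 0) =
          cla c p a := by
        ext z
        rw [mem_filter, mem_erase, mem_erase]
        constructor
        · rintro ⟨⟨hzy, hzp, _⟩, hz1⟩
          rcases hall z hzp hzy with hz | hz
          · exact hz
          · exact absurd ((hb1 z hz).symm.trans hz1) hone
        · intro hz
          refine ⟨⟨?_, (mem_cla'.1 hz).1, mem_univ z⟩, ha0 z hz⟩
          rintro rfl
          exact hyn (mem_union_left _ hz)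
      rw [this]
      omega

end X2
end ZS44129
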