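import Mathlib
import Pool.Agent.Work.MP_44129c_co.X2.Defs

/-!
# MP_44129c_co/X2, Uniq (size M-L): at most one partner

`F : Fr … u v g θ ζ a P Q ex` and `F' : Fr … u v' g' θ' ζ' a' P' Q' ex'` with `P, Q, P', Q' ≥ I + 1`.  Claim: `v = v'`.
PROOF.  Suppose `v ≠ v'`.  `Z = V \ {u, v, v'}`, `|Z| = 4 s - 1`; `v' ∈ XX u v`, `v ∈ XX u v'`.  `m = 3 s + 2`, `3 I + 2 ≤ s` (`three_I`),
`fr_facts`: `ex, ex' ≤ 2 I`, so `|a z| ≤ I + 1` on `XX u v` (`one`: `2 |a z| ≤ 2 I + 3`), `|a' z| ≤ I + 1` on `XX u v'`.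
`ζ ≥ 1 + Q ≥ I + 2`, `ζ ≤ m - 1 - P ≤ m - I - 2`; the same for `ζ'`.
(U) If `k g = 0` in `ZMod m` (`k : ℤ`, `g` a unit) and `|k| < m` then `k = 0` (`Int.eq_zero_of_abs_lt_dvd` or so).
(1) `θ' = θ`.  For `z ∈ Z`: `(a z) g = (a' z) g'`, so `a z ≠ 0 ↔ a' z ≠ 0`.  `#{z ∈ Z : a z ≠ 0} ≥ #{z ∈ XX u v : a z ≠ 0} - 1 ≥ 2 s - 2 - I`;
  `#{z ∈ XX u v : |a z| ≥ 2} ≤ ∑ max (|a z| - 1) 0 ≤ ex ≤ 2 I`, the same for `a'`.  `2 s - 2 - I > 4 I`, so some `z ∈ Z` has `|a z| = 1` and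
  `|a' z| = 1` (`a' z ≠ 0` as `a z ≠ 0`).  So `g' = g` or `g' = - g`: `g' = ε g`, `ε = ± 1`.
  `c u v = θ + ζ g = θ + (a' v) g' = θ + ε (a' v) g`: `(ζ - ε a' v) g = 0`; but `1 ≤ ζ - ε a' v ≤ m - 1` (`|a' v| ≤ I + 1`).  Contradiction with (U).
(2) `θ' ≠ θ`.  Let `T' = {z ∈ Z : a' z = 0}`.  `#{z ∈ XX u v' : a' z = 0} = 4 s - #{a' ≠ 0} ≥ 2 s + 1 - I + ex'` (`fr_facts`), so
  `|T'| ≥ 2 s - I + ex' ≥ 1`.  For `z ∈ T'`: `θ' = c u z = θ + (a z) g`; by (U) (`|a z - a z'| ≤ 2 I + 2 < m`) `a z = κ` is constant on `T'`, `κ ≠ 0`.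
  If `|κ| ≥ 2`: `ex ≥ ∑ max (|a z| - 1) 0 ≥ |T'| ≥ 2 s - I > 2 I ≥ ex`, a contradiction.  So `θ' = θ + κ g`, `κ = ± 1`.
  [Lemma `side`: state this for `F, F'` and use it a second time for `F', F`.]  In the same way `θ = θ' + κ' g'`, `κ' = ± 1`.
  So `κ' g' = - κ g`, `g' = ε g` with `ε = - κ κ'`.
  `c u v = θ + ζ g = θ' + (a' v) g' = θ + κ g + ε (a' v) g`: `(ζ - κ - ε a' v) g = 0`, and
  `0 ≤ ζ - κ - ε a' v ≤ m` (`ζ ∈ [I + 2, m - I - 2]`, `|κ + ε a' v| ≤ I + 2`): so it is `0` or `m`, and in both cases `|a' v| = I + 1`.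
  So `2 (I + 1) ≤ ex' + 3`, `ex' ≥ 2 I - 1`.  In the same way (exchange `F`, `F'`) `|a v'| = I + 1`, `ex ≥ 2 I - 1`.
  `T = {z ∈ XX u v : a z = 0}` has `≥ 2 s + 1 - I + ex ≥ 2 s + I` elements, `v'` is not in it (`a v' ≠ 0`), so `T ⊆ Z`, all of colour `θ`;
  `{z ∈ XX u v' : a' z = 0}` has `≥ 2 s + I` elements, all in `Z`, of colour `θ' ≠ θ`.  So `4 s + 2 I ≤ |Z| = 4 s - 1`: contradiction.
-/

set_option autoImplicit false

namespace ZS44129
namespace X2

open Finset E N X1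

variable {V : Type} [Fintype V] [DecidableEq V] {m : ℕ}

private theorem cancel {g : (ZMod m)ˣ} {k : ℤ} (h : (k : ZMod m) * (g : ZMod m) = 0) : (m : ℤ) ∣ k :=
  (ZMod.intCast_zmod_eq_zero_iff_dvd k m).mp ((Units.mul_left_eq_zero g).mp h)

private theorem cancel0 {g : (ZMod m)ˣ} {k : ℤ} (h : (k : ZMod m) * (g : ZMod m) = 0) (h1 : |k| < m) : k = 0 :=
  Int.eq_zero_of_abs_lt_dvd (cancel h) h1

private theorem mXX {u v z : V} : z ∈ XX u v ↔ z ≠ v ∧ z ≠ u := by
  unfold XX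
  rw [mem_erase, mem_erase]
  exact ⟨fun h => ⟨h.1, h.2.1⟩, fun h => ⟨h.1, h.2, mem_univ _⟩⟩

private theorem cXX {c : V → V → ZMod m} {s I : ℕ} (h : St c s I) {u v : V} (huv : u ≠ v) :
    (XX u v).card = 4 * s := by
  have h1 := h.card
  have h2 := h.m3
  unfold XX
  rw [card_erase_of_mem (mem_erase.mpr ⟨huv.symm, mem_univ _⟩), card_erase_of_mem (mem_univ _), card_univ]
  omega

private theorem small {c : V → V → ZMod m} {s I : ℕ} (h : St c s I) {u v : V} {g : (ZMod m)ˣ}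
    {θ : ZMod m} {ζ : ℤ} {a : V → ℤ} {P Q ex : ℤ} (F : Fr c s I u v g θ ζ a P Q ex) {z : V}
    (hz : z ∈ XX u v) : |a z| ≤ I + 1 := by
  have h1 := F.one z hz
  obtain ⟨_, _, _, h2, _⟩ := fr_facts h F
  omega

private theorem bigc {c : V → V → ZMod m} {s I : ℕ} {u v : V} {g : (ZMod m)ˣ}
    {θ : ZMod m} {ζ : ℤ} {a : V → ℤ} {P Q ex : ℤ} (F : Fr c s I u v g θ ζ a P Q ex) (T : Finset V)
    (hT : T ⊆ XX u v) (h2 : ∀ z ∈ T, 2 ≤ |a z|) : (T.card : ℤ) ≤ ex := by
  calc (T.card : ℤ) = ∑ z ∈ T, (1 : ℤ) := by simp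
    _ ≤ ∑ z ∈ T, max (|a z| - 1) 0 := by
        apply sum_le_sum
        intro z hz
        have := h2 z hz
        exact le_max_of_le_left (by omega)
    _ ≤ ∑ z ∈ XX u v, max (|a z| - 1) 0 :=
        sum_le_sum_of_subset_of_nonneg hT (fun z _ _ => le_max_right _ _)
    _ ≤ ex := F.sex

private theorem zeroc {c : V → V → ZMod m} {s I : ℕ} (h : St c s I) {u v : V} {g : (ZMod m)ˣ}
    {θ : ZMod m} {ζ : ℤ} {a : V → ℤ} {P Q ex : ℤ} (F : Fr c s I u v g θ ζ a P Q ex) :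
    2 * s + 1 - I + ex ≤ (((XX u v).filter (fun z => a z = 0)).card : ℤ) := by
  have h1 := cXX h F.ne
  have h2 := card_filter_add_card_filter_not (s := XX u v) (fun z => a z = 0)
  obtain ⟨_, _, _, _, _, h3, _⟩ := fr_facts h F
  have h4 : (XX u v).filter (fun z => a z ≠ 0) = (XX u v).filter (fun z => ¬ a z = 0) := rfl
  rw [h4] at h3
  omega

private theorem side {c : V → V → ZMod m} {s I : ℕ} (h : St c s I) {u v v' : V}
    {g g' : (ZMod m)ˣ} {θ θ' : ZMod m} {ζ ζ' : ℤ} {a a' : V → ℤ} {P Q ex P' Q' ex' : ℤ}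
    (F : Fr c s I u v g θ ζ a P Q ex) (F' : Fr c s I u v' g' θ' ζ' a' P' Q' ex') (hθ : θ' ≠ θ) :
    ∃ κ : ℤ, (κ = 1 ∨ κ = -1) ∧ θ' = θ + (κ : ZMod m) * (g : ZMod m) := by
  have hI3 := three_I h
  have hm : (m : ℤ) = 3 * s + 2 := by exact_mod_cast h.m3
  obtain ⟨e0, _, _, e1, _⟩ := fr_facts h F
  obtain ⟨e0', _⟩ := fr_facts h F'
  set T := ((XX u v').filter (fun z => a' z = 0)).erase v with hT
  have hTX : T ⊆ XX u v := by
    intro z hz
    rw [hT, mem_erase, mem_filter, mXX] at hz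
    rw [mXX]
    exact ⟨hz.1, hz.2.1.2⟩
  have hTc : (2 : ℤ) * s - I ≤ T.card := by
    have h1 := zeroc h F'
    have h2 : ((XX u v').filter (fun z => a' z = 0)).card - 1 ≤ T.card := pred_card_le_card_erase
    omega
  have hcol : ∀ z ∈ T, θ' = θ + (a z : ZMod m) * (g : ZMod m) := by
    intro z hz
    have hz1 := hTX hz
    rw [hT, mem_erase, mem_filter] at hz
    have h1 := F'.col z hz.2.1
    rw [hz.2.2, Int.cast_zero, zero_mul, add_zero] at h1
    rw [← h1, F.col z hz1]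
  have hne : T.Nonempty := by
    rw [← card_pos]
    omega
  obtain ⟨z1, hz1⟩ := hne
  have hconst : ∀ z ∈ T, a z = a z1 := by
    intro z hz
    have h1 := hcol z hz
    rw [hcol z1 hz1] at h1
    have h2 : ((a z - a z1 : ℤ) : ZMod m) * (g : ZMod m) = 0 := by
      push_cast
      have h3 := add_left_cancel h1
      rw [sub_mul, h3, sub_self]
    have h3 := small h F (hTX hz)
    have h4 := small h F (hTX hz1)
    have h5 := cancel0 h2 (by
      rw [abs_lt]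
      rw [abs_le] at h3 h4
      constructor <;> omega)
    omega
  have hk0 : a z1 ≠ 0 := by
    intro h0
    have h1 := hcol z1 hz1
    rw [h0, Int.cast_zero, zero_mul, add_zero] at h1
    exact hθ h1
  refine ⟨a z1, ?_, hcol z1 hz1⟩
  by_contra hcon
  rw [not_or] at hcon
  have h2 : ∀ z ∈ T, 2 ≤ |a z| := by
    intro z hz
    rw [hconst z hz]
    rcases abs_cases (a z1) with ⟨h3, _⟩ | ⟨h3, _⟩ <;> omega
  have h3 := bigc F T hTX h2
  omega

private theorem side2 {c : V → V → ZMod m} {s I : ℕ} (h : St c s I) {u v v' : V}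
    {g g' : (ZMod m)ˣ} {θ θ' : ZMod m} {ζ ζ' : ℤ} {a a' : V → ℤ} {P Q ex P' Q' ex' : ℤ}
    (F : Fr c s I u v g θ ζ a P Q ex) (F' : Fr c s I u v' g' θ' ζ' a' P' Q' ex')
    (h1 : I + 1 ≤ P) (h2 : I + 1 ≤ Q) (hvv : v ≠ v') {κ κ' : ℤ} (hk : κ = 1 ∨ κ = -1)
    (hk' : κ' = 1 ∨ κ' = -1) (e : θ' = θ + (κ : ZMod m) * (g : ZMod m))
    (e' : θ = θ' + (κ' : ZMod m) * (g' : ZMod m)) : I + 1 ≤ |a' v| := by
  have hI3 := three_I h
  have hm : (m : ℤ) = 3 * s + 2 := by exact_mod_cast h.m3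
  have hv : v ∈ XX u v' := mXX.mpr ⟨hvv, F.ne.symm⟩
  have hsm := small h F' hv
  have hg : (g' : ZMod m) = ((-(κ * κ') : ℤ) : ZMod m) * (g : ZMod m) := by
    have h3 : (κ : ZMod m) * (g : ZMod m) + (κ' : ZMod m) * (g' : ZMod m) = 0 := by
      rw [e] at e'
      have : θ + ((κ : ZMod m) * (g : ZMod m) + (κ' : ZMod m) * (g' : ZMod m)) = θ + 0 := by
        rw [add_zero, ← add_assoc]
        exact e'.symm
      exact add_left_cancel this
    have h4 : (κ' : ZMod m) * (κ' : ZMod m) = 1 := by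
      rcases hk' with rfl | rfl <;> simp
    have h5 : (g' : ZMod m) = (κ' : ZMod m) * ((κ' : ZMod m) * (g' : ZMod m)) := by
      rw [← mul_assoc, h4, one_mul]
    have h6 : (κ' : ZMod m) * (g' : ZMod m) = - ((κ : ZMod m) * (g : ZMod m)) :=
      eq_neg_of_add_eq_zero_right h3
    rw [h5, h6]
    push_cast
    ring
  have h3 : ((ζ - κ + κ * κ' * a' v : ℤ) : ZMod m) * (g : ZMod m) = 0 := by
    have h4 := F.cv
    rw [F'.col v hv, e, hg, add_assoc] at h4
    have h5 := add_left_cancel h4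
    have h6 : ((ζ - κ + κ * κ' * a' v : ℤ) : ZMod m) * (g : ZMod m) =
        (ζ : ZMod m) * (g : ZMod m) - ((κ : ZMod m) * (g : ZMod m) +
          (a' v : ZMod m) * (((-(κ * κ') : ℤ) : ZMod m) * (g : ZMod m))) := by
      push_cast
      ring
    rw [h6, h5, sub_self]
  obtain ⟨q, hq⟩ := cancel h3
  have hlo := F.lo
  have hhi := F.hi
  by_contra hcon
  have hA : |a' v| ≤ I := by omega
  rw [abs_le] at hA
  have hrange : 0 < ζ - κ + κ * κ' * a' v ∧ ζ - κ + κ * κ' * a' v < m := by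
    rcases hk with rfl | rfl <;> rcases hk' with rfl | rfl <;> constructor <;> omega
  rw [hq] at hrange
  have hmpos : (0 : ℤ) < m := by omega
  have hq1 : 0 < q := by
    by_contra hq1
    have : (m : ℤ) * q ≤ 0 := mul_nonpos_of_nonneg_of_nonpos hmpos.le (by omega)
    omega
  have hq2 : (m : ℤ) * 1 ≤ m * q := mul_le_mul_of_nonneg_left (by omega) hmpos.le
  omega

theorem fr_uniq [NeZero m] {c : V → V → ZMod m} {s I : ℕ} (h : St c s I) {u v v' : V}
    {g g' : (ZMod m)ˣ} {θ θ' : ZMod m} {ζ ζ' : ℤ} {a a' : V → ℤ} {P Q ex P' Q' ex' : ℤ}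
    (F : Fr c s I u v g θ ζ a P Q ex) (F' : Fr c s I u v' g' θ' ζ' a' P' Q' ex')
    (h1 : I + 1 ≤ P) (h2 : I + 1 ≤ Q) (h3 : I + 1 ≤ P') (h4 : I + 1 ≤ Q') : v = v' := by
  by_contra hvv
  have hI3 := three_I h
  have hm : (m : ℤ) = 3 * s + 2 := by exact_mod_cast h.m3
  have hv : v ∈ XX u v' := mXX.mpr ⟨hvv, F.ne.symm⟩
  have hv' : v' ∈ XX u v := mXX.mpr ⟨fun h => hvv h.symm, F'.ne.symm⟩
  obtain ⟨e0, _, _, e1, _⟩ := fr_facts h F
  obtain ⟨e0', _, _, e1', _⟩ := fr_facts h F'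
  set Z := (XX u v).erase v' with hZ
  have hZX : Z ⊆ XX u v := erase_subset _ _
  have hZX' : Z ⊆ XX u v' := by
    intro z hz
    rw [hZ, mem_erase, mXX] at hz
    exact mXX.mpr ⟨hz.1, hz.2.2⟩
  by_cases hθ : θ' = θ
  · subst hθ
    have hgg : ∀ z ∈ Z, (a z : ZMod m) * (g : ZMod m) = (a' z : ZMod m) * (g' : ZMod m) := by
      intro z hz
      have k1 := F.col z (hZX hz)
      rw [F'.col z (hZX' hz)] at k1
      exact (add_left_cancel k1).symm
    -- a vertex with small values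
    obtain ⟨z, hz, hz1, hz2, hz3⟩ : ∃ z ∈ Z, a z ≠ 0 ∧ ¬ 2 ≤ |a z| ∧ ¬ 2 ≤ |a' z| := by
      by_contra hcon
      push Not at hcon
      have hsub : (XX u v).filter (fun z => a z ≠ 0) ⊆
          {v'} ∪ ((Z.filter fun z => 2 ≤ |a z|) ∪ (Z.filter fun z => 2 ≤ |a' z|)) := by
        intro z hz
        rw [mem_filter] at hz
        rw [mem_union, mem_singleton, mem_union, mem_filter, mem_filter]
        by_cases hzv : z = v'
        · exact Or.inl hzv
        · right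
          have hzZ : z ∈ Z := mem_erase.mpr ⟨hzv, hz.1⟩
          by_cases h5 : 2 ≤ |a z|
          · exact Or.inl ⟨hzZ, h5⟩
          · exact Or.inr ⟨hzZ, hcon z hzZ hz.2 (by omega)⟩
      have k1 := card_le_card hsub
      have k2 := (card_union_le ({v'} : Finset V) ((Z.filter fun z => 2 ≤ |a z|) ∪ (Z.filter fun z => 2 ≤ |a' z|)))
      have k3 := card_union_le (Z.filter fun z => 2 ≤ |a z|) (Z.filter fun z => 2 ≤ |a' z|)
      rw [card_singleton] at k2
      have k4 := bigc F (Z.filter fun z => 2 ≤ |a z|) ((filter_subset _ _).trans hZX)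
        (fun z hz => (mem_filter.mp hz).2)
      have k5 := bigc F' (Z.filter fun z => 2 ≤ |a' z|) ((filter_subset _ _).trans hZX')
        (fun z hz => (mem_filter.mp hz).2)
      have k6 := F.na
      omega
    have hz4 : a' z ≠ 0 := by
      intro h0
      have k1 := hgg z hz
      rw [h0, Int.cast_zero, zero_mul] at k1
      have k2 := small h F (hZX hz)
      exact hz1 (cancel0 k1 (by omega))
    have ha1 : a z = 1 ∨ a z = -1 := by
      rcases abs_cases (a z) with ⟨k1, _⟩ | ⟨k1, _⟩ <;> omega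
    have ha2 : a' z = 1 ∨ a' z = -1 := by
      rcases abs_cases (a' z) with ⟨k1, _⟩ | ⟨k1, _⟩ <;> omega
    have hg : (g' : ZMod m) = ((a' z * a z : ℤ) : ZMod m) * (g : ZMod m) := by
      have k1 := hgg z hz
      have k2 : (a' z : ZMod m) * (a' z : ZMod m) = 1 := by
        rcases ha2 with k | k <;> rw [k] <;> simp
      have k3 : (g' : ZMod m) = (a' z : ZMod m) * ((a' z : ZMod m) * (g' : ZMod m)) := by
        rw [← mul_assoc, k2, one_mul]
      rw [k3, ← k1]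
      push_cast
      ring
    have k3 : ((ζ - a' z * a z * a' v : ℤ) : ZMod m) * (g : ZMod m) = 0 := by
      have k4 := F.cv
      rw [F'.col v hv, hg] at k4
      have k5 := add_left_cancel k4
      have k6 : ((ζ - a' z * a z * a' v : ℤ) : ZMod m) * (g : ZMod m) =
          (ζ : ZMod m) * (g : ZMod m) - (a' v : ZMod m) * (((a' z * a z : ℤ) : ZMod m) * (g : ZMod m)) := by
        push_cast
        ring
      rw [k6, k5, sub_self]
    have hlo := F.lo
    have hhi := F.hi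
    have hA := small h F' hv
    rw [abs_le] at hA
    have hrange : 0 < ζ - a' z * a z * a' v ∧ ζ - a' z * a z * a' v < m := by
      rcases ha1 with k | k <;> rcases ha2 with k' | k' <;> rw [k, k'] <;> constructor <;> omega
    have k7 := cancel0 k3 (by rw [abs_lt]; constructor <;> omega)
    omega
  · obtain ⟨κ, hk, he⟩ := side h F F' hθ
    obtain ⟨κ', hk', he'⟩ := side h F' F (fun h => hθ h.symm)
    have k1 := side2 h F F' h1 h2 hvv hk hk' he he'
    have k2 := side2 h F' F h3 h4 (fun h => hvv h.symm) hk' hk he' he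
    have k3 := F'.one v hv
    have k4 := F.one v' hv'
    have k5 := zeroc h F
    have k6 := zeroc h F'
    have hZc : Z.card + 1 = 4 * s := by
      rw [hZ, card_erase_add_one hv', cXX h F.ne]
    have hsub1 : (XX u v).filter (fun z => a z = 0) ⊆ Z := by
      intro z hz
      rw [mem_filter] at hz
      refine mem_erase.mpr ⟨?_, hz.1⟩
      rintro rfl
      rw [hz.2, abs_zero] at k2
      omega
    have hsub2 : (XX u v').filter (fun z => a' z = 0) ⊆ Z := by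
      intro z hz
      rw [mem_filter, mXX] at hz
      refine mem_erase.mpr ⟨hz.1.1, mXX.mpr ⟨?_, hz.1.2⟩⟩
      rintro rfl
      rw [hz.2, abs_zero] at k1
      omega
    have hdis : Disjoint ((XX u v).filter (fun z => a z = 0)) ((XX u v').filter (fun z => a' z = 0)) := by
      rw [disjoint_left]
      intro z hz hz'
      rw [mem_filter] at hz hz'
      have k7 := F.col z hz.1
      have k8 := F'.col z hz'.1
      rw [hz.2, Int.cast_zero, zero_mul, add_zero] at k7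
      rw [hz'.2, Int.cast_zero, zero_mul, add_zero] at k8
      exact hθ (k8.symm.trans k7)
    have k7 := card_le_card (union_subset hsub1 hsub2)
    rw [card_union_of_disjoint hdis] at k7
    omega

end X2
end ZS44129
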