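import Mathlib
import Pool.Agent.Work.MP_44129c_co.X2.Pair
import Pool.Agent.Work.MP_44129c_co.X2.Near
import Pool.Agent.Work.MP_44129c_co.X2.Uniq
import Pool.Agent.Work.MP_44129c_co.X2.Count
import Pool.Agent.Work.MP_44129c_co.X2.Part
import Pool.Agent.Work.MP_44129c_co.X2.Star
import Pool.Agent.Work.MP_44129c_co.X1.Main
import Pool.Agent.Work.MP_44129c_co.O1.Wide
import Pool.Agent.Work.MP_44129c_co.O1.GpDD
import Pool.Agent.Work.MP_44129c_co.O1.OddT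

/-!
# MP_44129c_co/X2, Main (helper24): the assembly
-/

set_option autoImplicit false

namespace ZS44129
namespace X2

open Finset E N X1

variable {V : Type} [Fintype V] [DecidableEq V] {m : ℕ}

/-- a vertex with large classes is exact. -/
theorem ex_of_big [NeZero m] {c : V → V → ZMod m} {s I : ℕ} (h : St c s I) {p : V}
    (hp : 8 * s * s + 2 * s ≤ (∑ z ∈ univ.erase p, (cla c p (c p z)).card) + 1 + 2 * I) :
    ∃ (g : (ZMod m)ˣ) (β : ZMod m), Ex (fun x y => (g : ZMod m) * c x y - β) p := by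
  obtain ⟨a, b, h1, h2, h3⟩ := two_classes h hp
  exact ex_of_two h h1 h2 h3

/-- there is an exact star. -/
theorem exists_ex [NeZero m] {c : V → V → ZMod m} {s I : ℕ} (h : St c s I)
    (hlp : ∀ u v, u ≠ v → 2 * s + 2 ≤ G.DD c u v ⊥ →
      ∃ (g : (ZMod m)ˣ) (β : ZMod m) (z0 : ℤ) (al ga : V → ℤ),
        PLift (fun x y => (g : ZMod m) * c x y - β) u v z0 al ga) :
    ∃ (g : (ZMod m)ˣ) (β : ZMod m) (u : V), Ex (fun x y => (g : ZMod m) * c x y - β) u := by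
  by_contra hcon
  have hno : ∀ (u : V) (g : (ZMod m)ˣ) (β : ZMod m),
      ¬ Ex (fun x y => (g : ZMod m) * c x y - β) u := fun u g β hx => hcon ⟨g, β, u, hx⟩
  have hfr : ∀ u v, u ≠ v → 2 * s + 2 ≤ G.DD c u v ⊥ →
      ∃ (g : (ZMod m)ˣ) (θ : ZMod m) (ζ : ℤ) (a : V → ℤ) (P Q ex : ℤ),
        Fr c s I u v g θ ζ a P Q ex ∧ I + 1 ≤ P ∧ I + 1 ≤ Q := by
    intro u v huv hD
    obtain ⟨g, β, z0, al, ga, hP⟩ := hlp u v huv hD
    obtain ⟨g', θ, ζ, a, P, Q, ex, F⟩ := fr_of_plift h g β hP hD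
    refine ⟨g', θ, ζ, a, P, Q, ex, F, ?_, ?_⟩
    · by_contra hlt
      obtain ⟨g1, β1, h1⟩ := ex_of_fr h F (Or.inl (by omega))
      exact hno u g1 β1 h1
    · by_contra hlt
      obtain ⟨g1, β1, h1⟩ := ex_of_fr h F (Or.inr (by omega))
      exact hno u g1 β1 h1
  obtain ⟨p, hp⟩ := exists_big h
    (by
      intro u v huv
      by_contra hlt
      obtain ⟨g, θ, ζ, a, P, Q, ex, F, -, -⟩ := hfr u v huv.symm (by omega)
      exact hlt (fr_facts h F).2.2.2.2.1)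
    (by
      intro u v v' h1 h2 h3 h4
      obtain ⟨g, θ, ζ, a, P, Q, ex, F, h5, h6⟩ := hfr u v h1.symm h3
      obtain ⟨g', θ', ζ', a', P', Q', ex', F', h7, h8⟩ := hfr u v' h2.symm h4
      exact fr_uniq h F F' h5 h6 h7 h8)
  obtain ⟨g, β, h1⟩ := ex_of_big h hp
  exact hno p g β h1

/-- `t = 1` if all pairs with `DD ≥ 2 s + 2` have a lift. -/
theorem one_mf [NeZero m] {c : V → V → ZMod m} {s I : ℕ} (h : St c s I)
    (hlp : ∀ u v, u ≠ v → 2 * s + 2 ≤ G.DD c u v ⊥ →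
      ∃ (g : (ZMod m)ˣ) (β : ZMod m) (z0 : ℤ) (al ga : V → ℤ),
        PLift (fun x y => (g : ZMod m) * c x y - β) u v z0 al ga) :
    ∃ b : V → V → Bool, (∀ x y, b x y = b y x) ∧ MF m b := by
  obtain ⟨g, β, u, h1⟩ := exists_ex h hlp
  exact mf_of_ex (st_affine h g β) h1

/-- `t = 1`, `m` odd. -/
theorem odd_one_mf [NeZero m] {c : V → V → ZMod m} {s : ℕ} (h : O1.OS c s)
    (hs : s = 5 ∨ 8 ≤ s) (hm : m = 3 * s + 2) :
    ∃ b : V → V → Bool, (∀ x y, b x y = b y x) ∧ MF m b := by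
  obtain ⟨I, hI⟩ := O1.odd_one h hs hm
  refine one_mf hI (fun u v huv hD => ?_)
  exact O1.gp_lift hI.zsf (by omega) hI.card (O1.gp_of_wide h (by omega) huv (by omega))

end X2
end ZS44129
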