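import Mathlib
import Pool.Agent.Work.MP_44129c_co.X2.Main
import Pool.Agent.Work.MP_44129c_co.X2.EMono
import Pool.Agent.Work.MP_44129c_co.X2.EHH
import Pool.Agent.Work.MP_44129c_co.X2.ECount

/-!
# MP_44129c_co/X2, EMain (helper24): even `m`, the assembly
-/

set_option autoImplicit false

namespace ZS44129
namespace X2

open Finset E N X1

variable {V : Type} [Fintype V] [DecidableEq V] {m : ℕ}

theorem ddK_eq [NeZero m] {c : V → V → ZMod m} {s I : ℕ} {K : AddSubgroup (ZMod m)}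
    (h : StE c s I K) {u v : V} (huv : u ≠ v) : G.DD c u v K = G.DD c u v ⊥ := by
  classical
  refine le_antisymm (G.dd_anti c u v bot_le) ?_
  unfold G.DD G.Dn
  refine card_le_card ?_
  intro z hz
  rw [mem_filter] at hz ⊢
  obtain ⟨h1, h2⟩ := G.mem_XX.1 hz.1
  refine ⟨hz.1, fun h3 => hz.2 ?_⟩
  have h4 := mono h (p := z) (x := u) (x' := v) h1.symm h2.symm (by
    rw [h.sym z u, h.sym z v]
    exact h3)
  rw [h.sym u z, h.sym v z, h4, sub_self]
  exact AddSubgroup.zero_mem _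

theorem exists_exE [NeZero m] {c : V → V → ZMod m} {s I : ℕ} {K : AddSubgroup (ZMod m)}
    (h : StE c s I K) :
    ∃ (g : (ZMod m)ˣ) (β : ZMod m) (u : V), Ex (fun x y => (g : ZMod m) * c x y - β) u := by
  classical
  by_contra hcon
  have hno : ∀ (u : V) (g : (ZMod m)ˣ) (β : ZMod m),
      ¬ Ex (fun x y => (g : ZMod m) * c x y - β) u := fun u g β hx => hcon ⟨g, β, u, hx⟩
  have hst := h.toSt
  have hm3 := h.m3
  have hcard : 5 ≤ Fintype.card V := by
    have h1 := h.card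
    have h2 := h.s5
    omega
  have hfr : ∀ u v, u ≠ v → 2 * s + 2 ≤ G.DD c u v ⊥ → ¬ Hvy c u v →
      ∃ (g : (ZMod m)ˣ) (θ : ZMod m) (ζ : ℤ) (a : V → ℤ) (P Q ex : ℤ),
        Fr c s I u v g θ ζ a P Q ex ∧ I + 1 ≤ P ∧ I + 1 ≤ Q := by
    intro u v huv hD hnH
    rcases plift_or h huv (by rw [ddK_eq h huv]; omega) with h1 | h1
    · obtain ⟨g, β, z0, al, ga, hP⟩ := h1
      obtain ⟨g', θ, ζ, a, P, Q, ex, F⟩ := fr_of_plift hst g β hP hD
      refine ⟨g', θ, ζ, a, P, Q, ex, F, ?_, ?_⟩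
      · by_contra hlt
        obtain ⟨g1, β1, h1⟩ := ex_of_fr hst F (Or.inl (by omega))
        exact hno u g1 β1 h1
      · by_contra hlt
        obtain ⟨g1, β1, h1⟩ := ex_of_fr hst F (Or.inr (by omega))
        exact hno u g1 β1 h1
    · exact absurd h1 hnH
  set T : Finset V := univ.filter (fun u => ∃ w, Hvy c u w) with hT
  have hmemT : ∀ u, u ∈ T ↔ ∃ w, Hvy c u w := by
    intro u
    rw [hT, mem_filter]
    exact ⟨fun h1 => h1.2, fun h1 => ⟨mem_univ u, h1⟩⟩
  let π : V → V := fun u => if h1 : ∃ w, Hvy c u w then h1.choose else u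
  have hπ0 : ∀ u ∈ T, Hvy c u (π u) := by
    intro u hu
    have h1 := (hmemT u).1 hu
    have h2 : π u = h1.choose := dif_pos h1
    rw [h2]
    exact h1.choose_spec
  obtain ⟨p, hp⟩ := exists_bigE hst (by
      obtain ⟨k, h1, -, -⟩ := s_even h
      exact ⟨k, h1⟩) T π
    (by
      intro u hu
      have h1 := hπ0 u hu
      have h2 := hvy_symm h.sym h1
      have h3 : π u ∈ T := (hmemT _).2 ⟨u, h2⟩
      exact ⟨h3, (hvy_ne h1).symm, hvy_uniq hcard (hπ0 _ h3) h2⟩)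
    (by
      intro u hu v huv
      by_contra hlt
      obtain ⟨g, θ, ζ, a, P, Q, ex, F, -, -⟩ := hfr u v huv.symm (by omega)
        (fun h1 => hu ((hmemT u).2 ⟨v, h1⟩))
      exact hlt (fr_facts hst F).2.2.2.2.1)
    (by
      intro u hu v v' h1 h2 h3 h4
      obtain ⟨g, θ, ζ, a, P, Q, ex, F, h5, h6⟩ := hfr u v h1.symm h3
        (fun h1 => hu ((hmemT u).2 ⟨v, h1⟩))
      obtain ⟨g', θ', ζ', a', P', Q', ex', F', h7, h8⟩ := hfr u v' h2.symm h4
        (fun h1 => hu ((hmemT u).2 ⟨v', h1⟩))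
      exact fr_uniq hst F F' h5 h6 h7 h8)
    (by
      intro u hu v h1 h2
      by_contra hlt
      have h3 := hπ0 u hu
      obtain ⟨g, θ, ζ, a, P, Q, ex, F, -, -⟩ := hfr u v h1.symm (by omega)
        (fun h4 => h2 (hvy_uniq hcard h4 h3))
      exact no_fr hst h3 h2 F)
    (by
      intro u hu v hv h1 h2
      by_contra hlt
      have h3 := hπ0 u hu
      rcases plift_or h h1.symm (by rw [ddK_eq h h1.symm]; omega) with h4 | h4
      · obtain ⟨g, β, z0, al, ga, hP⟩ := h4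
        exact no_hh h h3 (hπ0 v hv) h1 h2 g β hP (by omega)
      · exact h2 (hvy_uniq hcard h4 h3))
  obtain ⟨g, β, h1⟩ := ex_of_big hst hp
  exact hno p g β h1

/-- `t = 1`, `m` even. -/
theorem even_one_mf [NeZero m] {c : V → V → ZMod m} {s I : ℕ} {K : AddSubgroup (ZMod m)}
    (h : StE c s I K) : ∃ b : V → V → Bool, (∀ x y, b x y = b y x) ∧ MF m b := by
  obtain ⟨g, β, u, h1⟩ := exists_exE h
  exact mf_of_ex (st_affine h.toSt g β) h1

end X2
end ZS44129
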